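import Pool.Agent.Lib.G8.LDefs

/-!
# G8, row L0 (copy of G5/R0.lean)

PROOF IN WORDS. As R0. `b = (i, j, g) ∈ IL`, `q ∈ SL S i`: `2^i < q ≤ w'`, so `2^i ≤ w' ≤ U`; `(log Y)^(c1+1) ≤ q ≤ 2^(i+1)` gives hP1. `(2^i)^400 ≤ U^400 ≤ Y` (hP2), `2^j ≤ U^(k-2)` gives
`(2^i 2^j)^200 ≤ U^(200 (k-1)) ≤ Y` (hM2). `SL S i ⊆ pr (2^i)` (primes of `(P, 2P]`). ham: the prime factors are `> 2^(i+1) ≥ q ≥ (log Y)^(c1+1)`. hb: `R = 2^g ≥ Y/(l^e 2^i 2^j) ≥ Y/(l^e U^(k-1)) > U`, so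
`n = q m r` has only one prime factor `≤ 2^(i+1)` (`q`) and only one `> U` (`r`): at most one term, of size `≤ 1`. The number of blocks is at most `(log_2 Y + 1)^2` times the number of `g` or simply
`(log_2 Y + 1)^3 ≤ (log Y)^4`.
-/

set_option autoImplicit false

open Finset

namespace Pool.Agent.Lib.G8

open Pool.Agent.Lib.G3 (pr lp)
open Pool.Agent.Lib.G5 (bS DD WS PP BlkG)

private theorem l0_one {ι : Type} [DecidableEq ι] (A : Finset ι) (f : ι → ℝ) (c : ℝ) (hc : 0 ≤ c) (h1 : ∀ x ∈ A, f x ≤ c)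
    (h2 : ∀ x ∈ A, ∀ y ∈ A, f x ≠ 0 → f y ≠ 0 → x = y) : ∑ x ∈ A, f x ≤ c := by
  by_cases h : ∃ x ∈ A, f x ≠ 0
  · obtain ⟨x, hx, hfx⟩ := h
    rw [Finset.sum_eq_single x]
    · exact h1 x hx
    · intro y hy hyx
      by_contra hfy
      exact hyx (h2 y hy x hx hfy hfx)
    · intro h
      exact absurd hx h
  · push Not at h
    rw [Finset.sum_eq_zero h]
    exact hc

private theorem l0_al (k U i m : ℕ) : 0 ≤ aL k U i m ∧ aL k U i m ≤ 1 := by
  unfold aL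
  split_ifs
  · exact ⟨zero_le_one, le_rfl⟩
  · exact ⟨le_rfl, zero_le_one⟩

private theorem l0_bound (k U i : ℕ) (S : Finset ℕ) (hS : ∀ p ∈ S, p.Prime ∧ p ≤ U ∧ p ≤ 2 ^ (i + 1)) (R M : ℕ) (hR1 : 1 ≤ R)
    (hR : U ≤ R) (n : ℕ) : |bS S (aL k U i) R M n| ≤ 1 := by
  classical
  have hlogR : 0 < Real.log ((2 * R : ℕ) : ℝ) := Real.log_pos (by exact_mod_cast (by omega : 1 < 2 * R))
  have hr : ∀ r ∈ pr R, r.Prime ∧ R < r ∧ 0 ≤ lp r / Real.log ((2 * R : ℕ) : ℝ) ∧ lp r / Real.log ((2 * R : ℕ) : ℝ) ≤ 1 := by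
    intro r hr
    unfold pr at hr
    rw [mem_filter, mem_Ioc] at hr
    obtain ⟨⟨hr1, hr2⟩, hrp⟩ := hr
    have e : lp r = Real.log r := by
      unfold Pool.Agent.Lib.G3.lp
      rw [if_pos hrp]
    have hr0 : (0 : ℝ) < r := by exact_mod_cast hrp.pos
    refine ⟨hrp, hr1, ?_, ?_⟩
    · rw [e]
      exact div_nonneg (Real.log_nonneg (by exact_mod_cast hrp.one_lt.le)) hlogR.le
    · rw [e, div_le_one hlogR]
      exact Real.log_le_log hr0 (by exact_mod_cast hr2)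
  set t : ℕ → ℕ → ℕ → ℝ := fun p r m =>
    if p * m * r = n then aL k U i m * (lp r / Real.log ((2 * R : ℕ) : ℝ)) else 0 with ht
  have ht0 : ∀ p, ∀ r ∈ pr R, ∀ m, 0 ≤ t p r m := by
    intro p r hr' m
    simp only [ht]
    split_ifs
    · exact mul_nonneg (l0_al k U i m).1 (hr r hr').2.2.1
    · exact le_rfl
  have ht1 : ∀ p, ∀ r ∈ pr R, ∀ m, t p r m ≤ 1 := by
    intro p r hr' m
    simp only [ht]
    split_ifs
    · calc aL k U i m * (lp r / Real.log ((2 * R : ℕ) : ℝ)) ≤ aL k U i m * 1 :=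
            mul_le_mul_of_nonneg_left (hr r hr').2.2.2 (l0_al k U i m).1
        _ ≤ 1 := by rw [mul_one]; exact (l0_al k U i m).2
    · exact zero_le_one
  have htn : ∀ p r m, t p r m ≠ 0 → p * m * r = n ∧
      (Squarefree m ∧ m.primeFactors.card = k - 2 ∧ m.primeFactors ⊆ PP (2 ^ (i + 1)) U) := by
    intro p r m h
    simp only [ht] at h
    have h1 : p * m * r = n := by
      by_contra hcon
      rw [if_neg hcon] at h
      exact h rfl
    rw [if_pos h1] at h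
    have h2 : aL k U i m ≠ 0 := left_ne_zero_of_mul h
    refine ⟨h1, ?_⟩
    by_contra hcon
    unfold aL at h2
    rw [if_neg hcon] at h2
    exact h2 rfl
  have hb : bS S (aL k U i) R M n = ∑ p ∈ S, ∑ r ∈ pr R, ∑ m ∈ Ico M (2 * M), t p r m := rfl
  have hb0 : 0 ≤ bS S (aL k U i) R M n := by
    rw [hb]
    exact Finset.sum_nonneg fun p _ => Finset.sum_nonneg fun r hr' => Finset.sum_nonneg fun m _ => ht0 p r hr' m
  have hmq : ∀ m, Squarefree m ∧ m.primeFactors.card = k - 2 ∧ m.primeFactors ⊆ PP (2 ^ (i + 1)) U →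
      ∀ q : ℕ, q.Prime → q ∣ m → 2 ^ (i + 1) < q ∧ q ≤ U := by
    intro m hm q hq hd
    have h1 := hm.2.2 (Nat.mem_primeFactors.2 ⟨hq, hd, hm.1.ne_zero⟩)
    unfold PP at h1
    rw [mem_filter, mem_Ioc] at h1
    exact h1.1
  rw [abs_of_nonneg hb0, hb]
  have e1 : ∑ p ∈ S, ∑ r ∈ pr R, ∑ m ∈ Ico M (2 * M), t p r m
      = ∑ x ∈ S ×ˢ (pr R ×ˢ Ico M (2 * M)), t x.1 x.2.1 x.2.2 := by
    rw [Finset.sum_product]
    exact Finset.sum_congr rfl fun p _ => (Finset.sum_product (f := fun y : ℕ × ℕ => t p y.1 y.2) ..).symm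
  rw [e1]
  refine l0_one _ _ _ zero_le_one ?_ ?_
  · rintro ⟨p, r, m⟩ hx
    exact ht1 p r (mem_product.1 (mem_product.1 hx).2).1 m
  · rintro ⟨p, r, m⟩ hx ⟨p', r', m'⟩ hx' h h'
    have hp := (mem_product.1 hx).1
    have hrr := (mem_product.1 (mem_product.1 hx).2).1
    have hp' := (mem_product.1 hx').1
    have hrr' := (mem_product.1 (mem_product.1 hx').2).1
    simp only at hp hrr hp' hrr' h h'
    obtain ⟨e2, hm⟩ := htn p r m h
    obtain ⟨e3, hm'⟩ := htn p' r' m' h'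
    obtain ⟨hpp, hpU, hpi⟩ := hS p hp
    obtain ⟨hpp', hpU', hpi'⟩ := hS p' hp'
    obtain ⟨hrp, hrR, -⟩ := hr r hrr
    obtain ⟨hrp', hrR', -⟩ := hr r' hrr'
    have hr1 : r = r' := by
      have hd : r ∣ p' * m' * r' := by
        rw [e3, ← e2]
        exact dvd_mul_left r _
      rcases (Nat.Prime.dvd_mul hrp).1 hd with h2 | h2
      · exfalso
        rcases (Nat.Prime.dvd_mul hrp).1 h2 with h3 | h3
        · have := (Nat.prime_dvd_prime_iff_eq hrp hpp').1 h3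
          omega
        · have := (hmq m' hm' r hrp h3).2
          omega
      · exact (Nat.prime_dvd_prime_iff_eq hrp hrp').1 h2
    subst hr1
    have e4 : p * m = p' * m' := Nat.eq_of_mul_eq_mul_right hrp.pos (e2.trans e3.symm)
    have hp1 : p = p' := by
      have hd : p ∣ p' * m' := by
        rw [← e4]
        exact dvd_mul_right p _
      rcases (Nat.Prime.dvd_mul hpp).1 hd with h2 | h2
      · exact (Nat.prime_dvd_prime_iff_eq hpp hpp').1 h2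
      · have := (hmq m' hm' p hpp h2).1
        omega
    subst hp1
    have hm1 : m = m' := Nat.eq_of_mul_eq_mul_left hpp.pos e4
    rw [hm1]

theorem l0 (k e c1 : ℕ) (hk : 2 ≤ k) : ∃ x0 : ℝ, ∀ Y : ℕ, x0 ≤ Y → ∀ (U w' : ℕ) (S : Finset ℕ), RgL Y U w' c1 (1000 * k) S →
    (∀ b ∈ IL Y e k U S, BlkG Y (2 ^ b.1) (2 ^ b.2.2) (2 ^ b.2.1) (SL S b.1) (aL k U b.1) e c1 ∧ 2 ^ b.1 ≤ w') ∧
      ((IL Y e k U S).card : ℝ) ≤ (Real.log Y) ^ 4 := by
  classical
  have hev : ∀ᶠ x : ℝ in Filter.atTop, (Real.log x) ^ (2 * e + 1) ≤ x := by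
    have h1 := (Real.isLittleO_pow_log_id_atTop (n := 2 * e + 1)).def (c := 1) one_pos
    filter_upwards [h1, Filter.eventually_ge_atTop (1 : ℝ)] with x hx hx1
    have hl : 0 ≤ Real.log x := Real.log_nonneg hx1
    simp only [id, Real.norm_eq_abs, one_mul] at hx
    rwa [abs_of_nonneg (by positivity), abs_of_nonneg (by linarith)] at hx
  obtain ⟨x1, hx1⟩ := Filter.eventually_atTop.1 hev
  refine ⟨max x1 (Real.exp 27), ?_⟩
  intro Y hY U w' S hRg
  have hY1 : (Real.log Y) ^ (2 * e + 1) ≤ Y := hx1 Y ((le_max_left _ _).trans hY)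
  have hY2 : Real.exp 27 ≤ Y := (le_max_right _ _).trans hY
  have hY0 : (0 : ℝ) < Y := lt_of_lt_of_le (Real.exp_pos _) hY2
  set l := Real.log Y with hl
  have hl27 : 27 ≤ l := by
    rw [hl, Real.le_log_iff_exp_le hY0]
    exact hY2
  have hl1 : 1 ≤ l := by linarith
  have hl0 : 0 < l := by linarith
  obtain ⟨g1, g2, g3⟩ := hRg
  rw [← hl] at g1
  have hlc : 0 < l ^ c1 := by positivity
  have hmem : ∀ b ∈ IL Y e k U S, (∃ p, p ∈ SL S b.1) ∧ 2 ^ b.2.1 ≤ U ^ (k - 2) ∧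
      (Y : ℝ) / l ^ e ≤ ((2 ^ b.1 * 2 ^ b.2.1 * 2 ^ b.2.2 : ℕ) : ℝ) ∧ 2 ^ b.1 * 2 ^ b.2.1 * 2 ^ b.2.2 ≤ Y := by
    rintro ⟨i, j, g⟩ hb
    unfold IL at hb
    rw [mem_filter] at hb
    obtain ⟨-, ⟨p, hp⟩, hj, hb1, hb2⟩ := hb
    exact ⟨⟨p, hp⟩, hj, hb1, hb2⟩
  have hSI : ∀ i, ∀ q ∈ SL S i, q.Prime ∧ l ^ (c1 + 1) ≤ q ∧ q ≤ w' ∧ 2 ^ i < q ∧ q ≤ 2 ^ (i + 1) := by
    intro i q hq
    unfold SL at hq
    rw [mem_filter] at hq
    obtain ⟨h1, h2, h3⟩ := g1 q hq.1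
    exact ⟨h1, h2, h3, hq.2.1, hq.2.2⟩
  have hPw : ∀ b ∈ IL Y e k U S, 2 ^ b.1 ≤ w' := by
    intro b hb
    obtain ⟨⟨p, hp⟩, -⟩ := hmem b hb
    obtain ⟨-, -, hp2, hp3, -⟩ := hSI b.1 p hp
    exact hp3.le.trans hp2
  refine ⟨fun b hb => ⟨?_, hPw b hb⟩, ?_⟩
  · have hPw' := hPw b hb
    obtain ⟨⟨p, hp⟩, hj, hb1, hb2⟩ := hmem b hb
    obtain ⟨i, j, g⟩ := b
    simp only at hp hj hb1 hb2 hPw' ⊢
    obtain ⟨hpp, hp1, hp2, hp3, hp4⟩ := hSI i p hp
    have hlc1 : l ^ c1 / 2 < l ^ (c1 + 1) := by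
      rw [pow_succ]
      nlinarith
    have hU1 : 1 ≤ U := by
      have := hpp.two_le
      omega
    have hPU : 2 ^ i ≤ U := by omega
    have hPM : 2 ^ i * 2 ^ j ≤ U ^ (k - 1) := by
      have h1 : 2 ^ i * 2 ^ j ≤ U * U ^ (k - 2) := Nat.mul_le_mul hPU hj
      have h2 : U * U ^ (k - 2) = U ^ (k - 1) := by
        rw [← pow_succ']
        congr 1
        omega
      rwa [h2] at h1
    have hRw : U ≤ 2 ^ g := by
      by_contra hcon
      push Not at hcon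
      have h1 : 2 ^ i * 2 ^ j * 2 ^ g ≤ U ^ k := by
        have h2 : 2 ^ i * 2 ^ j * 2 ^ g ≤ U ^ (k - 1) * U := Nat.mul_le_mul hPM hcon.le
        have h3 : U ^ (k - 1) * U = U ^ k := by
          rw [← pow_succ]
          congr 1
          omega
        rwa [h3] at h2
      set W : ℝ := ((U ^ k : ℕ) : ℝ) with hW
      have hW1 : 1 ≤ W := by
        rw [hW]
        exact_mod_cast Nat.one_le_pow _ _ hU1
      have h4 : (Y : ℝ) ≤ W * l ^ e := by
        rw [div_le_iff₀ (by positivity)] at hb1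
        refine hb1.trans (mul_le_mul_of_nonneg_right ?_ (by positivity))
        rw [hW]
        exact_mod_cast h1
      have h5 : W ^ 2 ≤ Y := by
        have h6 : (U ^ k) ^ 2 ≤ Y := by
          refine le_trans ?_ g3
          rw [← pow_mul]
          exact Nat.pow_le_pow_right hU1 (by omega)
        rw [hW]
        exact_mod_cast h6
      have h7 : l ^ (2 * e) < Y := by
        refine lt_of_lt_of_le ?_ hY1
        rw [pow_succ]
        have h8 : 0 < l ^ (2 * e) := by positivity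
        nlinarith
      have h9 : (Y : ℝ) ^ 2 ≤ (W * l ^ e) ^ 2 := pow_le_pow_left₀ hY0.le h4 2
      have h10 : (W * l ^ e) ^ 2 = W ^ 2 * l ^ (2 * e) := by ring
      rw [h10] at h9
      have h11 : W ^ 2 * l ^ (2 * e) ≤ Y * l ^ (2 * e) := mul_le_mul_of_nonneg_right h5 (by positivity)
      have h12 : (Y : ℝ) * l ^ (2 * e) < Y * Y := mul_lt_mul_of_pos_left h7 hY0
      nlinarith
    refine ⟨?_, ?_, Nat.one_le_two_pow, ?_, hb1, hb2, ?_, ?_, ?_, ?_⟩
    · have h1 : (p : ℝ) ≤ ((2 ^ (i + 1) : ℕ) : ℝ) := by exact_mod_cast hp4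
      have h2 : ((2 ^ (i + 1) : ℕ) : ℝ) = 2 * ((2 ^ i : ℕ) : ℝ) := by
        push_cast
        ring
      have h3 : l ^ c1 ≤ l ^ (c1 + 1) := pow_le_pow_right₀ hl1 (Nat.le_succ c1)
      rw [div_le_iff₀ (by norm_num)]
      linarith
    · exact ((Nat.pow_le_pow_left hPU 400).trans (Nat.pow_le_pow_right hU1 (by omega))).trans g3
    · refine ((Nat.pow_le_pow_left hPM 200).trans ?_).trans g3
      rw [← pow_mul]
      exact Nat.pow_le_pow_right hU1 (by omega)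
    · intro q hq
      obtain ⟨q1, q2, q3, q4, q5⟩ := hSI i q hq
      unfold pr
      rw [mem_filter, mem_Ioc]
      refine ⟨⟨q4, ?_⟩, q1⟩
      rw [pow_succ] at q5
      omega
    · intro m
      obtain ⟨h1, h2⟩ := l0_al k U i m
      rw [abs_of_nonneg h1]
      exact h2
    · intro m hm q hq hqm
      have h1 : Squarefree m ∧ m.primeFactors.card = k - 2 ∧ m.primeFactors ⊆ PP (2 ^ (i + 1)) U := by
        by_contra hcon
        unfold aL at hm
        rw [if_neg hcon] at hm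
        exact hm rfl
      have h2 := h1.2.2 (Nat.mem_primeFactors.2 ⟨hq, hqm, h1.1.ne_zero⟩)
      unfold PP at h2
      rw [mem_filter, mem_Ioc] at h2
      have h3 : (p : ℝ) < q := by exact_mod_cast lt_of_le_of_lt hp4 h2.1.1
      linarith
    · refine fun n => l0_bound k U i _ (fun q hq => ⟨(hSI i q hq).1, ?_, (hSI i q hq).2.2.2.2⟩) _ _ Nat.one_le_two_pow hRw n
      have := (hSI i q hq).2.2.1
      omega
  · have h1 : (IL Y e k U S).card ≤ (Nat.log 2 Y + 1) * ((Nat.log 2 Y + 1) * (Nat.log 2 Y + 1)) := by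
      unfold IL
      refine (card_filter_le _ _).trans ?_
      rw [card_product, card_product, card_range]
    have h2 : ((Nat.log 2 Y : ℕ) : ℝ) ≤ 2 * l := by
      have hYn : Y ≠ 0 := by
        rintro rfl
        simp at hY0
      have h3 : ((2 ^ Nat.log 2 Y : ℕ) : ℝ) ≤ Y := by exact_mod_cast Nat.pow_log_le_self 2 hYn
      have h4 := Real.log_le_log (by positivity) h3
      rw [Nat.cast_pow, Real.log_pow, ← hl] at h4
      have h5 := Real.log_two_gt_d9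
      have h6 : (0 : ℝ) ≤ Nat.log 2 Y := Nat.cast_nonneg _
      have h7 : ((Nat.log 2 Y : ℕ) : ℝ) * (1 / 2) ≤ (Nat.log 2 Y : ℕ) * Real.log ((2 : ℕ) : ℝ) := by
        refine mul_le_mul_of_nonneg_left ?_ h6
        push_cast
        linarith
      have h8 := h7.trans h4
      linarith
    have h3 : ((IL Y e k U S).card : ℝ) ≤
        ((Nat.log 2 Y : ℕ) + 1) * (((Nat.log 2 Y : ℕ) + 1) * ((Nat.log 2 Y : ℕ) + 1)) := by exact_mod_cast h1
    have h4 : ((Nat.log 2 Y : ℕ) : ℝ) + 1 ≤ 3 * l := by linarith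
    have h5 : (0 : ℝ) ≤ ((Nat.log 2 Y : ℕ) : ℝ) + 1 := by positivity
    calc ((IL Y e k U S).card : ℝ)
        ≤ ((Nat.log 2 Y : ℕ) + 1) * (((Nat.log 2 Y : ℕ) + 1) * ((Nat.log 2 Y : ℕ) + 1)) := h3
      _ = (((Nat.log 2 Y : ℕ) : ℝ) + 1) ^ 3 := by ring
      _ ≤ (3 * l) ^ 3 := pow_le_pow_left₀ h5 h4 3
      _ = 27 * l ^ 3 := by ring
      _ ≤ l * l ^ 3 := mul_le_mul_of_nonneg_right hl27 (by positivity)
      _ = l ^ 4 := by ring

end Pool.Agent.Lib.G8
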