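import Pool.Agent.Lib.G8.LDefs

/-!
# G8, row L3 (copy of G5/R3.lean): total mass of the blocks

PROOF IN WORDS. As R3, with the pairs `(q, m)`, `q ∈ SL S i`, `m ∈ [2^j, 2^(j+1))`, `aL k U i m = 1`, in the place of those of `SI`, `aS`. For fixed `(q, m)` the sum over `g` of
`#{q m 2^g < n ≤ 2 q m 2^g, n < N}/(q m log 2^(g+1))` is `(1 + O(ε)) Y/(q m log Y)`: the intervals cover `n` from `8 Y/l^e` to `Y`, and `log 2^(g+1) = log Y (1 + O(ε))` since `q m ≤ U^(k-1) ≤ Y^((k-1)/M)`, `M`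
large in terms of `k`, `ε` (and `n ≥ Y/l^e`). The sum of `1/(q m)` over `i`, `j` is `∑_{q ∈ S} 1/q · esy (k-2) (2^(di q + 1)) U` (`SL S i` = fibre of `di`; `m ↔` its set of prime factors, as in R3:
`m ≤ U^(k-2)`).
-/

set_option autoImplicit false

open Finset

namespace Pool.Agent.Lib.G8

open Pool.Agent.Lib.G5 (bS DD WS PP sg1 esy)

private theorem r3_sum {ι : Type*} (s : Finset ι) (f h : ι → ℝ) (c ε : ℝ)
    (H : ∀ x ∈ s, |f x - c * h x| ≤ ε * (c * h x)) :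
    |∑ x ∈ s, f x - c * ∑ x ∈ s, h x| ≤ ε * (c * ∑ x ∈ s, h x) := by
  rw [Finset.mul_sum, Finset.mul_sum, ← Finset.sum_sub_distrib]
  exact (Finset.abs_sum_le_sum_abs _ _).trans (Finset.sum_le_sum H)

private theorem r3_sg1 (S : Finset ℕ) (F : ℕ → ℝ) (L : ℕ) (hS : ∀ q ∈ S, q.Prime ∧ q < 2 ^ (L + 1)) :
    ∑ i ∈ range (L + 1), ∑ q ∈ SL S i, F q = ∑ q ∈ S, F q := by
  classical
  have hmap : ∀ p ∈ S, Nat.log 2 (p - 1) ∈ range (L + 1) := by
    intro p hp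
    have hp2 := (hS p hp).1.two_le
    have hp3 := (hS p hp).2
    rw [Finset.mem_range]
    exact Nat.log_lt_of_lt_pow (by omega) (by omega)
  rw [← Finset.sum_fiberwise_of_maps_to hmap F]
  refine Finset.sum_congr rfl (fun i _ => Finset.sum_congr ?_ (fun _ _ => rfl))
  unfold SL
  refine Finset.filter_congr (fun p hp => ?_)
  have hp2 := (hS p hp).1.two_le
  rw [Nat.log_eq_iff (Or.inr ⟨by norm_num, by omega⟩)]
  constructor <;> intro h <;> constructor <;> omega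

private theorem r3_di (S : Finset ℕ) (i q : ℕ) (hq : q ∈ SL S i) : di q = i := by
  unfold SL at hq
  rw [Finset.mem_filter] at hq
  have h0 : 1 ≤ 2 ^ i := Nat.one_le_two_pow
  unfold di
  rw [Nat.log_eq_iff (Or.inr ⟨by norm_num, by omega⟩)]
  constructor <;> omega

private theorem r3_dy (f : ℕ → ℝ) (n : ℕ) :
    ∑ j ∈ range n, ∑ m ∈ Ico (2 ^ j) (2 * 2 ^ j), f m = ∑ m ∈ Ico 1 (2 ^ n), f m := by
  induction n with
  | zero => simp
  | succ n ih =>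
    rw [Finset.sum_range_succ, ih, pow_succ, mul_comm (2 ^ n) 2]
    exact Finset.sum_Ico_consecutive f Nat.one_le_two_pow (by omega)

private theorem r3_sqf (s : Finset ℕ) (hs : ∀ p ∈ s, p.Prime) : Squarefree (∏ p ∈ s, p) := by
  classical
  induction s using Finset.induction_on with
  | empty => simp
  | insert a s ha ih =>
    rw [Finset.prod_insert ha]
    have h1 : a.Prime := hs a (Finset.mem_insert_self a s)
    have h2 : ∀ p ∈ s, p.Prime := fun p hp => hs p (Finset.mem_insert_of_mem hp)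
    have h3 : Nat.Coprime a (∏ p ∈ s, p) := by
      refine Nat.Coprime.prod_right (fun p hp => ?_)
      refine (Nat.coprime_primes h1 (h2 p hp)).mpr (fun h => ?_)
      rw [h] at ha
      exact ha hp
    exact (Nat.squarefree_mul h3).mpr ⟨h1.squarefree, ih h2⟩

/-- the numbers in the support of `aL` are at most `U ^ (k - 2)` -/
private theorem r3_le (k U i m : ℕ) (hm : aL k U i m ≠ 0) : m ≤ U ^ (k - 2) := by
  unfold aL at hm
  split_ifs at hm with h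
  · obtain ⟨h1, h2, h3⟩ := h
    rw [← Nat.prod_primeFactors_of_squarefree h1, ← h2]
    refine Finset.prod_le_pow_card _ _ _ (fun p hp => ?_)
    have h4 := h3 hp
    unfold PP at h4
    rw [Finset.mem_filter, Finset.mem_Ioc] at h4
    exact h4.1.2
  · exact absurd rfl hm

private theorem r3_nonneg (k U i m : ℕ) : 0 ≤ aL k U i m := by
  unfold aL
  split_ifs with h
  · exact zero_le_one
  · exact le_rfl

private theorem r3_esy (k U i n : ℕ) (hw : U ^ (k - 2) < 2 ^ n) :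
    ∑ m ∈ Ico 1 (2 ^ n), aL k U i m / m = esy (k - 2) (2 ^ (i + 1)) U := by
  classical
  have hpr : ∀ s ∈ (PP (2 ^ (i + 1)) U).powersetCard (k - 2), ∀ p ∈ s, p.Prime ∧ p ≤ U := by
    intro s hs p hp
    have h1 := (Finset.mem_powersetCard.mp hs).1 hp
    unfold PP at h1
    rw [Finset.mem_filter, Finset.mem_Ioc] at h1
    exact ⟨h1.2, h1.1.2⟩
  have hsub : ((PP (2 ^ (i + 1)) U).powersetCard (k - 2)).image (fun s => ∏ p ∈ s, p) ⊆ Ico 1 (2 ^ n) := by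
    intro m hm
    rw [Finset.mem_image] at hm
    obtain ⟨s, hs, rfl⟩ := hm
    rw [Finset.mem_Ico]
    constructor
    · exact Nat.one_le_iff_ne_zero.mpr
        (Finset.prod_ne_zero_iff.mpr (fun p hp => (hpr s hs p hp).1.ne_zero))
    · have h2 := Finset.prod_le_pow_card s (fun p => p) U (fun p hp => (hpr s hs p hp).2)
      rw [(Finset.mem_powersetCard.mp hs).2] at h2
      exact lt_of_le_of_lt h2 hw
  rw [← Finset.sum_subset hsub (fun m _ hm => ?_)]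
  · rw [Finset.sum_image]
    · unfold esy
      refine Finset.sum_congr rfl (fun s hs => ?_)
      have h1 : aL k U i (∏ p ∈ s, p) = 1 := by
        unfold aL
        have h2 : (∏ p ∈ s, p).primeFactors = s :=
          Nat.primeFactors_prod (fun p hp => (hpr s hs p hp).1)
        rw [if_pos ⟨r3_sqf s (fun p hp => (hpr s hs p hp).1), by
          rw [h2]; exact (Finset.mem_powersetCard.mp hs).2, by
          rw [h2]; exact (Finset.mem_powersetCard.mp hs).1⟩]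
      rw [h1, Finset.prod_div_distrib, Finset.prod_const_one, Nat.cast_prod]
    · intro s hs t ht hst
      have h1 := Nat.primeFactors_prod (fun p hp => (hpr s hs p hp).1)
      have h2 := Nat.primeFactors_prod (fun p hp => (hpr t ht p hp).1)
      rw [← h1, ← h2]
      exact congrArg Nat.primeFactors hst
  · have h0 : aL k U i m = 0 := by
      unfold aL
      rw [if_neg]
      rintro ⟨h1, h2, h3⟩
      exact hm (Finset.mem_image.mpr ⟨m.primeFactors, Finset.mem_powersetCard.mpr ⟨h3, h2⟩,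
        Nat.prod_primeFactors_of_squarefree h1⟩)
    rw [h0, zero_div]

/-- the number of `n < N` in the intervals of one `q` -/
private theorem r3_cnt (Y N i j q e : ℕ) (δ : ℝ) (hδ : 0 < δ) (hq0 : 0 < q)
    (hq1 : 2 ^ i * 2 ^ j ≤ q) (hq2 : q ≤ 4 * (2 ^ i * 2 ^ j)) (hqδ : (q : ℝ) ≤ δ * Y)
    (h8 : 8 * ((Y : ℝ) / (Real.log Y) ^ e) ≤ δ * Y) (hN : Y < N) :
    (1 - δ) * Y ≤ ∑ g ∈ (range (Nat.log 2 Y + 1)).filter (fun g =>
        (Y : ℝ) / (Real.log Y) ^ e ≤ ((2 ^ i * 2 ^ j * 2 ^ g : ℕ) : ℝ) ∧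
          2 ^ i * 2 ^ j * 2 ^ g ≤ Y),
        (((Ioc (q * 2 ^ g) (2 * (q * 2 ^ g))).filter fun n => n < N).card : ℝ) ∧
      ∑ g ∈ (range (Nat.log 2 Y + 1)).filter (fun g =>
        (Y : ℝ) / (Real.log Y) ^ e ≤ ((2 ^ i * 2 ^ j * 2 ^ g : ℕ) : ℝ) ∧
          2 ^ i * 2 ^ j * 2 ^ g ≤ Y),
        (((Ioc (q * 2 ^ g) (2 * (q * 2 ^ g))).filter fun n => n < N).card : ℝ) ≤ N := by
  classical
  obtain ⟨G, hG⟩ : ∃ G : Finset ℕ, G = (range (Nat.log 2 Y + 1)).filter (fun g =>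
        (Y : ℝ) / (Real.log Y) ^ e ≤ ((2 ^ i * 2 ^ j * 2 ^ g : ℕ) : ℝ) ∧
          2 ^ i * 2 ^ j * 2 ^ g ≤ Y) := ⟨_, rfl⟩
  rw [← hG]
  have hdis : (G : Set ℕ).PairwiseDisjoint
      (fun g => (Ioc (q * 2 ^ g) (2 * (q * 2 ^ g))).filter fun n => n < N) := by
    have key : ∀ g g' : ℕ, g < g' → Disjoint
        ((Ioc (q * 2 ^ g) (2 * (q * 2 ^ g))).filter fun n => n < N)
        ((Ioc (q * 2 ^ g') (2 * (q * 2 ^ g'))).filter fun n => n < N) := by
      intro g g' hgg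
      rw [Finset.disjoint_left]
      intro n h1 h2
      rw [Finset.mem_filter, Finset.mem_Ioc] at h1 h2
      have h3 : q * 2 ^ (g + 1) ≤ q * 2 ^ g' :=
        Nat.mul_le_mul_left q (Nat.pow_le_pow_right (by norm_num) hgg)
      rw [pow_succ] at h3
      have h4 : q * (2 ^ g * 2) = 2 * (q * 2 ^ g) := by ring
      omega
    intro g _ g' _ hne
    rcases Nat.lt_or_gt_of_ne hne with h | h
    · exact key g g' h
    · exact (key g' g h).symm
  have hsum : ∑ g ∈ G, (((Ioc (q * 2 ^ g) (2 * (q * 2 ^ g))).filter fun n => n < N).card : ℝ) =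
      ((G.biUnion (fun g => (Ioc (q * 2 ^ g) (2 * (q * 2 ^ g))).filter fun n => n < N)).card :
        ℝ) := by
    rw [Finset.card_biUnion (fun g hg g' hg' hne => hdis hg hg' hne)]
    push_cast
    rfl
  rw [hsum]
  constructor
  · have hsub : Ioc ⌊δ * Y⌋₊ Y ⊆ G.biUnion
        (fun g => (Ioc (q * 2 ^ g) (2 * (q * 2 ^ g))).filter fun n => n < N) := by
      intro n hn
      rw [Finset.mem_Ioc] at hn
      have hn1 : δ * Y < (n : ℝ) := Nat.lt_of_floor_lt hn.1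
      have hqn : q < n := by
        have : (q : ℝ) < (n : ℝ) := lt_of_le_of_lt hqδ hn1
        exact_mod_cast this
      have hdiv : (n - 1) / q ≠ 0 := by
        have : 1 ≤ (n - 1) / q := (Nat.one_le_div_iff hq0).mpr (by omega)
        omega
      obtain ⟨g, hg⟩ : ∃ g, g = Nat.log 2 ((n - 1) / q) := ⟨_, rfl⟩
      have hg1 : 2 ^ g ≤ (n - 1) / q := by
        rw [hg]
        exact Nat.pow_log_le_self 2 hdiv
      have hg2 : (n - 1) / q < 2 ^ (g + 1) := by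
        rw [hg]
        exact Nat.lt_pow_succ_log_self (by norm_num) _
      have hg3 : 2 ^ g * q ≤ n - 1 := (Nat.le_div_iff_mul_le hq0).mp hg1
      have hg4 : n - 1 < 2 ^ (g + 1) * q := (Nat.div_lt_iff_lt_mul hq0).mp hg2
      have hg5 : 2 ^ (g + 1) * q = 2 * (q * 2 ^ g) := by rw [pow_succ]; ring
      have hg6 : 2 ^ g * q = q * 2 ^ g := mul_comm _ _
      have hgI : q * 2 ^ g < n ∧ n ≤ 2 * (q * 2 ^ g) := by omega
      have hle : 2 ^ i * 2 ^ j * 2 ^ g ≤ Y := by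
        have h1 : 2 ^ i * 2 ^ j * 2 ^ g ≤ q * 2 ^ g := Nat.mul_le_mul_right _ hq1
        omega
      have hgL : g < Nat.log 2 Y + 1 := by
        have h1 : 2 ^ g ≤ Y := by
          have h2 : 1 * 2 ^ g ≤ 2 ^ i * 2 ^ j * 2 ^ g :=
            Nat.mul_le_mul_right _ (Nat.one_le_iff_ne_zero.mpr (by positivity))
          omega
        exact Nat.lt_succ_of_le (Nat.le_log_of_pow_le (by norm_num) h1)
      have hge : (Y : ℝ) / (Real.log Y) ^ e ≤ ((2 ^ i * 2 ^ j * 2 ^ g : ℕ) : ℝ) := by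
        have h1 : q * 2 ^ g ≤ 4 * (2 ^ i * 2 ^ j) * 2 ^ g := Nat.mul_le_mul_right _ hq2
        have h2 : 4 * (2 ^ i * 2 ^ j) * 2 ^ g = 4 * (2 ^ i * 2 ^ j * 2 ^ g) := by ring
        have h3 : n ≤ 8 * (2 ^ i * 2 ^ j * 2 ^ g) := by omega
        have h4 : (n : ℝ) ≤ 8 * ((2 ^ i * 2 ^ j * 2 ^ g : ℕ) : ℝ) := by exact_mod_cast h3
        linarith
      rw [Finset.mem_biUnion]
      refine ⟨g, ?_, ?_⟩
      · rw [hG, Finset.mem_filter, Finset.mem_range]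
        exact ⟨hgL, hge, hle⟩
      · rw [Finset.mem_filter, Finset.mem_Ioc]
        exact ⟨hgI, by omega⟩
    have h1 := Finset.card_le_card hsub
    rw [Nat.card_Ioc] at h1
    have h2 : ((Y - ⌊δ * Y⌋₊ : ℕ) : ℝ) ≤ ((G.biUnion
        (fun g => (Ioc (q * 2 ^ g) (2 * (q * 2 ^ g))).filter fun n => n < N)).card : ℝ) := by
      exact_mod_cast h1
    have h3 : (Y : ℝ) - (⌊δ * Y⌋₊ : ℝ) ≤ ((Y - ⌊δ * Y⌋₊ : ℕ) : ℝ) := by
      rw [sub_le_iff_le_add]
      exact_mod_cast (by omega : Y ≤ Y - ⌊δ * Y⌋₊ + ⌊δ * Y⌋₊)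
    have h4 : (⌊δ * Y⌋₊ : ℝ) ≤ δ * Y := Nat.floor_le (by positivity)
    linarith
  · have hsub : G.biUnion
        (fun g => (Ioc (q * 2 ^ g) (2 * (q * 2 ^ g))).filter fun n => n < N) ⊆ range N := by
      intro n hn
      rw [Finset.mem_biUnion] at hn
      obtain ⟨g, _, hg⟩ := hn
      rw [Finset.mem_filter] at hg
      exact Finset.mem_range.mpr hg.2
    have h1 := Finset.card_le_card hsub
    rw [Finset.card_range] at h1
    exact_mod_cast h1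

private theorem r3_W (Y N i j q e : ℕ) (δ : ℝ) (hδ : 0 < δ) (hδ1 : δ ≤ 1 / 4) (hq0 : 0 < q)
    (hY : 0 < Y) (hL : 0 < Real.log Y)
    (hq1 : 2 ^ i * 2 ^ j ≤ q) (hq2 : q ≤ 4 * (2 ^ i * 2 ^ j)) (hqδ : (q : ℝ) ≤ δ * Y)
    (h8 : 8 * ((Y : ℝ) / (Real.log Y) ^ e) ≤ δ * Y) (hN : Y < N) (hN2 : (N : ℝ) ≤ (1 + δ) * Y)
    (hwt : ∀ g : ℕ, (Y : ℝ) / (Real.log Y) ^ e ≤ ((2 ^ i * 2 ^ j * 2 ^ g : ℕ) : ℝ) →
      2 ^ i * 2 ^ j * 2 ^ g ≤ Y → (1 - δ) * Real.log Y ≤ Real.log ((2 * 2 ^ g : ℕ) : ℝ) ∧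
        Real.log ((2 * 2 ^ g : ℕ) : ℝ) ≤ (1 + δ) * Real.log Y) :
    |∑ g ∈ (range (Nat.log 2 Y + 1)).filter (fun g =>
        (Y : ℝ) / (Real.log Y) ^ e ≤ ((2 ^ i * 2 ^ j * 2 ^ g : ℕ) : ℝ) ∧
          2 ^ i * 2 ^ j * 2 ^ g ≤ Y),
        (((Ioc (q * 2 ^ g) (2 * (q * 2 ^ g))).filter fun n => n < N).card : ℝ) /
          Real.log ((2 * 2 ^ g : ℕ) : ℝ) - Y / Real.log Y| ≤ 4 * δ * (Y / Real.log Y) := by
  obtain ⟨h1, h2⟩ := r3_cnt Y N i j q e δ hδ hq0 hq1 hq2 hqδ h8 hN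
  have hYr : (0 : ℝ) < (Y : ℝ) := by exact_mod_cast hY
  have hup : 0 < (1 - δ) * Real.log Y := mul_pos (by linarith) hL
  have hlo : 0 < (1 + δ) * Real.log Y := mul_pos (by linarith) hL
  have hYL : 0 < (Y : ℝ) / Real.log Y := div_pos hYr hL
  have hA : ∑ g ∈ (range (Nat.log 2 Y + 1)).filter (fun g =>
        (Y : ℝ) / (Real.log Y) ^ e ≤ ((2 ^ i * 2 ^ j * 2 ^ g : ℕ) : ℝ) ∧
          2 ^ i * 2 ^ j * 2 ^ g ≤ Y),
        (((Ioc (q * 2 ^ g) (2 * (q * 2 ^ g))).filter fun n => n < N).card : ℝ) /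
          Real.log ((2 * 2 ^ g : ℕ) : ℝ) ≤ (1 + 4 * δ) * (Y / Real.log Y) := by
    refine (Finset.sum_le_sum (fun g hg => ?_)).trans (b := ∑ g ∈ (range
      (Nat.log 2 Y + 1)).filter (fun g =>
        (Y : ℝ) / (Real.log Y) ^ e ≤ ((2 ^ i * 2 ^ j * 2 ^ g : ℕ) : ℝ) ∧
          2 ^ i * 2 ^ j * 2 ^ g ≤ Y),
        (((Ioc (q * 2 ^ g) (2 * (q * 2 ^ g))).filter fun n => n < N).card : ℝ) /
          ((1 - δ) * Real.log Y)) ?_
    · rw [Finset.mem_filter] at hg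
      exact div_le_div_of_nonneg_left (Nat.cast_nonneg _) hup (hwt g hg.2.1 hg.2.2).1
    · rw [← Finset.sum_div, div_le_iff₀ hup]
      have h3 : (1 + 4 * δ) * ((Y : ℝ) / Real.log Y) * ((1 - δ) * Real.log Y) =
          (1 + 4 * δ) * (1 - δ) * Y := by
        field_simp
      rw [h3]
      refine h2.trans (hN2.trans ?_)
      have h4 : 1 + δ ≤ (1 + 4 * δ) * (1 - δ) := by nlinarith
      exact mul_le_mul_of_nonneg_right h4 hYr.le
  have hB : (1 - 4 * δ) * (Y / Real.log Y) ≤ ∑ g ∈ (range (Nat.log 2 Y + 1)).filter (fun g =>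
        (Y : ℝ) / (Real.log Y) ^ e ≤ ((2 ^ i * 2 ^ j * 2 ^ g : ℕ) : ℝ) ∧
          2 ^ i * 2 ^ j * 2 ^ g ≤ Y),
        (((Ioc (q * 2 ^ g) (2 * (q * 2 ^ g))).filter fun n => n < N).card : ℝ) /
          Real.log ((2 * 2 ^ g : ℕ) : ℝ) := by
    refine le_trans (b := ∑ g ∈ (range
      (Nat.log 2 Y + 1)).filter (fun g =>
        (Y : ℝ) / (Real.log Y) ^ e ≤ ((2 ^ i * 2 ^ j * 2 ^ g : ℕ) : ℝ) ∧
          2 ^ i * 2 ^ j * 2 ^ g ≤ Y),
        (((Ioc (q * 2 ^ g) (2 * (q * 2 ^ g))).filter fun n => n < N).card : ℝ) /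
          ((1 + δ) * Real.log Y)) ?_ (Finset.sum_le_sum (fun g hg => ?_))
    · rw [← Finset.sum_div, le_div_iff₀ hlo]
      have h3 : (1 - 4 * δ) * ((Y : ℝ) / Real.log Y) * ((1 + δ) * Real.log Y) =
          (1 - 4 * δ) * (1 + δ) * Y := by
        field_simp
      rw [h3]
      refine le_trans ?_ h1
      have h4 : (1 - 4 * δ) * (1 + δ) ≤ 1 - δ := by nlinarith
      exact mul_le_mul_of_nonneg_right h4 hYr.le
    · rw [Finset.mem_filter] at hg
      have h5 := (hwt g hg.2.1 hg.2.2)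
      exact div_le_div_of_nonneg_left (Nat.cast_nonneg _) (lt_of_lt_of_le hup h5.1) h5.2
  rw [abs_le]
  constructor <;> linarith

/-- the conditions on large `y` -/
private theorem r3_large (e d D : ℕ) (δ : ℝ) (hδ : 0 < δ) : ∃ x0 : ℝ, ∀ y : ℝ, x0 ≤ y →
    1 ≤ Real.log y ∧ 8 ≤ δ * Real.log y ∧ (Real.log y) ^ D ≤ δ * y ∧ (Real.log y) ^ d ≤ y ∧
      ((e + D : ℕ) : ℝ) * Real.log (Real.log y) + Real.log 2 ≤ δ * Real.log y ∧
      Real.sqrt y ≤ δ * y ∧ 1 ≤ y := by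
  have h1 : ∀ᶠ y : ℝ in Filter.atTop, 1 ≤ Real.log y :=
    Real.tendsto_log_atTop.eventually_ge_atTop 1
  have h2 : ∀ᶠ y : ℝ in Filter.atTop, 8 / δ ≤ Real.log y :=
    Real.tendsto_log_atTop.eventually_ge_atTop (8 / δ)
  have h3 : ∀ᶠ y : ℝ in Filter.atTop, ‖(Real.log y) ^ D‖ ≤ δ * ‖id y‖ :=
    (Real.isLittleO_pow_log_id_atTop (n := D)).bound hδ
  have h4 : ∀ᶠ y : ℝ in Filter.atTop, ‖(Real.log y) ^ d‖ ≤ 1 * ‖id y‖ :=
    (Real.isLittleO_pow_log_id_atTop (n := d)).bound one_pos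
  have h5 : ∀ᶠ y : ℝ in Filter.atTop,
      ((e + D : ℕ) : ℝ) * Real.log (Real.log y) + Real.log 2 ≤ δ * Real.log y := by
    have h6 : (fun x : ℝ => ((e + D : ℕ) : ℝ) * Real.log x + Real.log 2) =o[Filter.atTop]
        (id : ℝ → ℝ) :=
      (Real.isLittleO_log_id_atTop.const_mul_left _).add
        (Asymptotics.isLittleO_const_id_atTop (Real.log 2))
    have h7 := h6.bound hδ
    have h8 := Real.tendsto_log_atTop.eventually h7
    filter_upwards [h8, h1] with y hy hy1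
    have h9 := (le_abs_self _).trans (by simpa only [Real.norm_eq_abs] using hy)
    have h10 : |id (Real.log y)| = Real.log y := abs_of_nonneg (by simpa using le_trans zero_le_one hy1)
    rw [h10] at h9
    exact h9
  have h6 : ∀ᶠ y : ℝ in Filter.atTop, max 1 ((1 / δ) ^ 2) ≤ y := Filter.eventually_ge_atTop _
  obtain ⟨x0, hx0⟩ := Filter.eventually_atTop.mp (h1.and (h2.and (h3.and (h4.and (h5.and h6)))))
  refine ⟨x0, fun y hy => ?_⟩
  obtain ⟨a1, a2, a3, a4, a5, a6⟩ := hx0 y hy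
  have hy1 : 1 ≤ y := le_trans (le_max_left _ _) a6
  have hy0 : 0 < y := by linarith
  refine ⟨a1, ?_, ?_, ?_, a5, ?_, hy1⟩
  · rw [div_le_iff₀ hδ] at a2
    linarith
  · have h7 := (le_abs_self _).trans (by simpa only [Real.norm_eq_abs] using a3)
    have h8 : |id y| = y := abs_of_nonneg hy0.le
    rw [h8] at h7
    exact h7
  · have h7 := (le_abs_self _).trans (by simpa only [Real.norm_eq_abs] using a4)
    have h8 : |id y| = y := abs_of_nonneg hy0.le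
    rw [h8, one_mul] at h7
    exact h7
  · have h7 : 1 / δ ≤ Real.sqrt y := Real.le_sqrt_of_sq_le (le_trans (le_max_right _ _) a6)
    have h8 : Real.sqrt y * Real.sqrt y = y := Real.mul_self_sqrt hy0.le
    rw [div_le_iff₀ hδ] at h7
    have h9 : 0 ≤ Real.sqrt y := Real.sqrt_nonneg y
    calc Real.sqrt y = 1 * Real.sqrt y := (one_mul _).symm
      _ ≤ (Real.sqrt y * δ) * Real.sqrt y := mul_le_mul_of_nonneg_right h7 h9
      _ = δ * (Real.sqrt y * Real.sqrt y) := by ring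
      _ = δ * y := by rw [h8]

theorem l3 (k e c1 : ℕ) (hk : 2 ≤ k) (he : 1 ≤ e) (ε : ℝ) (hε : 0 < ε) : ∃ (M : ℕ) (x0 : ℝ), ∀ Y : ℕ, x0 ≤ Y →
    ∀ (U w' : ℕ) (S : Finset ℕ), RgL Y U w' c1 M S → ∀ N : ℕ, Y < N → (N : ℝ) ≤ Y + Real.sqrt Y →
      |∑ b ∈ IL Y e k U S, DL k U S b N - Y / Real.log Y * sL k U S| ≤ ε * (Y / Real.log Y * sL k U S) := by
  classical
  obtain ⟨δ, hδ, hδ1, hδε⟩ : ∃ δ : ℝ, 0 < δ ∧ δ ≤ 1 / 4 ∧ 4 * δ ≤ ε :=
    ⟨min (1 / 4) (ε / 4), lt_min (by norm_num) (by positivity), min_le_left _ _, by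
      have := min_le_right (1 / 4 : ℝ) (ε / 4)
      linarith⟩
  obtain ⟨x0, hx0⟩ := r3_large e 0 0 (δ / 2) (by positivity)
  obtain ⟨m0, hm0, hm2⟩ : ∃ m0 : ℕ, 2 / δ ≤ (m0 : ℝ) ∧ 2 ≤ m0 :=
    ⟨⌈2 / δ⌉₊ + 2, by
      push_cast
      have := Nat.le_ceil (2 / δ)
      linarith, by omega⟩
  refine ⟨(k - 1) * m0, x0, fun Y hY U w' S hR N hN hN2 => ?_⟩
  rcases S.eq_empty_or_nonempty with hSe | hSn
  · subst hSe
    have h1 : IL Y e k U ∅ = ∅ := by
      unfold IL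
      refine Finset.filter_eq_empty_iff.mpr (fun b _ h => ?_)
      obtain ⟨q, hq⟩ := h.1
      unfold SL at hq
      rw [Finset.mem_filter] at hq
      exact absurd hq.1 (Finset.notMem_empty q)
    rw [h1]
    unfold sL
    simp
  obtain ⟨a1, a2', -, -, a5, a6', a7⟩ := hx0 Y hY
  have hY0' : (0 : ℝ) < (Y : ℝ) := by linarith
  have a2 : 8 ≤ δ * Real.log Y := by nlinarith
  have a6 : Real.sqrt Y ≤ δ * Y := by nlinarith
  have hY0 : (0 : ℝ) < (Y : ℝ) := by linarith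
  have hYn : 0 < Y := by exact_mod_cast hY0
  have hL : 0 < Real.log Y := by linarith
  have hYL : 0 < (Y : ℝ) / Real.log Y := div_pos hY0 hL
  -- `U`
  obtain ⟨q0, hq0S⟩ := hSn
  have hw1 : 1 ≤ U := by
    have h1 := (hR.hS q0 hq0S).1.one_lt
    have h2 := (hR.hS q0 hq0S).2.2
    have h3 := hR.h2
    omega
  have hwU : w' ≤ U := by
    have h3 := hR.h2
    omega
  have hwm : (U ^ (k - 1)) ^ m0 ≤ Y := by
    rw [← pow_mul]
    exact hR.h3
  have hwD : Real.log ((U ^ (k - 1) : ℕ) : ℝ) ≤ δ / 2 * Real.log Y := by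
    have h1 : (((U ^ (k - 1) : ℕ) : ℝ)) ^ m0 ≤ (Y : ℝ) := by exact_mod_cast hwm
    have h2 : (0 : ℝ) < ((U ^ (k - 1) : ℕ) : ℝ) := by
      have : 0 < U ^ (k - 1) := Nat.pow_pos hw1
      exact_mod_cast this
    have h3 := Real.log_le_log (pow_pos h2 m0) h1
    rw [Real.log_pow] at h3
    have h4 : 0 ≤ Real.log ((U ^ (k - 1) : ℕ) : ℝ) := Real.log_natCast_nonneg _
    have h5 := mul_le_mul_of_nonneg_right hm0 h4
    have h6 : 2 / δ * Real.log ((U ^ (k - 1) : ℕ) : ℝ) ≤ Real.log Y := h5.trans h3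
    have h7 := mul_le_mul_of_nonneg_left h6 (half_pos hδ).le
    calc Real.log ((U ^ (k - 1) : ℕ) : ℝ) =
        δ / 2 * (2 / δ * Real.log ((U ^ (k - 1) : ℕ) : ℝ)) := by field_simp
      _ ≤ δ / 2 * Real.log Y := h7
  have hwδ : ((U ^ (k - 1) : ℕ) : ℝ) ≤ δ * Y := by
    refine le_trans (Real.le_sqrt_of_sq_le ?_) a6
    have h1 : 1 ≤ U ^ (k - 1) := Nat.one_le_iff_ne_zero.mpr (Nat.pow_pos hw1).ne'
    have h2 : (U ^ (k - 1)) ^ 2 ≤ (U ^ (k - 1)) ^ m0 := Nat.pow_le_pow_right h1 hm2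
    exact_mod_cast h2.trans hwm
  have hwY : U ^ (k - 1) ≤ Y := by
    have h1 : δ * (Y : ℝ) ≤ 1 * Y := mul_le_mul_of_nonneg_right (by linarith) hY0.le
    have h2 : ((U ^ (k - 1) : ℕ) : ℝ) ≤ (Y : ℝ) := by linarith
    exact_mod_cast h2
  have hYlt : Y < 2 ^ (Nat.log 2 Y + 1) := Nat.lt_pow_succ_log_self (by norm_num) Y
  have hw'1 : w' < 2 ^ (Nat.log 2 Y + 1) := by
    have h1 : U ^ 1 ≤ U ^ (k - 1) := Nat.pow_le_pow_right hw1 (by omega)
    rw [pow_one] at h1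
    omega
  have hw'2 : U ^ (k - 2) < 2 ^ (Nat.log 2 Y + 1) := by
    have h1 : U ^ (k - 2) ≤ U ^ (k - 1) := Nat.pow_le_pow_right hw1 (by omega)
    omega
  have h8 : 8 * ((Y : ℝ) / (Real.log Y) ^ e) ≤ δ * Y := by
    have h1 : Real.log Y ≤ (Real.log Y) ^ e := le_self_pow₀ a1 (by omega)
    have h2 : 0 < (Real.log Y) ^ e := by positivity
    rw [mul_div_assoc', div_le_iff₀ h2]
    have h3 : (8 : ℝ) ≤ δ * (Real.log Y) ^ e := by
      have := mul_le_mul_of_nonneg_left h1 hδ.le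
      linarith
    have h4 := mul_le_mul_of_nonneg_left h3 hY0.le
    linarith [mul_comm (Y : ℝ) (8 : ℝ), mul_assoc (Y : ℝ) δ ((Real.log Y) ^ e)]
  have hN3 : (N : ℝ) ≤ (1 + δ) * Y := by linarith
  -- the sum of the blocks
  have hDB : ∀ i j g : ℕ, (if ((SL S i).Nonempty ∧ 2 ^ j ≤ U ^ (k - 2) ∧
      (Y : ℝ) / (Real.log Y) ^ e ≤ ((2 ^ i * 2 ^ j * 2 ^ g : ℕ) : ℝ) ∧
        2 ^ i * 2 ^ j * 2 ^ g ≤ Y) then DL k U S (i, j, g) N else 0) =
      ∑ p ∈ SL S i, ∑ m ∈ Ico (2 ^ j) (2 * 2 ^ j), aL k U i m / ((p : ℝ) * m) *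
        (if ((Y : ℝ) / (Real.log Y) ^ e ≤ ((2 ^ i * 2 ^ j * 2 ^ g : ℕ) : ℝ) ∧
          2 ^ i * 2 ^ j * 2 ^ g ≤ Y) then
          (((Ioc (p * m * 2 ^ g) (2 * (p * m * 2 ^ g))).filter fun n => n < N).card : ℝ) /
            Real.log ((2 * 2 ^ g : ℕ) : ℝ) else 0) := by
    intro i j g
    by_cases hc : (Y : ℝ) / (Real.log Y) ^ e ≤ ((2 ^ i * 2 ^ j * 2 ^ g : ℕ) : ℝ) ∧
        2 ^ i * 2 ^ j * 2 ^ g ≤ Y
    · by_cases hs : (SL S i).Nonempty ∧ 2 ^ j ≤ U ^ (k - 2)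
      · rw [if_pos ⟨hs.1, hs.2, hc⟩]
        unfold DL DD
        refine Finset.sum_congr rfl (fun p _ => Finset.sum_congr rfl (fun m _ => ?_))
        rw [if_pos hc, div_mul_eq_mul_div, div_mul_div_comm]
      · rw [if_neg (fun h => hs ⟨h.1, h.2.1⟩)]
        symm
        refine Finset.sum_eq_zero (fun p hp => Finset.sum_eq_zero (fun m hm => ?_))
        have h0 : aL k U i m = 0 := by
          by_contra hne
          have h1 := r3_le k U i m hne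
          rw [Finset.mem_Ico] at hm
          exact hs ⟨⟨p, hp⟩, hm.1.trans h1⟩
        rw [h0, zero_div, zero_mul]
    · rw [if_neg (fun h => hc h.2.2)]
      symm
      refine Finset.sum_eq_zero (fun p _ => Finset.sum_eq_zero (fun m _ => ?_))
      rw [if_neg hc, mul_zero]
  have hsum : ∑ b ∈ IL Y e k U S, DL k U S b N =
      ∑ i ∈ range (Nat.log 2 Y + 1), ∑ j ∈ range (Nat.log 2 Y + 1), ∑ p ∈ SL S i,
        ∑ m ∈ Ico (2 ^ j) (2 * 2 ^ j), aL k U i m / ((p : ℝ) * m) *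
          ∑ g ∈ (range (Nat.log 2 Y + 1)).filter (fun g =>
            (Y : ℝ) / (Real.log Y) ^ e ≤ ((2 ^ i * 2 ^ j * 2 ^ g : ℕ) : ℝ) ∧
              2 ^ i * 2 ^ j * 2 ^ g ≤ Y),
            (((Ioc (p * m * 2 ^ g) (2 * (p * m * 2 ^ g))).filter fun n => n < N).card : ℝ) /
              Real.log ((2 * 2 ^ g : ℕ) : ℝ) := by
    unfold IL
    rw [Finset.sum_filter, Finset.sum_product]
    refine Finset.sum_congr rfl (fun i _ => ?_)
    rw [Finset.sum_product]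
    refine Finset.sum_congr rfl (fun j _ => ?_)
    rw [Finset.sum_congr rfl (fun g _ => hDB i j g), Finset.sum_comm]
    refine Finset.sum_congr rfl (fun p _ => ?_)
    rw [Finset.sum_comm]
    refine Finset.sum_congr rfl (fun m _ => ?_)
    rw [← Finset.mul_sum, Finset.sum_filter]
  have hS4 : ∑ i ∈ range (Nat.log 2 Y + 1), ∑ j ∈ range (Nat.log 2 Y + 1), ∑ p ∈ SL S i,
        ∑ m ∈ Ico (2 ^ j) (2 * 2 ^ j), aL k U i m / ((p : ℝ) * m) = sL k U S := by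
    unfold sL
    rw [← r3_sg1 S (fun q => 1 / (q : ℝ) * esy (k - 2) (2 ^ (di q + 1)) U) (Nat.log 2 Y)
      (fun q hq => ⟨(hR.hS q hq).1, lt_of_le_of_lt (hR.hS q hq).2.2 hw'1⟩)]
    refine Finset.sum_congr rfl (fun i _ => ?_)
    rw [Finset.sum_comm]
    refine Finset.sum_congr rfl (fun p hp => ?_)
    rw [r3_di S i p hp, ← r3_esy k U i (Nat.log 2 Y + 1) hw'2, ← r3_dy, Finset.mul_sum]
    refine Finset.sum_congr rfl (fun j _ => ?_)
    rw [Finset.mul_sum]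
    refine Finset.sum_congr rfl (fun m _ => ?_)
    rw [div_mul_div_comm, one_mul]
  -- the bound for one pair `p`, `m`
  have hpm : ∀ i ∈ range (Nat.log 2 Y + 1), ∀ j ∈ range (Nat.log 2 Y + 1), ∀ p ∈ SL S i,
      ∀ m ∈ Ico (2 ^ j) (2 * 2 ^ j),
      |aL k U i m / ((p : ℝ) * m) *
          ∑ g ∈ (range (Nat.log 2 Y + 1)).filter (fun g =>
            (Y : ℝ) / (Real.log Y) ^ e ≤ ((2 ^ i * 2 ^ j * 2 ^ g : ℕ) : ℝ) ∧
              2 ^ i * 2 ^ j * 2 ^ g ≤ Y),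
            (((Ioc (p * m * 2 ^ g) (2 * (p * m * 2 ^ g))).filter fun n => n < N).card : ℝ) /
              Real.log ((2 * 2 ^ g : ℕ) : ℝ) - Y / Real.log Y * (aL k U i m / ((p : ℝ) * m))| ≤
        4 * δ * (Y / Real.log Y * (aL k U i m / ((p : ℝ) * m))) := by
    intro i _ j _ p hp m hm
    rw [Finset.mem_Ico] at hm
    by_cases ha : aL k U i m = 0
    · rw [ha]
      simp
    unfold SL at hp
    rw [Finset.mem_filter] at hp
    have hpP := hR.hS p hp.1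
    have hm1 := r3_le k U i m ha
    have hq0 : 0 < p * m := by
      have h1 : 0 < p := hpP.1.pos
      have h2 : 0 < 2 ^ j := by positivity
      exact Nat.mul_pos h1 (by omega)
    have hq1 : 2 ^ i * 2 ^ j ≤ p * m := Nat.mul_le_mul hp.2.1.le hm.1
    have hq2 : p * m ≤ 4 * (2 ^ i * 2 ^ j) := by
      have h1 := Nat.mul_le_mul hp.2.2 hm.2.le
      have h2 : 2 ^ (i + 1) * (2 * 2 ^ j) = 4 * (2 ^ i * 2 ^ j) := by rw [pow_succ]; ring
      omega
    have hqw : p * m ≤ U ^ (k - 1) := by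
      have h1 := Nat.mul_le_mul (hpP.2.2.trans hwU) hm1
      have h2 : U * U ^ (k - 2) = U ^ (k - 1) := by
        have h3 : k - 2 + 1 = k - 1 := by omega
        rw [← pow_succ', h3]
      omega
    have hqδ : ((p * m : ℕ) : ℝ) ≤ δ * Y := by
      have h1 : ((p * m : ℕ) : ℝ) ≤ ((U ^ (k - 1) : ℕ) : ℝ) := by exact_mod_cast hqw
      linarith
    have hqD : Real.log ((p * m : ℕ) : ℝ) ≤ δ / 2 * Real.log Y := by
      have h1 : ((p * m : ℕ) : ℝ) ≤ ((U ^ (k - 1) : ℕ) : ℝ) := by exact_mod_cast hqw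
      have h2 : (0 : ℝ) < ((p * m : ℕ) : ℝ) := by exact_mod_cast hq0
      exact (Real.log_le_log h2 h1).trans hwD
    have hwt : ∀ g : ℕ, (Y : ℝ) / (Real.log Y) ^ e ≤ ((2 ^ i * 2 ^ j * 2 ^ g : ℕ) : ℝ) →
        2 ^ i * 2 ^ j * 2 ^ g ≤ Y → (1 - δ) * Real.log Y ≤ Real.log ((2 * 2 ^ g : ℕ) : ℝ) ∧
          Real.log ((2 * 2 ^ g : ℕ) : ℝ) ≤ (1 + δ) * Real.log Y := by
      intro g hg1 hg2
      have hg0 : (0 : ℝ) < ((2 ^ g : ℕ) : ℝ) := by positivity
      have hllog : 0 ≤ ((e + 0 : ℕ) : ℝ) * Real.log (Real.log Y) :=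
        mul_nonneg (Nat.cast_nonneg _) (Real.log_nonneg a1)
      have hlog2 : 0 < Real.log 2 := Real.log_pos (by norm_num)
      have hqr : (0 : ℝ) < ((p * m : ℕ) : ℝ) := by exact_mod_cast hq0
      constructor
      · have h6 : (0 : ℝ) < ((2 * 2 ^ g : ℕ) : ℝ) := by positivity
        have h1 : (Y : ℝ) ≤ (Real.log Y) ^ (e + 0) * (((p * m : ℕ) : ℝ) *
            ((2 * 2 ^ g : ℕ) : ℝ)) := by
          have h2 : (Y : ℝ) ≤ ((2 ^ i * 2 ^ j * 2 ^ g : ℕ) : ℝ) * (Real.log Y) ^ e := by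
            rwa [div_le_iff₀ (by positivity)] at hg1
          have h4 : ((2 ^ i * 2 ^ j * 2 ^ g : ℕ) : ℝ) ≤ ((p * m : ℕ) : ℝ) *
              ((2 * 2 ^ g : ℕ) : ℝ) := by
            have h5 : 2 ^ i * 2 ^ j * 2 ^ g ≤ p * m * (2 * 2 ^ g) :=
              Nat.mul_le_mul hq1 (by omega)
            exact_mod_cast h5
          calc (Y : ℝ) ≤ ((2 ^ i * 2 ^ j * 2 ^ g : ℕ) : ℝ) * (Real.log Y) ^ e := h2
            _ ≤ (((p * m : ℕ) : ℝ) * ((2 * 2 ^ g : ℕ) : ℝ)) * (Real.log Y) ^ e :=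
                mul_le_mul_of_nonneg_right h4 (by positivity)
            _ = (Real.log Y) ^ (e + 0) * (((p * m : ℕ) : ℝ) * ((2 * 2 ^ g : ℕ) : ℝ)) := by
                rw [add_zero]; ring
        have h7 := Real.log_le_log hY0 h1
        rw [Real.log_mul (by positivity) (by positivity), Real.log_pow,
          Real.log_mul hqr.ne' h6.ne'] at h7
        linarith
      · have h1 : ((2 * 2 ^ g : ℕ) : ℝ) ≤ 2 * (Y : ℝ) := by
          have h2 : 1 * 2 ^ g ≤ 2 ^ i * 2 ^ j * 2 ^ g :=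
            Nat.mul_le_mul_right _ (Nat.one_le_iff_ne_zero.mpr (by positivity))
          have h3 : 2 * 2 ^ g ≤ 2 * Y := by omega
          exact_mod_cast h3
        have h4 := Real.log_le_log (by positivity) h1
        rw [Real.log_mul (by norm_num) hY0.ne'] at h4
        linarith
    have hW := r3_W Y N i j (p * m) e δ hδ hδ1 hq0 hYn hL hq1 hq2 hqδ h8 hN hN3 hwt
    have hA : 0 ≤ aL k U i m / ((p : ℝ) * m) := div_nonneg (r3_nonneg k U i m) (by positivity)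
    rw [mul_comm ((Y : ℝ) / Real.log Y) (aL k U i m / ((p : ℝ) * m)), ← mul_sub, abs_mul,
      abs_of_nonneg hA]
    calc aL k U i m / ((p : ℝ) * m) * _ ≤ aL k U i m / ((p : ℝ) * m) *
          (4 * δ * (Y / Real.log Y)) := mul_le_mul_of_nonneg_left hW hA
      _ = 4 * δ * (aL k U i m / ((p : ℝ) * m) * (Y / Real.log Y)) := by ring
  have H := r3_sum (range (Nat.log 2 Y + 1)) _ _ (Y / Real.log Y) (4 * δ) (fun i hi =>
    r3_sum (range (Nat.log 2 Y + 1)) _ _ (Y / Real.log Y) (4 * δ) (fun j hj =>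
      r3_sum (SL S i) _ _ (Y / Real.log Y) (4 * δ) (fun p hp =>
        r3_sum (Ico (2 ^ j) (2 * 2 ^ j)) _ _ (Y / Real.log Y) (4 * δ) (fun m hm =>
          hpm i hi j hj p hp m hm))))
  rw [hS4] at H
  rw [hsum]
  refine H.trans (mul_le_mul_of_nonneg_right hδε ?_)
  refine mul_nonneg hYL.le ?_
  rw [← hS4]
  refine Finset.sum_nonneg (fun i _ => Finset.sum_nonneg (fun j _ => Finset.sum_nonneg
    (fun p _ => Finset.sum_nonneg (fun m _ => ?_))))
  exact div_nonneg (r3_nonneg k U i m) (by positivity)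

end Pool.Agent.Lib.G8
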