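import Pool.Agent.Lib.G8.LDefs

/-!
# G8, row L4 (copy of G5/R4.lean): the sum of the block functions pointwise

PROOF IN WORDS. As R4, but simpler (no weight `1/(k-1)`: the prime `q` is determined by `n`). If a block function is `≠ 0` at `n` then `n = q m r`, `q ∈ S`, `2^i < q ≤ 2^(i+1)` (so `i = di q`), `m` squarefree
with `k - 2` prime factors in `(2^(i+1), U]`, `r` a prime `> 2^g > U` (as in L0), so `EL k U S n`; `q` is the least prime factor of `n`, `r` the only one `> U`, `i`, `j`, `g` are determined: at most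
one nonzero term, `log r/log 2^(g+1) ≤ 1`. If `EL k U S n` and `8 Y/l^e ≤ n ≤ Y`: `q`, `r` the prime factor `> U`, `m = n/(q r)` (`r ≠ q` as `q ≤ U`), `i = di q`, `2^j ≤ m < 2^(j+1)`, `g = di r`: `n ≤ 8 · 2^i 2^j 2^g`
and `2^i 2^j 2^g ≤ n ≤ Y`, so `(i, j, g) ∈ IL`; the term is `log r/log 2^(g+1) ≥ 1 - log 2/log 2^(g+1) ≥ 1 - 2/log Y` as `2^(g+1) ≥ r ≥ √Y` (`q m ≤ U^(k-1)`).
-/

set_option autoImplicit false

open Finset

namespace Pool.Agent.Lib.G8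

open Pool.Agent.Lib.G3 (pr lp)
open Pool.Agent.Lib.G5 (bS DD WS PP)

private theorem l4_large (N : ℕ) : ∃ x0 : ℝ, ∀ Y : ℝ, x0 ≤ Y →
    1 ≤ Real.log Y ∧ (Real.log Y) ^ N ≤ Real.sqrt Y ∧ 1 < Real.sqrt Y ∧ 0 < Y := by
  have h := (Real.isLittleO_pow_log_id_atTop (n := 2 * N)).bound one_pos
  obtain ⟨x1, hx1⟩ := Filter.eventually_atTop.1 h
  refine ⟨max x1 (Real.exp 1), fun Y hY => ?_⟩
  have h1 := hx1 Y ((le_max_left _ _).trans hY)
  have h2 : Real.exp 1 ≤ Y := (le_max_right _ _).trans hY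
  have h3 : 1 < Real.exp 1 := Real.one_lt_exp_iff.2 one_pos
  have hY0 : 0 < Y := by linarith
  have h4 : 1 ≤ Real.log Y := by
    rw [Real.le_log_iff_exp_le hY0]
    exact h2
  refine ⟨h4, ?_, ?_, hY0⟩
  · apply Real.le_sqrt_of_sq_le
    rw [one_mul, id, Real.norm_of_nonneg hY0.le, Real.norm_of_nonneg (by positivity)] at h1
    rw [← pow_mul, mul_comm N 2]
    exact h1
  · rw [Real.lt_sqrt zero_le_one]
    linarith

private theorem l4_pow {i i' p : ℕ} (h1 : 2 ^ i < p) (h2 : p ≤ 2 ^ (i + 1)) (h3 : 2 ^ i' < p)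
    (h4 : p ≤ 2 ^ (i' + 1)) : i = i' := by
  rcases lt_trichotomy i i' with h | h | h
  · have : 2 ^ (i + 1) ≤ 2 ^ i' := Nat.pow_le_pow_right (by norm_num) h
    omega
  · exact h
  · have : 2 ^ (i' + 1) ≤ 2 ^ i := Nat.pow_le_pow_right (by norm_num) h
    omega

private theorem l4_pow' {j j' m : ℕ} (h1 : 2 ^ j ≤ m) (h2 : m < 2 * 2 ^ j) (h3 : 2 ^ j' ≤ m)
    (h4 : m < 2 * 2 ^ j') : j = j' := by
  rcases lt_trichotomy j j' with h | h | h
  · have : 2 ^ (j + 1) ≤ 2 ^ j' := Nat.pow_le_pow_right (by norm_num) h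
    rw [pow_succ] at this
    omega
  · exact h
  · have : 2 ^ (j' + 1) ≤ 2 ^ j := Nat.pow_le_pow_right (by norm_num) h
    rw [pow_succ] at this
    omega

private theorem l4_R {Y e k c1 U w' : ℕ} {S : Finset ℕ} (hk : 2 ≤ k) (hR : RgL Y U w' c1 (1000 * k) S)
    (hl : 1 ≤ Real.log Y) (hN : (Real.log Y) ^ (2 * e) ≤ Real.sqrt Y) (hs : 1 < Real.sqrt Y)
    {i j g p : ℕ} (hp : p ∈ SL S i) (hj : 2 ^ j ≤ U ^ (k - 2))
    (hb : (Y : ℝ) / (Real.log Y) ^ e ≤ ((2 ^ i * 2 ^ j * 2 ^ g : ℕ) : ℝ)) :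
    U < 2 ^ g ∧ Real.sqrt Y ≤ ((2 ^ g : ℕ) : ℝ) := by
  obtain ⟨K, rfl⟩ := Nat.exists_eq_add_of_le hk
  rw [Nat.add_sub_cancel_left] at hj
  obtain ⟨l, hld⟩ : ∃ l : ℝ, l = Real.log Y := ⟨_, rfl⟩
  obtain ⟨W, hW⟩ : ∃ W : ℝ, W = (U : ℝ) := ⟨_, rfl⟩
  rw [← hld] at hl hN hb
  have hl0 : 0 < l := by linarith
  have hi' : 2 ^ i ≤ U := by
    unfold SL at hp
    rw [mem_filter] at hp
    have h1 := (hR.hS p hp.1).2.2
    have h2 := hR.h2
    omega
  have hw1 : 1 ≤ U := (Nat.one_le_two_pow).trans hi'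
  have hW1 : 1 ≤ W := by rw [hW]; exact_mod_cast hw1
  have hW0 : 0 < W := by linarith
  have hi : ((2 ^ i : ℕ) : ℝ) ≤ W := by rw [hW]; exact_mod_cast hi'
  have hj' : ((2 ^ j : ℕ) : ℝ) ≤ W ^ K := by
    rw [hW]
    exact_mod_cast hj
  obtain ⟨G, hG⟩ : ∃ G : ℝ, G = ((2 ^ g : ℕ) : ℝ) := ⟨_, rfl⟩
  have hG0 : 0 < G := by rw [hG]; positivity
  have hs0 : 0 < Real.sqrt Y := by linarith
  have hYY : Real.sqrt Y * Real.sqrt Y = Y := Real.mul_self_sqrt (Nat.cast_nonneg _)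
  have hw3 : W ^ (1000 * (2 + K)) ≤ (Y : ℝ) := by
    rw [hW]
    exact_mod_cast hR.h3
  have hW2 : W ^ (2 * (2 + K)) ≤ Real.sqrt Y := by
    apply Real.le_sqrt_of_sq_le
    rw [← pow_mul]
    refine le_trans (pow_le_pow_right₀ hW1 ?_) hw3
    omega
  have h0 : l ^ e * W ^ (2 + K) ≤ Real.sqrt Y := by
    apply Real.le_sqrt_of_sq_le
    calc (l ^ e * W ^ (2 + K)) ^ 2 = l ^ (2 * e) * W ^ (2 * (2 + K)) := by
          rw [mul_pow, ← pow_mul, ← pow_mul, mul_comm e 2, mul_comm (2 + K) 2]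
      _ ≤ Real.sqrt Y * Real.sqrt Y := mul_le_mul hN hW2 (by positivity) hs0.le
      _ = Y := hYY
  have h1 : (Y : ℝ) ≤ l ^ e * (W * W ^ K * G) := by
    rw [div_le_iff₀ (by positivity)] at hb
    calc (Y : ℝ) ≤ ((2 ^ i * 2 ^ j * 2 ^ g : ℕ) : ℝ) * l ^ e := hb
      _ = l ^ e * (((2 ^ i : ℕ) : ℝ) * ((2 ^ j : ℕ) : ℝ) * G) := by rw [hG]; push_cast; ring
      _ ≤ l ^ e * (W * W ^ K * G) := by gcongr
  have h2 : (Y : ℝ) * W ≤ Real.sqrt Y * G := by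
    calc (Y : ℝ) * W ≤ (l ^ e * (W * W ^ K * G)) * W :=
          mul_le_mul_of_nonneg_right h1 hW0.le
      _ = l ^ e * W ^ (2 + K) * G := by
          rw [pow_add]
          ring
      _ ≤ Real.sqrt Y * G := mul_le_mul_of_nonneg_right h0 hG0.le
  have h3 : Real.sqrt Y * W ≤ G := by
    have h4 : Real.sqrt Y * (Real.sqrt Y * W) ≤ Real.sqrt Y * G := by
      rw [← mul_assoc, hYY]
      exact h2
    exact le_of_mul_le_mul_left h4 hs0
  constructor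
  · have h4 : (U : ℝ) < G := by
      calc (U : ℝ) = 1 * W := by rw [hW, one_mul]
        _ < Real.sqrt Y * W := mul_lt_mul_of_pos_right hs hW0
        _ ≤ G := h3
    rw [hG] at h4
    exact_mod_cast h4
  · rw [← hG]
    calc Real.sqrt Y = Real.sqrt Y * 1 := (mul_one _).symm
      _ ≤ Real.sqrt Y * W := mul_le_mul_of_nonneg_left hW1 hs0.le
      _ ≤ G := h3

private theorem l4_aL {k U i m : ℕ} (h : aL k U i m ≠ 0) :
    (Squarefree m ∧ m.primeFactors.card = k - 2 ∧ m.primeFactors ⊆ PP (2 ^ (i + 1)) U) ∧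
      aL k U i m = 1 := by
  unfold aL at h ⊢
  split_ifs at h ⊢ with h1
  · exact ⟨h1, rfl⟩
  · exact absurd rfl h

private theorem l4_aL_nonneg (k U i m : ℕ) : 0 ≤ aL k U i m := by
  unfold aL
  split_ifs
  · exact zero_le_one
  · exact le_rfl

/-- the triples of the blocks -/
private noncomputable def l4T (Y e k U : ℕ) (S : Finset ℕ) : Finset ((_ : ℕ × ℕ × ℕ) × (ℕ × ℕ × ℕ)) :=
  (IL Y e k U S).sigma (fun b => (SL S b.1) ×ˢ (pr (2 ^ b.2.2)) ×ˢ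
    (Ico (2 ^ b.2.1) (2 * 2 ^ b.2.1)))

/-- the terms -/
private noncomputable def l4F (k U n : ℕ) (x : (_ : ℕ × ℕ × ℕ) × (ℕ × ℕ × ℕ)) : ℝ :=
  if x.2.1 * x.2.2.2 * x.2.2.1 = n then
    aL k U x.1.1 x.2.2.2 * (lp x.2.2.1 / Real.log (2 * 2 ^ x.1.2.2 : ℕ)) else 0

private theorem l4_sum (Y e k U n : ℕ) (S : Finset ℕ) :
    ∑ b ∈ IL Y e k U S, bL k U S b n = ∑ x ∈ l4T Y e k U S, l4F k U n x := by
  unfold l4T
  rw [Finset.sum_sigma]
  refine sum_congr rfl fun b _ => ?_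
  unfold bL bS
  rw [Finset.sum_product]
  refine sum_congr rfl fun p _ => ?_
  rw [Finset.sum_product]
  rfl

private theorem l4_lp {r : ℕ} : 0 ≤ lp r := by
  unfold Pool.Agent.Lib.G3.lp
  split_ifs
  · exact Real.log_natCast_nonneg r
  · exact le_rfl

private theorem l4_nonneg (k U n : ℕ)
    (x : (_ : ℕ × ℕ × ℕ) × (ℕ × ℕ × ℕ)) : 0 ≤ l4F k U n x := by
  unfold l4F
  split_ifs
  · exact mul_nonneg (l4_aL_nonneg _ _ _ _) (div_nonneg l4_lp (Real.log_natCast_nonneg _))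
  · exact le_rfl

private theorem l4_facts {Y e k c1 U w' n : ℕ} {S : Finset ℕ} (hk : 2 ≤ k) (hR : RgL Y U w' c1 (1000 * k) S)
    (hl : 1 ≤ Real.log Y) (hN : (Real.log Y) ^ (2 * e) ≤ Real.sqrt Y) (hs : 1 < Real.sqrt Y)
    {i j g p r m : ℕ} (hx : (⟨(i, j, g), (p, r, m)⟩ : (_ : ℕ × ℕ × ℕ) × (ℕ × ℕ × ℕ)) ∈ l4T Y e k U S)
    (hF : l4F k U n ⟨(i, j, g), (p, r, m)⟩ ≠ 0) :
    (p ∈ S ∧ p.Prime ∧ 2 * p ≤ U) ∧ r.Prime ∧ U < r ∧ Squarefree m ∧ m.primeFactors.card = k - 2 ∧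
      m.primeFactors ⊆ PP (2 ^ (i + 1)) U ∧ p * m * r = n ∧ l4F k U n ⟨(i, j, g), (p, r, m)⟩ ≤ 1 ∧
      (2 ^ i < p ∧ p ≤ 2 ^ (i + 1)) ∧ (2 ^ j ≤ m ∧ m < 2 * 2 ^ j) ∧ 2 ^ g < r ∧ r ≤ 2 ^ (g + 1) := by
  unfold l4T at hx
  rw [mem_sigma, mem_product, mem_product, mem_Ico] at hx
  obtain ⟨hb, hp, hr, hm1, hm2⟩ := hx
  simp only at hb hp hr hm1 hm2
  have hb2 := hb
  unfold IL at hb2
  rw [mem_filter] at hb2
  obtain ⟨-, -, hj, hY1, -⟩ := hb2
  simp only at hj hY1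
  obtain ⟨hw, -⟩ := l4_R hk hR hl hN hs hp hj hY1
  unfold l4F at hF
  simp only at hF
  have hn : p * m * r = n := by
    by_contra h
    rw [if_neg h] at hF
    exact hF rfl
  rw [if_pos hn] at hF
  obtain ⟨⟨a1, a2, a3⟩, a4⟩ := l4_aL (left_ne_zero_of_mul hF)
  have hp' := hp
  unfold SL at hp'
  rw [mem_filter] at hp'
  unfold pr at hr
  rw [mem_filter, mem_Ioc] at hr
  have hS := hR.hS p hp'.1
  have h2w := hR.h2
  refine ⟨⟨hp'.1, hS.1, by omega⟩, hr.2, by omega, a1, a2, a3, hn, ?_, hp'.2, ⟨hm1, hm2⟩, hr.1.1, ?_⟩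
  · unfold l4F
    simp only
    rw [if_pos hn, a4, one_mul]
    apply div_le_one_of_le₀ _ (Real.log_natCast_nonneg _)
    unfold Pool.Agent.Lib.G3.lp
    rw [if_pos hr.2]
    apply Real.log_le_log
    · exact_mod_cast hr.2.pos
    · exact_mod_cast hr.1.2
  · rw [pow_succ]
    omega

private theorem l4_PP {w w' q : ℕ} (h : q ∈ PP w w') : q.Prime ∧ w < q ∧ q ≤ w' := by
  unfold PP at h
  rw [mem_filter, mem_Ioc] at h
  exact ⟨h.2, h.1⟩

/-- a prime factor of `p m` -/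
private theorem l4_div {p m q : ℕ} (hp : p.Prime) (hm0 : m ≠ 0) (hq : q.Prime) (h : q ∣ p * m) :
    q = p ∨ q ∈ m.primeFactors := by
  rcases hq.dvd_mul.1 h with h1 | h1
  · exact Or.inl ((Nat.prime_dvd_prime_iff_eq hq hp).1 h1)
  · exact Or.inr (Nat.mem_primeFactors.2 ⟨hq, h1, hm0⟩)

private theorem l4_r {v U p m r p' m' r' : ℕ} (hr : r.Prime) (hwr : U < r)
    (hr' : r'.Prime) (hp' : p'.Prime) (hpU : p' ≤ U) (hm' : m'.primeFactors ⊆ PP v U) (hm0 : m' ≠ 0)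
    (h : p * m * r = p' * m' * r') : r = r' := by
  have h1 : r ∣ p' * m' * r' := by
    rw [← h]
    exact dvd_mul_left _ _
  rcases hr.dvd_mul.1 h1 with h2 | h2
  · exfalso
    rcases l4_div hp' hm0 hr h2 with h3 | h3
    · omega
    · have := (l4_PP (hm' h3)).2.2
      omega
  · exact (Nat.prime_dvd_prime_iff_eq hr hr').1 h2

private theorem l4_q {i' U p m p' m' : ℕ} (hp : p.Prime) (hp' : p'.Prime) (hp2 : p' ≤ 2 ^ (i' + 1))
    (hm' : m'.primeFactors ⊆ PP (2 ^ (i' + 1)) U) (hm0 : m' ≠ 0)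
    (h : p * m = p' * m') : p = p' ∨ p' < p := by
  have h1 : p ∣ p' * m' := by
    rw [← h]
    exact dvd_mul_right _ _
  rcases l4_div hp' hm0 hp h1 with h3 | h3
  · exact Or.inl h3
  · have := (l4_PP (hm' h3)).2.1
    exact Or.inr (by omega)

private theorem l4_card {Y e k c1 U w' n : ℕ} {S : Finset ℕ} (hk : 2 ≤ k) (hR : RgL Y U w' c1 (1000 * k) S)
    (hl : 1 ≤ Real.log Y) (hN : (Real.log Y) ^ (2 * e) ≤ Real.sqrt Y)
    (hs : 1 < Real.sqrt Y) :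
    ((l4T Y e k U S).filter (fun x => l4F k U n x ≠ 0)).card ≤ 1 := by
  classical
  rw [Finset.card_le_one]
  rintro ⟨⟨i, j, g⟩, p, r, m⟩ hx ⟨⟨i', j', g'⟩, p', r', m'⟩ hx'
  rw [mem_filter] at hx hx'
  obtain ⟨e1, e2, e3, e4, e5, e6, e7, -, e9, e10, e11⟩ := l4_facts hk hR hl hN hs hx.1 hx.2
  obtain ⟨e1', e2', e3', e4', e5', e6', e7', -, e9', e10', e11'⟩ :=
    l4_facts hk hR hl hN hs hx'.1 hx'.2
  have hrr : r = r' := l4_r e2 e3 e2' e1'.2.1 (by omega) e6' e4'.ne_zero (e7.trans e7'.symm)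
  subst hrr
  have h2 := Nat.eq_of_mul_eq_mul_right e2.pos (e7.trans e7'.symm)
  have hpp : p = p' := by
    rcases l4_q e1.2.1 e1'.2.1 e9'.2 e6' e4'.ne_zero h2 with h3 | h3
    · exact h3
    · rcases l4_q e1'.2.1 e1.2.1 e9.2 e6 e4.ne_zero h2.symm with h4 | h4
      · exact h4.symm
      · omega
  subst hpp
  have hmm : m = m' := Nat.eq_of_mul_eq_mul_left e1.2.1.pos h2
  subst hmm
  rw [l4_pow e9.1 e9.2 e9'.1 e9'.2, l4_pow' e10.1 e10.2 e10'.1 e10'.2,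
    l4_pow e11.1 e11.2 e11'.1 e11'.2]

private theorem l4_two {p : ℕ} (hp : 2 ≤ p) :
    2 ^ Nat.log 2 (p - 1) < p ∧ p ≤ 2 ^ (Nat.log 2 (p - 1) + 1) := by
  have h1 := Nat.pow_log_le_self 2 (show p - 1 ≠ 0 by omega)
  have h2 := Nat.lt_pow_succ_log_self (show 1 < 2 by norm_num) (p - 1)
  rw [Nat.succ_eq_add_one] at h2
  omega

private theorem l4_di {i p : ℕ} (h1 : 2 ^ i < p) (h2 : p ≤ 2 ^ (i + 1)) : di p = i := by
  have h3 : 2 ≤ p := by
    have : 1 ≤ 2 ^ i := Nat.one_le_two_pow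
    omega
  obtain ⟨h4, h5⟩ := l4_two h3
  exact l4_pow h4 h5 h1 h2

/-- the prime factors of `n` -/
private theorem l4_EL {k U i p m r n : ℕ} {S : Finset ℕ} (hk : 2 ≤ k) (hpS : p ∈ S) (hpp : p.Prime) (hpU : 2 * p ≤ U)
    (hi1 : 2 ^ i < p) (hi2 : p ≤ 2 ^ (i + 1))
    (hr : r.Prime) (hwr : U < r) (hm : Squarefree m) (hc : m.primeFactors.card = k - 2)
    (hmP : m.primeFactors ⊆ PP (2 ^ (i + 1)) U) (hn : p * m * r = n) : EL k U S n := by
  classical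
  have hm0 := hm.ne_zero
  have hpm : ¬ p ∣ m := by
    intro h
    have := (l4_PP (hmP (Nat.mem_primeFactors.2 ⟨hpp, h, hm0⟩))).2.1
    omega
  have hpm0 : p * m ≠ 0 := Nat.mul_ne_zero hpp.ne_zero hm0
  have hcop : Nat.Coprime p m := (Nat.Prime.coprime_iff_not_dvd hpp).2 hpm
  have hrpm : ¬ r ∣ p * m := by
    intro h
    rcases l4_div hpp hm0 hr h with h1 | h1
    · omega
    · have := (l4_PP (hmP h1)).2.2
      omega
  have hcop2 : Nat.Coprime (p * m) r := ((Nat.Prime.coprime_iff_not_dvd hr).2 hrpm).symm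
  have hsq : Squarefree n := by
    rw [← hn, Nat.squarefree_mul_iff]
    refine ⟨hcop2, ?_, hr.squarefree⟩
    rw [Nat.squarefree_mul_iff]
    exact ⟨hcop, hpp.squarefree, hm⟩
  have hpf : n.primeFactors = insert r (insert p m.primeFactors) := by
    rw [← hn, Nat.primeFactors_mul hpm0 hr.ne_zero, Nat.primeFactors_mul hpp.ne_zero hm0,
      hr.primeFactors, hpp.primeFactors]
    ext q
    simp only [mem_union, mem_singleton, mem_insert]
    tauto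
  have hpn : p ∉ m.primeFactors := fun h => hpm (Nat.dvd_of_mem_primeFactors h)
  have hrn : r ∉ insert p m.primeFactors := by
    rw [mem_insert]
    rintro (h | h)
    · omega
    · have := (l4_PP (hmP h)).2.2
      omega
  have hdi : di p = i := l4_di hi1 hi2
  refine ⟨hsq, ?_, ⟨p, hpS, ?_, ?_⟩, ?_⟩
  · rw [hpf, card_insert_of_notMem hrn, card_insert_of_notMem hpn, hc]
    omega
  · rw [← hn, mul_assoc]
    exact dvd_mul_right _ _
  · intro q hq hqp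
    rw [hdi]
    rw [hpf, mem_insert, mem_insert] at hq
    rcases hq with rfl | rfl | hq
    · rw [pow_succ]
      omega
    · exact absurd rfl hqp
    · exact (l4_PP (hmP hq)).2.1
  · have : n.primeFactors.filter (fun q => U < q) = {r} := by
      ext q
      rw [mem_filter, hpf, mem_insert, mem_insert, mem_singleton]
      constructor
      · rintro ⟨h1 | h1 | h1, h2⟩
        · exact h1
        · exfalso
          omega
        · exfalso
          have := (l4_PP (hmP h1)).2.2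
          omega
      · rintro rfl
        exact ⟨Or.inl rfl, hwr⟩
    rw [this, card_singleton]

/-- the decomposition of an element of `EL` -/
private theorem l4_dec {k U n : ℕ} {S : Finset ℕ} (hk : 2 ≤ k) (hS : ∀ q ∈ S, q.Prime ∧ 2 * q ≤ U) (h : EL k U S n) :
    ∃ q m r : ℕ, q ∈ S ∧ r.Prime ∧ U < r ∧ q * m * r = n ∧
      Squarefree m ∧ m.primeFactors.card = k - 2 ∧
      m.primeFactors ⊆ PP (2 ^ (di q + 1)) U := by
  classical
  obtain ⟨h1, h2, ⟨p, hpS, hpn, hall⟩, h4⟩ := h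
  obtain ⟨r, hr⟩ := card_eq_one.1 h4
  have hr1 : r ∈ n.primeFactors.filter (fun q => U < q) := by rw [hr]; exact mem_singleton_self r
  rw [mem_filter] at hr1
  have hrp := Nat.prime_of_mem_primeFactors hr1.1
  have hle : ∀ q ∈ n.primeFactors, q ≠ r → q ≤ U := by
    intro q hq hqr
    by_contra hcon
    have : q ∈ n.primeFactors.filter (fun q => U < q) := mem_filter.2 ⟨hq, not_le.1 hcon⟩
    rw [hr, mem_singleton] at this
    exact hqr this
  obtain ⟨hpp, hpU⟩ := hS p hpS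
  have hpr : p ≠ r := by
    rintro rfl
    omega
  have hrn : r ∣ n := Nat.dvd_of_mem_primeFactors hr1.1
  have e1 : n / r * r = n := Nat.div_mul_cancel hrn
  have hpnr : p ∣ n / r := by
    have : p ∣ n / r * r := by rw [e1]; exact hpn
    rcases hpp.dvd_mul.1 this with h | h
    · exact h
    · exact absurd ((Nat.prime_dvd_prime_iff_eq hpp hrp).1 h) hpr
  have e2 : p * (n / r / p) = n / r := Nat.mul_div_cancel' hpnr
  have e3 : p * (n / r / p) * r = n := by rw [e2, e1]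
  obtain ⟨m, hm⟩ : ∃ m, m = n / r / p := ⟨_, rfl⟩
  rw [← hm] at e2 e3
  refine ⟨p, m, r, hpS, hrp, hr1.2, e3, ?_⟩
  have hsq := h1
  rw [← e3, Nat.squarefree_mul_iff, Nat.squarefree_mul_iff] at hsq
  obtain ⟨c1, ⟨c2, -, hsm⟩, -⟩ := hsq
  have hm0 := hsm.ne_zero
  have hpm0 : p * m ≠ 0 := Nat.mul_ne_zero hpp.ne_zero hm0
  have hpf : n.primeFactors = insert r (insert p m.primeFactors) := by
    rw [← e3, Nat.primeFactors_mul hpm0 hrp.ne_zero, Nat.primeFactors_mul hpp.ne_zero hm0,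
      hrp.primeFactors, hpp.primeFactors]
    ext q
    simp only [mem_union, mem_singleton, mem_insert]
    tauto
  have hpn' : p ∉ m.primeFactors := by
    intro h
    exact (Nat.Prime.coprime_iff_not_dvd hpp).1 c2 (Nat.dvd_of_mem_primeFactors h)
  have hrn' : r ∉ insert p m.primeFactors := by
    rw [mem_insert]
    rintro (h | h)
    · exact hpr h.symm
    · exact (Nat.Prime.coprime_iff_not_dvd hrp).1 c1.symm
        (Dvd.dvd.mul_left (Nat.dvd_of_mem_primeFactors h) p)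
  refine ⟨hsm, ?_, ?_⟩
  · rw [hpf, card_insert_of_notMem hrn', card_insert_of_notMem hpn'] at h2
    omega
  · intro q hq
    have hq1 : q ∈ n.primeFactors := by
      rw [hpf]
      exact mem_insert_of_mem (mem_insert_of_mem hq)
    have hqr : q ≠ r := by
      rintro rfl
      exact hrn' (mem_insert_of_mem hq)
    have hqp : q ≠ p := by
      rintro rfl
      exact hpn' hq
    unfold PP
    rw [mem_filter, mem_Ioc]
    exact ⟨⟨hall q hq1 hqp, hle q hq1 hqr⟩, Nat.prime_of_mem_primeFactors hq⟩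

private theorem l4_mle {k v U m : ℕ} (hm : Squarefree m) (hc : m.primeFactors.card = k - 2)
    (hmP : m.primeFactors ⊆ PP v U) : m ≤ U ^ (k - 2) := by
  rw [← Nat.prod_primeFactors_of_squarefree hm, ← hc]
  exact Finset.prod_le_pow_card _ _ _ fun q hq => (l4_PP (hmP hq)).2.2

/-- one term of the lower bound -/
private theorem l4_term {Y e k c1 U w' n : ℕ} {S : Finset ℕ} (hk : 2 ≤ k) (hR : RgL Y U w' c1 (1000 * k) S)
    (hl : 1 ≤ Real.log Y) (hN : (Real.log Y) ^ (2 * e) ≤ Real.sqrt Y)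
    (hs : 1 < Real.sqrt Y) (hY0 : (0 : ℝ) < Y) {p m r : ℕ} (hpS : p ∈ S) (hr : r.Prime)
    (hm : Squarefree m) (hc : m.primeFactors.card = k - 2)
    (hmP : m.primeFactors ⊆ PP (2 ^ (di p + 1)) U) (hn : p * m * r = n)
    (h1 : 8 * (Y : ℝ) / (Real.log Y) ^ e ≤ n) (h2 : n ≤ Y) :
    (⟨(di p, Nat.log 2 m, Nat.log 2 (r - 1)), (p, r, m)⟩ :
      (_ : ℕ × ℕ × ℕ) × (ℕ × ℕ × ℕ)) ∈ l4T Y e k U S ∧
    1 - 2 / Real.log Y ≤
      l4F k U n ⟨(di p, Nat.log 2 m, Nat.log 2 (r - 1)), (p, r, m)⟩ := by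
  have hp1 := hR.hS p hpS
  obtain ⟨i, hi⟩ : ∃ i, i = di p := ⟨_, rfl⟩
  obtain ⟨j, hj⟩ : ∃ j, j = Nat.log 2 m := ⟨_, rfl⟩
  obtain ⟨g, hg⟩ : ∃ g, g = Nat.log 2 (r - 1) := ⟨_, rfl⟩
  obtain ⟨i1, i2⟩ := l4_two hp1.1.two_le
  obtain ⟨g1, g2⟩ := l4_two hr.two_le
  have j1 := Nat.pow_log_le_self 2 hm.ne_zero
  have j2 := Nat.lt_pow_succ_log_self (show 1 < 2 by norm_num) m
  rw [Nat.succ_eq_add_one] at j2
  rw [← hi, ← hj, ← hg]
  have hi0 : Nat.log 2 (p - 1) = i := by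
    rw [hi]
    rfl
  rw [hi0] at i1 i2
  rw [← hj] at j1 j2
  rw [← hg] at g1 g2
  rw [← hi] at hmP
  have hpSI : p ∈ SL S i := by
    unfold SL
    rw [mem_filter]
    exact ⟨hpS, i1, i2⟩
  rw [pow_succ] at i2 j2 g2
  have hmle := l4_mle hm hc hmP
  have hjw : 2 ^ j ≤ U ^ (k - 2) := j1.trans hmle
  have hlow : n ≤ 8 * (2 ^ i * 2 ^ j * 2 ^ g) := by
    rw [← hn]
    calc p * m * r ≤ (2 ^ i * 2) * (2 ^ j * 2) * (2 ^ g * 2) :=
          Nat.mul_le_mul (Nat.mul_le_mul i2 j2.le) g2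
      _ = 8 * (2 ^ i * 2 ^ j * 2 ^ g) := by ring
  have hup : 2 ^ i * 2 ^ j * 2 ^ g ≤ Y := by
    refine le_trans ?_ h2
    rw [← hn]
    exact Nat.mul_le_mul (Nat.mul_le_mul i1.le j1) g1.le
  have hYe : (Y : ℝ) / (Real.log Y) ^ e ≤ ((2 ^ i * 2 ^ j * 2 ^ g : ℕ) : ℝ) := by
    have e1 : (n : ℝ) ≤ 8 * ((2 ^ i * 2 ^ j * 2 ^ g : ℕ) : ℝ) := by exact_mod_cast hlow
    have e2 : 8 * (Y : ℝ) / (Real.log Y) ^ e = 8 * ((Y : ℝ) / (Real.log Y) ^ e) := by ring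
    rw [e2] at h1
    linarith
  have hpos : ∀ a : ℕ, 1 ≤ 2 ^ a := fun a => Nat.one_le_two_pow
  have hrange : ∀ a b c : ℕ, 2 ^ a * 2 ^ b * 2 ^ c ≤ Y → a < Nat.log 2 Y + 1 ∧
      b < Nat.log 2 Y + 1 ∧ c < Nat.log 2 Y + 1 := by
    intro a b c h
    have hY0' : Y ≠ 0 := by
      rintro rfl
      simp at hY0
    have key : ∀ t : ℕ, 2 ^ t ≤ Y → t < Nat.log 2 Y + 1 := by
      intro t ht
      have := (Nat.le_log_iff_pow_le (by norm_num) hY0').2 ht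
      omega
    refine ⟨key a ?_, key b ?_, key c ?_⟩
    · refine le_trans ?_ h
      rw [mul_assoc]
      exact Nat.le_mul_of_pos_right _ (Nat.mul_pos (hpos b) (hpos c))
    · refine le_trans ?_ h
      calc 2 ^ b ≤ 2 ^ a * 2 ^ b := Nat.le_mul_of_pos_left _ (hpos a)
        _ ≤ 2 ^ a * 2 ^ b * 2 ^ c := Nat.le_mul_of_pos_right _ (hpos c)
    · exact le_trans (Nat.le_mul_of_pos_left _ (Nat.mul_pos (hpos a) (hpos b))) h
  obtain ⟨r1, r2, r3⟩ := hrange i j g hup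
  obtain ⟨hwg, hsg⟩ := l4_R hk hR hl hN hs hpSI hjw hYe
  constructor
  · unfold l4T
    rw [mem_sigma, mem_product, mem_product, mem_Ico]
    refine ⟨?_, hpSI, ?_, j1, ?_⟩
    · unfold IL
      rw [mem_filter, mem_product, mem_product, mem_range, mem_range, mem_range]
      exact ⟨⟨r1, r2, r3⟩, ⟨p, hpSI⟩, hjw, hYe, hup⟩
    · unfold pr
      rw [mem_filter, mem_Ioc]
      refine ⟨⟨g1, ?_⟩, hr⟩
      rw [mul_comm]
      exact g2
    · rw [mul_comm]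
      exact j2
  · unfold l4F
    simp only
    rw [if_pos hn]
    have haS : aL k U i m = 1 := by
      unfold aL
      rw [if_pos ⟨hm, hc, hmP⟩]
    rw [haS, one_mul]
    obtain ⟨G, hG⟩ : ∃ G : ℝ, G = ((2 ^ g : ℕ) : ℝ) := ⟨_, rfl⟩
    have hG1 : (1 : ℝ) ≤ G := by rw [hG]; exact_mod_cast hpos g
    have e1 : ((2 * 2 ^ g : ℕ) : ℝ) = 2 * G := by rw [hG]; push_cast; ring
    have hlG : Real.log Y / 2 ≤ Real.log (2 * G) := by
      have e2 : Real.log (Real.sqrt Y) = Real.log Y / 2 := Real.log_sqrt hY0.le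
      rw [← e2]
      apply Real.log_le_log (by linarith)
      rw [← hG] at hsg
      linarith
    have hlr : Real.log (2 * G) - Real.log 2 ≤ lp r := by
      unfold Pool.Agent.Lib.G3.lp
      rw [if_pos hr, Real.log_mul (by norm_num) (by linarith)]
      have : Real.log G ≤ Real.log r := by
        apply Real.log_le_log (by linarith)
        rw [hG]
        exact_mod_cast g1.le
      linarith
    have hl2 : Real.log 2 ≤ 1 := by
      have := Real.log_two_lt_d9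
      linarith
    have hpos2 : 0 < Real.log (2 * G) := by linarith
    rw [e1, le_div_iff₀ hpos2]
    have e3 : 1 ≤ 2 / Real.log Y * Real.log (2 * G) := by
      rw [div_mul_eq_mul_div, le_div_iff₀ (by linarith)]
      linarith
    nlinarith

theorem l4 (k e c1 : ℕ) (hk : 2 ≤ k) : ∃ x0 : ℝ, ∀ Y : ℕ, x0 ≤ Y → ∀ (U w' : ℕ) (S : Finset ℕ), RgL Y U w' c1 (1000 * k) S → ∀ n : ℕ, 1 ≤ n →
    (0 ≤ ∑ b ∈ IL Y e k U S, bL k U S b n ∧ ∑ b ∈ IL Y e k U S, bL k U S b n ≤ 1) ∧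
    (∑ b ∈ IL Y e k U S, bL k U S b n ≠ 0 → EL k U S n) ∧
    (EL k U S n → 8 * (Y : ℝ) / (Real.log Y) ^ e ≤ n → n ≤ Y → 1 - 2 / Real.log Y ≤ ∑ b ∈ IL Y e k U S, bL k U S b n) := by
  classical
  obtain ⟨x0, hx0⟩ := l4_large (2 * e)
  refine ⟨x0, fun Y hY U w' S hR n hn => ?_⟩
  obtain ⟨hl, hN, hs, hY0⟩ := hx0 Y hY
  rw [l4_sum]
  refine ⟨⟨sum_nonneg fun x _ => l4_nonneg _ _ _ _, ?_⟩, ?_, ?_⟩
  · rw [← Finset.sum_filter_ne_zero]
    have h1 : ∀ x ∈ (l4T Y e k U S).filter (fun x => l4F k U n x ≠ 0),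
        l4F k U n x ≤ 1 := by
      rintro ⟨⟨i, j, g⟩, p, r, m⟩ hx
      rw [mem_filter] at hx
      exact (l4_facts hk hR hl hN hs hx.1 hx.2).2.2.2.2.2.2.2.1
    have h2 := sum_le_card_nsmul _ _ _ h1
    refine h2.trans ?_
    rw [nsmul_eq_mul, mul_one]
    exact_mod_cast l4_card hk hR hl hN hs
  · intro h
    obtain ⟨⟨⟨i, j, g⟩, p, r, m⟩, hx, hF⟩ := exists_ne_zero_of_sum_ne_zero h
    obtain ⟨e1, e2, e3, e4, e5, e6, e7, -, e9, -, -⟩ := l4_facts hk hR hl hN hs hx hF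
    exact l4_EL hk e1.1 e1.2.1 e1.2.2 e9.1 e9.2 e2 e3 e4 e5 e6 e7
  · intro hE h8 hnY
    have hS' : ∀ q ∈ S, q.Prime ∧ 2 * q ≤ U := fun q hq => by
      have h1 := hR.hS q hq
      have h2 := hR.h2
      exact ⟨h1.1, by omega⟩
    obtain ⟨q, m, r, d1, hr, hwr, d2, d3, d4, d5⟩ := l4_dec hk hS' hE
    obtain ⟨t1, t2⟩ := l4_term hk hR hl hN hs hY0 d1 hr d3 d4 d5 d2 h8 hnY
    exact t2.trans (Finset.single_le_sum (f := fun x => l4F k U n x) (fun x _ => l4_nonneg _ _ _ _) t1)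

end Pool.Agent.Lib.G8
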