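import Pool.Agent.Lib.G8.L4

/-!
# G8, row L5 (copy of G5/R5.lean): the number of representations and the weighted count

PROOF IN WORDS. As R5, without the squares. `l = log Y`, `W = ∑ WL b N = ∑_{1 ≤ n ≤ N} Φ(n) lp(N - n)`, `Φ` of row L4, `T = TL`. (1) `W ≤ T log N ≤ T (l + 1)`. (2) `T ≤ T' + 8Y/l^e + √Y + Y/l^e + 3`, `T'` counts the `n` with
`8Y/l^e ≤ n ≤ Y`, `N - n ≥ Y/l^e`; for those `Φ(n) lp(N - n) ≥ (1 - 2/l)(l - e log l)`. So `l T ≤ W (1 + ε/2) + 10 Y/l^(e-1)`, and `10 Y/l^(e-1) ≤ Y/(2 l^(e-2))`.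
-/

set_option autoImplicit false

open Finset

namespace Pool.Agent.Lib.G8

private theorem l5_lp_nonneg (n : ℕ) : 0 ≤ G3.lp n := by
  unfold G3.lp
  split_ifs with h
  · exact Real.log_nonneg (by exact_mod_cast h.one_lt.le)
  · exact le_rfl

private theorem l5_lp_le {n N : ℕ} (h : n < N) : G3.lp n ≤ Real.log N := by
  have hN : (1 : ℝ) ≤ N := by exact_mod_cast (by omega : 1 ≤ N)
  unfold G3.lp
  split_ifs with hp
  · exact Real.log_le_log (by exact_mod_cast hp.pos) (by exact_mod_cast h.le)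
  · exact Real.log_nonneg hN

/-- the sum over the blocks as one sum over the primes `p = N - n` -/
private theorem l5_sum (k e U Y N : ℕ) (S : Finset ℕ) : ∑ b ∈ IL Y e k U S, WL k U S b N =
    ∑ p ∈ range N, (∑ b ∈ IL Y e k U S, bL k U S b (N - p)) * G3.lp p := by
  have h1 : ∑ b ∈ IL Y e k U S, WL k U S b N =
      ∑ n ∈ Icc 1 N, (∑ b ∈ IL Y e k U S, bL k U S b n) * G3.lp (N - n) := by
    unfold WL G5.WS bL
    rw [sum_comm]
    refine sum_congr rfl fun n _ => ?_
    rw [sum_mul]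
  rw [h1]
  refine sum_nbij' (fun n => N - n) (fun p => N - p) ?_ ?_ ?_ ?_ ?_
  · intro n hn
    rw [mem_Icc] at hn
    rw [mem_range]
    omega
  · intro p hp
    rw [mem_range] at hp
    rw [mem_Icc]
    omega
  · intro n hn
    rw [mem_Icc] at hn
    omega
  · intro p hp
    rw [mem_range] at hp
    omega
  · intro n hn
    rw [mem_Icc] at hn
    rw [show N - (N - n) = n by omega]

/-- the conditions on `l = log Y` -/
private theorem l5_large (e : ℕ) (ε : ℝ) (hε : 0 < ε) : ∃ x0 : ℝ, ∀ Y : ℝ, x0 ≤ Y → 1 ≤ Y ∧ 10 ≤ Real.log Y ∧ 2 / Real.log Y ≤ ε ∧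
    Real.sqrt Y + 1 ≤ Y / Real.log Y ^ e ∧
    e * Real.log (Real.log Y) ≤ Real.log Y / 4 ∧
    Real.log Y ≤ (1 + ε) * ((1 - 2 / Real.log Y) * (Real.log Y - e * Real.log (Real.log Y))) := by
  have hl := Real.tendsto_log_atTop
  have h1 : ∀ᶠ Y : ℝ in Filter.atTop, 1 ≤ Y := Filter.eventually_ge_atTop 1
  have h2 : ∀ᶠ Y : ℝ in Filter.atTop, 10 ≤ Real.log Y := hl.eventually_ge_atTop 10
  have h3 : ∀ᶠ Y : ℝ in Filter.atTop, 2 / ε ≤ Real.log Y := hl.eventually_ge_atTop _
  have hll : Filter.Tendsto (fun x : ℝ => Real.log x / x) Filter.atTop (nhds 0) := by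
    have := Real.tendsto_pow_log_div_mul_add_atTop 1 0 1 one_ne_zero
    simpa using this
  have hlY : Filter.Tendsto (fun Y : ℝ => Real.log (Real.log Y) / Real.log Y) Filter.atTop (nhds 0) := hll.comp hl
  have h7 : ∀ᶠ Y : ℝ in Filter.atTop, Real.log (Real.log Y) / Real.log Y ≤ 1 / (4 * (e + 1)) :=
    (hlY.eventually_lt_const (by positivity : (0 : ℝ) < 1 / (4 * (e + 1)))).mono fun _ h => h.le
  have h8 : ∀ᶠ Y : ℝ in Filter.atTop,
      1 ≤ (1 + ε) * ((1 - 2 / Real.log Y) * (1 - e * (Real.log (Real.log Y) / Real.log Y))) := by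
    have h9 : Filter.Tendsto (fun Y : ℝ => 2 / Real.log Y) Filter.atTop (nhds 0) :=
      hl.const_div_atTop 2
    have h10 : Filter.Tendsto (fun Y : ℝ => (1 + ε) * ((1 - 2 / Real.log Y) * (1 - e * (Real.log (Real.log Y) / Real.log Y))))
        Filter.atTop (nhds ((1 + ε) * ((1 - 0) * (1 - e * 0)))) :=
      ((h9.const_sub 1).mul ((hlY.const_mul (e : ℝ)).const_sub 1)).const_mul (1 + ε)
    refine (h10.eventually_const_lt ?_).mono fun _ h => h.le
    simp only [sub_zero, mul_zero, mul_one]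
    linarith
  have h6 : ∀ᶠ Y : ℝ in Filter.atTop, 2 * Real.log Y ^ e ≤ Real.sqrt Y := by
    have h9 : (fun x : ℝ => Real.log x ^ (e : ℝ)) =o[Filter.atTop] fun x : ℝ => x ^ (1 / 2 : ℝ) :=
      isLittleO_log_rpow_rpow_atTop e (by norm_num)
    have h10 := h9.bound (c := 1 / 2) (by norm_num)
    filter_upwards [h10, h1, h2] with Y hY hY1 hY2
    rw [Real.norm_of_nonneg (Real.rpow_nonneg (by linarith) _), Real.norm_of_nonneg (Real.rpow_nonneg (by linarith) _),
      ← Real.sqrt_eq_rpow] at hY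
    rw [Real.rpow_natCast] at hY
    linarith
  obtain ⟨x0, hx0⟩ := Filter.eventually_atTop.1 (h1.and (h2.and (h3.and (h6.and (h7.and h8)))))
  refine ⟨x0, fun Y hY => ?_⟩
  obtain ⟨g1, g2, g3, g6, g7, g8⟩ := hx0 Y hY
  have hlpos : 0 < Real.log Y := by linarith
  refine ⟨g1, g2, ?_, ?_, ?_, ?_⟩
  · rw [div_le_iff₀ hε] at g3
    rw [div_le_iff₀ hlpos]
    linarith
  · have hs : 1 ≤ Real.sqrt Y := by
      rw [Real.one_le_sqrt]
      exact g1
    rw [le_div_iff₀ (by positivity)]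
    have hss : Real.sqrt Y * Real.sqrt Y = Y := Real.mul_self_sqrt (by linarith)
    calc (Real.sqrt Y + 1) * Real.log Y ^ e ≤ (2 * Real.sqrt Y) * Real.log Y ^ e := by
          refine mul_le_mul_of_nonneg_right (by linarith) (by positivity)
      _ = Real.sqrt Y * (2 * Real.log Y ^ e) := by ring
      _ ≤ Real.sqrt Y * Real.sqrt Y := mul_le_mul_of_nonneg_left g6 (by positivity)
      _ = Y := hss
  · rw [div_le_iff₀ hlpos] at g7
    have he0 : (0 : ℝ) ≤ e := Nat.cast_nonneg e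
    have h9 : (e : ℝ) * (1 / (4 * (e + 1)) * Real.log Y) ≤ Real.log Y / 4 := by
      have h10 : (e : ℝ) / (e + 1) ≤ 1 := by
        rw [div_le_one (by linarith)]
        linarith
      have h11 : (e : ℝ) * (1 / (4 * (e + 1)) * Real.log Y) = (e : ℝ) / (e + 1) * (Real.log Y / 4) := by
        field_simp
      rw [h11]
      exact mul_le_of_le_one_left (by linarith) h10
    exact (mul_le_mul_of_nonneg_left g7 he0).trans h9
  · have e1 : (1 + ε) * ((1 - 2 / Real.log Y) * (Real.log Y - e * Real.log (Real.log Y))) =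
        ((1 + ε) * ((1 - 2 / Real.log Y) * (1 - e * (Real.log (Real.log Y) / Real.log Y)))) * Real.log Y := by
      field_simp
    rw [e1]
    nlinarith

/-- the comparison, for a function `F` with the properties of row L4 -/
private theorem l5_main (k e U Y N : ℕ) (S : Finset ℕ) (he : 3 ≤ e) (ε : ℝ) (F : ℕ → ℝ)
    (hF0 : ∀ n, 1 ≤ n → 0 ≤ F n ∧ F n ≤ 1)
    (hF1 : ∀ n, 1 ≤ n → F n ≠ 0 → EL k U S n)
    (hF2 : ∀ n, 1 ≤ n → EL k U S n → 8 * (Y : ℝ) / (Real.log Y) ^ e ≤ n → n ≤ Y → 1 - 2 / Real.log Y ≤ F n)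
    (hYN : Y < N) (hN : (N : ℝ) ≤ Y + Real.sqrt Y)
    (hε : 0 < ε) (g1 : (1 : ℝ) ≤ Y) (g2 : 10 ≤ Real.log Y) (g3 : 2 / Real.log Y ≤ ε)
    (g6 : Real.sqrt Y + 1 ≤ Y / Real.log Y ^ e)
    (g7 : e * Real.log (Real.log Y) ≤ Real.log Y / 4)
    (g8 : Real.log Y ≤ (1 + ε) * ((1 - 2 / Real.log Y) * (Real.log Y - e * Real.log (Real.log Y)))) :
    |∑ p ∈ range N, F (N - p) * G3.lp p - Real.log Y * TL k U S N| ≤
      ε * |∑ p ∈ range N, F (N - p) * G3.lp p| + Y / (Real.log Y) ^ (e - 2) := by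
  classical
  set l := Real.log Y with hl
  set W := ∑ p ∈ range N, F (N - p) * G3.lp p with hW
  have hlpos : 0 < l := by linarith
  have hYpos : (0 : ℝ) < Y := by linarith
  have hterm : ∀ p ∈ range N, 0 ≤ F (N - p) * G3.lp p := by
    intro p hp
    rw [mem_range] at hp
    exact mul_nonneg (hF0 _ (by omega)).1 (l5_lp_nonneg p)
  have hW0 : 0 ≤ W := sum_nonneg hterm
  rw [abs_of_nonneg hW0]
  -- `log N ≤ l + 1`
  have hsq : Real.sqrt Y ≤ Y := by
    rw [Real.sqrt_le_left (by linarith)]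
    nlinarith
  have hN2 : (N : ℝ) ≤ 2 * Y := by linarith
  have hlogN : Real.log N ≤ l + 1 := by
    have h1 : (0 : ℝ) < N := by exact_mod_cast (by omega : 0 < N)
    have h2 := Real.log_le_log h1 hN2
    rw [Real.log_mul (by norm_num) hYpos.ne'] at h2
    have h3 := Real.log_two_lt_d9
    linarith
  have hlogN0 : 0 ≤ Real.log N := Real.log_nonneg (by exact_mod_cast (by omega : 1 ≤ N))
  -- the set counted by `TL`
  set ST := (range N).filter fun p => p.Prime ∧ EL k U S (N - p) with hST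
  have hTT : TL k U S N = ST.card := by
    rw [hST]
    unfold TL
    congr 1
  rw [hTT]
  set T : ℝ := (ST.card : ℝ) with hT
  have hT0 : 0 ≤ T := Nat.cast_nonneg _
  -- (1) the upper bound for `W`
  have hup : W ≤ T * Real.log N := by
    have h1 : W ≤ ∑ p ∈ range N, if p ∈ ST then Real.log N else 0 := by
      refine sum_le_sum fun p hp => ?_
      rw [mem_range] at hp
      have hn : 1 ≤ N - p := by omega
      by_cases hmem : p ∈ ST
      · rw [if_pos hmem]
        calc F (N - p) * G3.lp p ≤ 1 * G3.lp p := mul_le_mul_of_nonneg_right (hF0 _ hn).2 (l5_lp_nonneg p)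
          _ ≤ Real.log N := by
              rw [one_mul]
              exact l5_lp_le hp
      · rw [if_neg hmem]
        apply le_of_eq
        by_cases hpp : p.Prime
        · have h2 : F (N - p) = 0 := by
            by_contra h3
            apply hmem
            rw [hST, mem_filter, mem_range]
            exact ⟨hp, hpp, hF1 _ hn h3⟩
          rw [h2, zero_mul]
        · have h2 : G3.lp p = 0 := by
            unfold G3.lp
            rw [if_neg hpp]
          rw [h2, mul_zero]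
    have h2 : ∑ p ∈ range N, (if p ∈ ST then Real.log N else 0) = (ST.card : ℝ) * Real.log N := by
      rw [← sum_filter, sum_const, nsmul_eq_mul]
      congr 2
      congr 1
      ext p
      rw [mem_filter]
      exact ⟨fun h => h.2, fun h => ⟨(mem_filter.1 h).1, h⟩⟩
    rw [h2] at h1
    exact h1
  -- (2) the lower bound
  set S' := ST.filter fun p => 8 * (Y : ℝ) / l ^ e ≤ ((N - p : ℕ) : ℝ) ∧ N - p ≤ Y ∧ (Y : ℝ) / l ^ e ≤ p with hS'
  set T' : ℝ := (S'.card : ℝ) with hT'
  have hT'0 : 0 ≤ T' := Nat.cast_nonneg _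
  have hYl : 0 ≤ (Y : ℝ) / l ^ e := by positivity
  have h8Yl : 0 ≤ 8 * (Y : ℝ) / l ^ e := by positivity
  have hTT' : T ≤ T' + 10 * (Y / l ^ e) := by
    set S1 := (range N).filter fun p => ((N - p : ℕ) : ℝ) < 8 * (Y : ℝ) / l ^ e with hS1
    set S2 := (range N).filter fun p => Y < N - p with hS2
    set S3 := (range N).filter fun p : ℕ => (p : ℝ) < (Y : ℝ) / l ^ e with hS3
    have hsub : ST ⊆ S' ∪ (S1 ∪ (S2 ∪ S3)) := by
      intro p hp
      have hpr : p ∈ range N := (mem_filter.1 hp).1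
      by_cases a1 : 8 * (Y : ℝ) / l ^ e ≤ ((N - p : ℕ) : ℝ)
      · by_cases a2 : N - p ≤ Y
        · by_cases a3 : (Y : ℝ) / l ^ e ≤ p
          · exact mem_union_left _ (mem_filter.2 ⟨hp, a1, a2, a3⟩)
          · exact mem_union_right _ (mem_union_right _ (mem_union_right _ (mem_filter.2 ⟨hpr, not_le.1 a3⟩)))
        · exact mem_union_right _ (mem_union_right _ (mem_union_left _ (mem_filter.2 ⟨hpr, not_le.1 a2⟩)))
      · exact mem_union_right _ (mem_union_left _ (mem_filter.2 ⟨hpr, not_le.1 a1⟩))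
    have hc : ST.card ≤ S'.card + (S1.card + (S2.card + S3.card)) := by
      refine (card_le_card hsub).trans ((card_union_le _ _).trans ?_)
      refine Nat.add_le_add_left ((card_union_le _ _).trans ?_) _
      exact Nat.add_le_add_left (card_union_le _ _) _
    have hc1 : (S1.card : ℝ) ≤ 8 * (Y : ℝ) / l ^ e := by
      have h1 : S1.card ≤ (Icc 1 ⌊8 * (Y : ℝ) / l ^ e⌋₊).card := by
        refine card_le_card_of_injOn (fun p => N - p) ?_ ?_
        · intro p hp
          have hp' : p ∈ S1 := by simpa using hp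
          rw [hS1, mem_filter, mem_range] at hp'
          have h2 : N - p ∈ Icc 1 ⌊8 * (Y : ℝ) / l ^ e⌋₊ := by
            rw [mem_Icc]
            exact ⟨by omega, Nat.le_floor hp'.2.le⟩
          simpa using h2
        · intro p hp p' hp' h
          have h1 : p ∈ S1 := by simpa using hp
          have h2 : p' ∈ S1 := by simpa using hp'
          rw [hS1, mem_filter, mem_range] at h1 h2
          simp only at h
          omega
      rw [Nat.card_Icc, Nat.add_sub_cancel] at h1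
      exact (Nat.cast_le.2 h1).trans (Nat.floor_le h8Yl)
    have hc2 : (S2.card : ℝ) ≤ Real.sqrt Y := by
      have h1 : S2 ⊆ range (N - Y) := by
        intro p hp
        rw [hS2, mem_filter, mem_range] at hp
        rw [mem_range]
        omega
      have h2 := card_le_card h1
      rw [card_range] at h2
      have h3 : (S2.card : ℝ) ≤ ((N - Y : ℕ) : ℝ) := Nat.cast_le.2 h2
      rw [Nat.cast_sub hYN.le] at h3
      linarith
    have hc3 : (S3.card : ℝ) ≤ (Y : ℝ) / l ^ e + 1 := by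
      have h1 : S3 ⊆ range ⌈(Y : ℝ) / l ^ e⌉₊ := by
        intro p hp
        rw [hS3, mem_filter] at hp
        rw [mem_range]
        exact Nat.lt_ceil.2 hp.2
      have h2 := card_le_card h1
      rw [card_range] at h2
      exact (Nat.cast_le.2 h2).trans (Nat.ceil_lt_add_one hYl).le
    have hc' : T ≤ T' + ((S1.card : ℝ) + ((S2.card : ℝ) + (S3.card : ℝ))) := by
      have := (Nat.cast_le (α := ℝ)).2 hc
      push_cast at this
      exact this
    have h9 : 8 * (Y : ℝ) / l ^ e = 8 * (Y / l ^ e) := by ring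
    rw [h9] at hc1
    linarith
  have hllog : Real.log (l ^ e) = e * Real.log l := by rw [Real.log_pow]
  have hfac0 : 0 ≤ 1 - 2 / l := by
    have : 2 / l ≤ 1 := by
      rw [div_le_one hlpos]
      linarith
    linarith
  have hlow : T' * ((1 - 2 / l) * (l - e * Real.log l)) ≤ W := by
    have h1 : ∑ p ∈ S', (1 - 2 / l) * (l - e * Real.log l) ≤ ∑ p ∈ S', F (N - p) * G3.lp p := by
      refine sum_le_sum fun p hp => ?_
      rw [hS', mem_filter] at hp
      obtain ⟨hpT, a1, a2, a3⟩ := hp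
      rw [hST, mem_filter, mem_range] at hpT
      obtain ⟨hpN, hpp, hEE⟩ := hpT
      have h2 := hF2 (N - p) (by omega) hEE a1 a2
      have h3 : l - e * Real.log l ≤ G3.lp p := by
        unfold G3.lp
        rw [if_pos hpp]
        have h4 : 0 < (Y : ℝ) / l ^ e := by positivity
        have h5 := Real.log_le_log h4 a3
        rw [Real.log_div hYpos.ne' (by positivity), hllog] at h5
        exact h5
      have h4 : 0 ≤ l - e * Real.log l := by linarith
      exact mul_le_mul h2 h3 h4 (hfac0.trans h2)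
    rw [sum_const, nsmul_eq_mul] at h1
    refine h1.trans ?_
    refine sum_le_sum_of_subset_of_nonneg ?_ fun p hp _ => hterm p hp
    intro p hp
    exact (mem_filter.1 (mem_filter.1 hp).1).1
  -- conclusion
  have hlT' : l * T' ≤ (1 + ε) * W := by
    calc l * T' ≤ (1 + ε) * ((1 - 2 / l) * (l - e * Real.log l)) * T' := mul_le_mul_of_nonneg_right g8 hT'0
      _ = (1 + ε) * (T' * ((1 - 2 / l) * (l - e * Real.log l))) := by ring
      _ ≤ (1 + ε) * W := mul_le_mul_of_nonneg_left hlow (by linarith)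
  have hfac : l / 2 ≤ (1 - 2 / l) * (l - e * Real.log l) := by
    have h1 : 2 / 3 ≤ 1 - 2 / l := by
      have : 2 / l ≤ 1 / 3 := by
        rw [div_le_div_iff₀ hlpos (by norm_num)]
        linarith
      linarith
    have h2 : 3 / 4 * l ≤ l - e * Real.log l := by linarith
    calc l / 2 = 2 / 3 * (3 / 4 * l) := by ring
      _ ≤ (1 - 2 / l) * (l - e * Real.log l) := mul_le_mul h1 h2 (by positivity) hfac0
  have hT'W : T' ≤ 2 / l * W := by
    have h1 : T' * (l / 2) ≤ W := (mul_le_mul_of_nonneg_left hfac hT'0).trans hlow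
    rw [div_mul_eq_mul_div, le_div_iff₀ hlpos]
    linarith
  have hpow : (Y : ℝ) / l ^ (e - 2) = l ^ 2 * (Y / l ^ e) := by
    have h1 : l ^ e = l ^ 2 * l ^ (e - 2) := by
      rw [← pow_add]
      congr 1
      omega
    rw [h1]
    field_simp
  have hX1 : 10 * ((Y : ℝ) / l ^ e) ≤ Y / l ^ (e - 2) := by
    rw [hpow]
    refine mul_le_mul_of_nonneg_right ?_ hYl
    nlinarith
  have hX2 : l * (10 * ((Y : ℝ) / l ^ e)) ≤ Y / l ^ (e - 2) := by
    rw [hpow, ← mul_assoc]
    refine mul_le_mul_of_nonneg_right ?_ hYl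
    nlinarith
  have hWε : 2 / l * W ≤ ε * W := mul_le_mul_of_nonneg_right g3 hW0
  rw [abs_le]
  constructor
  · -- `l T - W` is small
    have h1 : l * T ≤ l * T' + l * (10 * (Y / l ^ e)) := by
      rw [← mul_add]
      exact mul_le_mul_of_nonneg_left hTT' hlpos.le
    linarith
  · -- `W - l T` is small
    have h1 : W ≤ T * (l + 1) := hup.trans (mul_le_mul_of_nonneg_left hlogN hT0)
    linarith

theorem l5 (k e c1 : ℕ) (hk : 2 ≤ k) (he : 3 ≤ e) (ε : ℝ) (hε : 0 < ε) : ∃ x0 : ℝ, ∀ Y : ℕ, x0 ≤ Y →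
    ∀ (U w' : ℕ) (S : Finset ℕ), RgL Y U w' c1 (1000 * k) S → ∀ N : ℕ, Y < N → (N : ℝ) ≤ Y + Real.sqrt Y →
      |∑ b ∈ IL Y e k U S, WL k U S b N - Real.log Y * TL k U S N| ≤
        ε * |∑ b ∈ IL Y e k U S, WL k U S b N| + Y / (Real.log Y) ^ (e - 2) := by
  obtain ⟨x1, hx1⟩ := l4 k e c1 hk
  obtain ⟨x2, hx2⟩ := l5_large e ε hε
  refine ⟨max x1 x2, fun Y hY U w' S hR N hYN hN => ?_⟩
  obtain ⟨g1, g2, g3, g6, g7, g8⟩ := hx2 Y ((le_max_right _ _).trans hY)
  have h4 := hx1 Y ((le_max_left _ _).trans hY) U w' S hR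
  rw [l5_sum]
  exact l5_main k e U Y N S he ε (fun n => ∑ b ∈ IL Y e k U S, bL k U S b n) (fun n hn => (h4 n hn).1) (fun n hn => (h4 n hn).2.1)
    (fun n hn => (h4 n hn).2.2) hYN hN hε g1 g2 g3 g6 g7 g8

end Pool.Agent.Lib.G8
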