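import Pool.Agent.Lib.G5.AsyG
import Pool.Agent.Lib.G5.Q8
import Pool.Agent.Lib.G8.L0
import Pool.Agent.Lib.G8.L3
import Pool.Agent.Lib.G8.L5

/-!
# G8, row L6 (copy of G5/R6.lean): the asymptotic formula in a short window, for the typical `n`

PROOF IN WORDS. As R6 with `e = B + 6`, `asyG (A + B + 12) e`, l0 (in the place of r0), l3, l5. `M = max (M of l3) (1000 k)` (`U^M ≤ Y` implies both, `U ≥ 1` if `S` is not empty; if `S` is empty everything is `0`).
Exceptional set: union over the blocks, at most `l^4 H/l^(A+B+12) ≤ H/l^A`. For the other even `N`: `|W - SS N D| ≤ l^4 Y/l^(A+B+12) ≤ Y/l^(B+8)`, `|D - Y/l sL| ≤ ε' Y/l sL`, `|W - l T| ≤ ε' |W| + Y/l^(B+4)`,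
`SS N ≥ 1/2` (q8). So `|l T - SS sL Y/l| ≤ 4 ε' SS sL Y/l + 3 Y/l^(B+4)`; divide by `l`: `3 Y/l^(B+5) ≤ ε SS Y/l^(B+2)` for large `Y`.
-/

set_option autoImplicit false

open Finset

namespace Pool.Agent.Lib.G8

open Pool.Agent.Lib.G3 (SS)

private theorem l6_num {W D T S s P l e η : ℝ} (hP : 0 < P) (hS : 1 / 2 ≤ S) (he : 0 < e) (he1 : e ≤ 1) (hη : 0 ≤ η)
    (h1 : |W - S * D| ≤ η * P) (h2 : |D - P * s| ≤ e * (P * s))
    (h3 : |W - l * T| ≤ e * |W| + η * P) : |l * T - S * s * P| ≤ 3 * e * (S * s * P) + 3 * (η * P) := by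
  obtain ⟨q, hq⟩ : ∃ q, q = P * s := ⟨_, rfl⟩
  rw [← hq] at h2
  have hq0 : 0 ≤ q := by
    have : 0 ≤ e * q := (abs_nonneg _).trans h2
    exact nonneg_of_mul_nonneg_right this he
  have hS0 : 0 ≤ S := by linarith
  have hηP : 0 ≤ η * P := by positivity
  have hD : |D| ≤ 2 * q := by
    have h : |D| ≤ |D - q| + |q| := by
      have := abs_add_le (D - q) q
      simpa using this
    rw [abs_of_nonneg hq0] at h
    have h' : e * q ≤ 1 * q := mul_le_mul_of_nonneg_right he1 hq0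
    linarith
  have hW : |W| ≤ 2 * (S * q) + η * P := by
    have h : |W| ≤ |W - S * D| + |S * D| := by
      have := abs_add_le (W - S * D) (S * D)
      simpa using this
    rw [abs_mul, abs_of_nonneg hS0] at h
    have h' : S * |D| ≤ S * (2 * q) := mul_le_mul_of_nonneg_left hD hS0
    linarith
  have e1 : S * s * P = S * q := by rw [hq]; ring
  rw [e1]
  have e2 : l * T - S * q = -(W - l * T) + (W - S * D) + S * (D - q) := by ring
  rw [e2]
  have t1 : |-(W - l * T) + (W - S * D) + S * (D - q)| ≤ |W - l * T| + |W - S * D| + S * |D - q| := by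
    refine (abs_add_le _ _).trans ?_
    rw [abs_mul, abs_of_nonneg hS0]
    refine add_le_add ?_ le_rfl
    refine (abs_add_le _ _).trans ?_
    rw [abs_neg]
  refine t1.trans ?_
  have t2 : S * |D - q| ≤ S * (e * q) := mul_le_mul_of_nonneg_left h2 hS0
  have t3 : e * |W| ≤ e * (2 * (S * q) + η * P) := mul_le_mul_of_nonneg_left hW he.le
  have t4 : e * (η * P) ≤ 1 * (η * P) := mul_le_mul_of_nonneg_right he1 hηP
  nlinarith

theorem l6 (k A B : ℕ) (hk : 2 ≤ k) : ∃ c10 : ℕ, ∀ c1 : ℕ, c10 ≤ c1 → ∃ C : ℕ, ∀ ε : ℝ, 0 < ε → ∃ (M : ℕ) (x0 : ℝ), ∀ Y : ℕ, x0 ≤ Y →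
    ∀ (U w' : ℕ) (S : Finset ℕ), RgL Y U w' c1 M S → ∀ H : ℕ, (w' : ℝ) * (Real.log Y) ^ C ≤ H → 2 * (H : ℝ) ≤ Real.sqrt Y →
      (((Ioc Y (Y + H)).filter fun N => Even N ∧ ε * (SS N * (sL k U S + 1 / (Real.log Y) ^ B) * (Y / (Real.log Y) ^ 2)) <
        |(TL k U S N : ℝ) - SS N * sL k U S * (Y / (Real.log Y) ^ 2)|).card : ℝ) ≤ H / (Real.log Y) ^ A := by
  obtain ⟨c10, hc10⟩ := G5.asyG (A + B + 12) (B + 6)
  refine ⟨c10, fun c1 hc1 => ?_⟩
  obtain ⟨C, x1, hA⟩ := hc10 c1 hc1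
  refine ⟨C, fun ε hε => ?_⟩
  obtain ⟨x2, h0⟩ := l0 k (B + 6) c1 hk
  obtain ⟨e, he⟩ : ∃ e : ℝ, e = min ε 1 / 6 := ⟨_, rfl⟩
  have he0 : 0 < e := by rw [he]; positivity
  have he1 : e ≤ 1 := by
    have : min ε 1 ≤ 1 := min_le_right _ _
    rw [he]; linarith
  have heε : 3 * e ≤ ε := by
    have : min ε 1 ≤ ε := min_le_left _ _
    rw [he]; linarith
  obtain ⟨M3, x3, h3⟩ := l3 k (B + 6) c1 hk (by omega) e he0
  obtain ⟨x4, h5⟩ := l5 k (B + 6) c1 hk (by omega) e he0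
  refine ⟨max M3 (1000 * k), max x1 (max x2 (max x3 (max x4 (Real.exp (max 1 (6 / ε)))))), ?_⟩
  intro Y hY U w' S hR0 H hH hH2
  simp only [max_le_iff] at hY
  obtain ⟨y1, y2, y3, y4, y5⟩ := hY
  have hY0 : (0 : ℝ) < Y := lt_of_lt_of_le (Real.exp_pos _) y5
  have hYn : 1 ≤ Y := by exact_mod_cast hY0
  have hl : max 1 (6 / ε) ≤ Real.log Y := (Real.le_log_iff_exp_le hY0).2 y5
  obtain ⟨l, hll⟩ : ∃ l : ℝ, l = Real.log Y := ⟨_, rfl⟩
  have hl1 : 1 ≤ l := by rw [hll]; exact (le_max_left _ _).trans hl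
  have hl2 : 6 / ε ≤ l := by rw [hll]; exact (le_max_right _ _).trans hl
  have hl0 : 0 < l := by linarith
  have hpow : ∀ M' : ℕ, M' ≤ max M3 (1000 * k) → U ^ M' ≤ Y := by
    intro M' hM'
    rcases Nat.eq_zero_or_pos U with hU | hU
    · rw [hU]
      rcases Nat.eq_zero_or_pos M' with hM | hM
      · rw [hM, pow_zero]; exact hYn
      · rw [zero_pow hM.ne']; exact Nat.zero_le _
    · exact (Nat.pow_le_pow_right hU hM').trans hR0.h3
  have hR3 : RgL Y U w' c1 M3 S := ⟨hR0.hS, hR0.h2, hpow _ (le_max_left _ _)⟩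
  have hR : RgL Y U w' c1 (1000 * k) S := ⟨hR0.hS, hR0.h2, hpow _ (le_max_right _ _)⟩
  obtain ⟨hB, hcard⟩ := h0 Y y2 U w' S hR
  rw [← hll] at hcard
  -- the exceptional set
  have hsub : ((Ioc Y (Y + H)).filter fun N => Even N ∧ ε * (SS N * (sL k U S + 1 / (Real.log Y) ^ B) * (Y / (Real.log Y) ^ 2)) <
        |(TL k U S N : ℝ) - SS N * sL k U S * (Y / (Real.log Y) ^ 2)|) ⊆
      (IL Y (B + 6) k U S).biUnion fun b => (Ioc Y (Y + H)).filter fun N =>
        (Y : ℝ) / (Real.log Y) ^ (A + B + 12) <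
          |G5.WS (SL S b.1) (aL k U b.1) (2 ^ b.2.2) (2 ^ b.2.1) N -
            SS N * G5.DD (SL S b.1) (aL k U b.1) (2 ^ b.2.2) (2 ^ b.2.1) N| := by
    intro N hN
    rw [mem_filter] at hN
    obtain ⟨hNI, hev, hbig⟩ := hN
    by_contra hno
    apply absurd hbig
    rw [not_lt]
    have hgood : ∀ b ∈ IL Y (B + 6) k U S, |WL k U S b N - SS N * DL k U S b N| ≤ Y / l ^ (A + B + 12) := by
      intro b hb
      by_contra hlt
      rw [not_le] at hlt
      apply hno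
      rw [mem_biUnion]
      refine ⟨b, hb, mem_filter.2 ⟨hNI, ?_⟩⟩
      rw [← hll]
      exact hlt
    have hN1 : Y < N := (mem_Ioc.1 hNI).1
    have hN2 : (N : ℝ) ≤ Y + Real.sqrt Y := by
      have h : (N : ℝ) ≤ Y + H := by exact_mod_cast (mem_Ioc.1 hNI).2
      have : (0 : ℝ) ≤ H := Nat.cast_nonneg _
      linarith
    have q3' := h3 Y y3 U w' S hR3 N hN1 hN2
    have q5' := h5 Y y4 U w' S hR N hN1 hN2
    rw [← hll] at q3' q5'
    have hP : 0 < (Y : ℝ) / l := by positivity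
    have hη0 : (0 : ℝ) ≤ 1 / l ^ (B + 3) := by positivity
    have hW1 : |∑ b ∈ IL Y (B + 6) k U S, WL k U S b N - SS N * ∑ b ∈ IL Y (B + 6) k U S, DL k U S b N| ≤
        1 / l ^ (B + 3) * (Y / l) := by
      rw [mul_sum, ← sum_sub_distrib]
      refine (abs_sum_le_sum_abs _ _).trans ?_
      refine (sum_le_sum hgood).trans ?_
      rw [sum_const, nsmul_eq_mul]
      have hpos : (0 : ℝ) ≤ Y / l ^ (A + B + 12) := by positivity
      refine (mul_le_mul_of_nonneg_right hcard hpos).trans ?_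
      have hAe : (1 : ℝ) ≤ l ^ (A + 4) := one_le_pow₀ hl1
      rw [← mul_div_assoc, div_le_iff₀ (by positivity)]
      have e1 : 1 / l ^ (B + 3) * (Y / l) * l ^ (A + B + 12) = (Y * l ^ 4) * l ^ (A + 4) := by
        field_simp
        ring
      rw [e1]
      calc l ^ 4 * (Y : ℝ) = (Y * l ^ 4) * 1 := by ring
        _ ≤ (Y * l ^ 4) * l ^ (A + 4) := by gcongr
    have hW3 : |∑ b ∈ IL Y (B + 6) k U S, WL k U S b N - l * TL k U S N| ≤
        e * |∑ b ∈ IL Y (B + 6) k U S, WL k U S b N| + 1 / l ^ (B + 3) * (Y / l) := by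
      refine q5'.trans (le_of_eq ?_)
      have e1 : B + 6 - 2 = B + 3 + 1 := by omega
      rw [e1, pow_succ]
      congr 1
      field_simp
    have hmain := l6_num hP (G5.q8 N hev) he0 he1 hη0 hW1 q3' hW3
    have hS := G5.q8 N hev
    rw [← hll]
    have hs0 : 0 ≤ (Y : ℝ) / l * sL k U S := by
      have : 0 ≤ e * (Y / l * sL k U S) := (abs_nonneg _).trans q3'
      exact nonneg_of_mul_nonneg_right this he0
    have e2 : (TL k U S N : ℝ) - SS N * sL k U S * (Y / l ^ 2) =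
        (l * (TL k U S N : ℝ) - SS N * sL k U S * (Y / l)) / l := by
      field_simp
    rw [e2, abs_div, abs_of_pos hl0, div_le_iff₀ hl0]
    refine hmain.trans ?_
    have e3 : ε * (SS N * (sL k U S + 1 / l ^ B) * (Y / l ^ 2)) * l =
        ε * (SS N * (Y / l * sL k U S)) + ε * SS N * (1 / l ^ B * (Y / l)) := by
      field_simp
    rw [e3]
    have t1 : 3 * e * (SS N * sL k U S * (Y / l)) ≤ ε * (SS N * (Y / l * sL k U S)) := by
      have e4 : SS N * sL k U S * (Y / l) = SS N * (Y / l * sL k U S) := by ring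
      rw [e4]
      refine mul_le_mul_of_nonneg_right heε ?_
      exact mul_nonneg (by linarith) hs0
    have t2 : 3 * (1 / l ^ (B + 3) * (Y / l)) ≤ ε * SS N * (1 / l ^ B * (Y / l)) := by
      have e5 : 3 * (1 / l ^ (B + 3) * (Y / l)) = (3 / l ^ 3) * (1 / l ^ B * (Y / l)) := by
        rw [pow_add]
        field_simp
      rw [e5]
      refine mul_le_mul_of_nonneg_right ?_ (by positivity)
      rw [div_le_iff₀ (by positivity)]
      have t3 : 6 ≤ l * ε := by rwa [div_le_iff₀ hε] at hl2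
      have t4 : l ≤ l ^ 3 := by
        calc l = l ^ 1 := (pow_one l).symm
          _ ≤ l ^ 3 := pow_le_pow_right₀ hl1 (by norm_num)
      have t5 : l * ε ≤ l ^ 3 * ε := mul_le_mul_of_nonneg_right t4 hε.le
      have t6 : 1 / 2 * (l ^ 3 * ε) ≤ SS N * (l ^ 3 * ε) := mul_le_mul_of_nonneg_right hS (by positivity)
      calc (3 : ℝ) = 1 / 2 * 6 := by norm_num
        _ ≤ 1 / 2 * (l ^ 3 * ε) := by linarith
        _ ≤ SS N * (l ^ 3 * ε) := t6
        _ = _ := by ring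
    linarith
  have hc := (card_le_card hsub).trans card_biUnion_le
  have hc' : ((((Ioc Y (Y + H)).filter fun N => Even N ∧ ε * (SS N * (sL k U S + 1 / (Real.log Y) ^ B) * (Y / (Real.log Y) ^ 2)) <
        |(TL k U S N : ℝ) - SS N * sL k U S * (Y / (Real.log Y) ^ 2)|).card : ℕ) : ℝ) ≤
      ∑ b ∈ IL Y (B + 6) k U S, (((Ioc Y (Y + H)).filter fun N =>
        (Y : ℝ) / (Real.log Y) ^ (A + B + 12) <
          |G5.WS (SL S b.1) (aL k U b.1) (2 ^ b.2.2) (2 ^ b.2.1) N -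
            SS N * G5.DD (SL S b.1) (aL k U b.1) (2 ^ b.2.2) (2 ^ b.2.1) N|).card : ℝ) := by
    exact_mod_cast hc
  refine hc'.trans ?_
  have hterm : ∀ b ∈ IL Y (B + 6) k U S, (((Ioc Y (Y + H)).filter fun N =>
        (Y : ℝ) / (Real.log Y) ^ (A + B + 12) <
          |G5.WS (SL S b.1) (aL k U b.1) (2 ^ b.2.2) (2 ^ b.2.1) N -
            SS N * G5.DD (SL S b.1) (aL k U b.1) (2 ^ b.2.2) (2 ^ b.2.1) N|).card : ℝ) ≤
        H / (Real.log Y) ^ (A + B + 12) := by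
    intro b hb
    obtain ⟨hBb, hPw⟩ := hB b hb
    refine hA Y y1 (2 ^ b.1) (2 ^ b.2.2) (2 ^ b.2.1) (SL S b.1) (aL k U b.1) hBb H ?_ hH2
    refine le_trans (mul_le_mul_of_nonneg_right ?_ ?_) hH
    · exact_mod_cast hPw
    · rw [← hll]
      positivity
  refine (sum_le_sum hterm).trans ?_
  rw [sum_const, nsmul_eq_mul, ← hll]
  have hpos : (0 : ℝ) ≤ H / l ^ (A + B + 12) := by positivity
  refine (mul_le_mul_of_nonneg_right hcard hpos).trans ?_
  rw [← mul_div_assoc, div_le_div_iff₀ (by positivity) (by positivity)]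
  have h4 : (1 : ℝ) ≤ l ^ (B + 8) := one_le_pow₀ hl1
  have hH0 : (0 : ℝ) ≤ H := Nat.cast_nonneg _
  calc l ^ 4 * (H : ℝ) * l ^ A = (H * l ^ A * l ^ 4) * 1 := by ring
    _ ≤ (H * l ^ A * l ^ 4) * l ^ (B + 8) := by gcongr
    _ = H * l ^ (A + B + 12) := by ring

end Pool.Agent.Lib.G8
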