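import Pool.Agent.Lib.G8.LDefs
import Pool.Agent.Lib.G5.Q2
import Pool.Agent.Lib.G3.Mert5

/-!
# G8, row L7: Mertens for the middle primes (compare G6/Mk.lean, G6/Mw.lean)

PROOF IN WORDS. `w = 2^(di q + 1)`, `q ≤ w < 2 q` (`2^(di q) < q ≤ 2^(di q + 1)` for `q ≥ 2`), `λ = log (log N/log q) ≥ log (1/η)`. `mert5` with `ε = 1`: `|sg1 w U - log (log U/log w)| ≤ 1`. `log U = (log Y)/M + O(1)`, so
`log U ≥ log Y/(2M)`, `log Y ≤ log N ≤ 2 log Y`, `log q ≤ log w ≤ 2 log q`: `|log (log U/log w) - λ| ≤ log (2M) + 2 log 2`. So `σ = sg1 w U` satisfies `|σ - λ| ≤ K(M)`, hence `(1 - δ) λ ≤ σ ≤ (1 + δ) λ` if `λ ≥ K(M)/δ`, which holds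
for `η ≤ exp (-K(M)/δ)`. `q2a` (G5/Q2.lean): `σ esy_j (1 - j/(w σ)) ≤ (j+1) esy_(j+1) ≤ σ esy_j`, `w ≥ log Y`; induction: `(1-δ)^j σ^j/j! ≤ esy_j ≤ σ^j/j!` for `j ≤ k - 2`. So `esy_(k-2)` is within
`(1 ± δ)^(2k)` of `λ^(k-2)/(k-2)!`. (`k = 2`: both sides are `1`.)
-/

set_option autoImplicit false

open Finset

namespace Pool.Agent.Lib.G8

open Pool.Agent.Lib.G5 (PP sg1 esy)

/-- the elementary symmetric sums between powers of `sg1` -/
private lemma l7_esy (w w' m : ℕ) (δ : ℝ) (hδ1 : δ ≤ 1) (hw : 1 ≤ w) (hσ : 0 ≤ sg1 w w')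
    (hd : (m : ℝ) / w ≤ δ * sg1 w w') : ∀ j : ℕ, j ≤ m →
      (1 - δ) ^ j * (sg1 w w') ^ j / (Nat.factorial j : ℝ) ≤ esy j w w' ∧ esy j w w' ≤ (sg1 w w') ^ j / (Nat.factorial j : ℝ) := by
  intro j
  induction j with
  | zero => intro _; simp [esy]
  | succ j ih =>
    intro hj
    obtain ⟨h1, h2⟩ := ih (by omega)
    obtain ⟨h3, h4⟩ := Pool.Agent.Lib.G5.q2a j w w' hw
    have hw0 : (0 : ℝ) < w := by exact_mod_cast hw
    have hf : (0 : ℝ) < (Nat.factorial j : ℝ) := by exact_mod_cast Nat.factorial_pos j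
    have hj0 : (0 : ℝ) < (j : ℝ) + 1 := by positivity
    have hδ0 : 0 ≤ 1 - δ := by linarith
    have he0 : 0 ≤ esy j w w' := le_trans (by positivity) h1
    have h5 : (j : ℝ) / w ≤ δ * sg1 w w' := by
      refine le_trans ?_ hd
      have : (j : ℝ) ≤ m := by exact_mod_cast (by omega : j ≤ m)
      gcongr
    have h6 : (1 - δ) * sg1 w w' * esy j w w' ≤ ((j : ℝ) + 1) * esy (j + 1) w w' := by
      have := mul_le_mul_of_nonneg_right h5 he0
      nlinarith
    have h7 : ((j : ℝ) + 1) * esy (j + 1) w w' ≤ sg1 w w' * esy j w w' := by linarith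
    rw [Nat.factorial_succ]
    push_cast
    constructor
    · rw [div_le_iff₀ (by positivity)]
      rw [div_le_iff₀ hf] at h1
      calc (1 - δ) ^ (j + 1) * sg1 w w' ^ (j + 1) = (1 - δ) * sg1 w w' * ((1 - δ) ^ j * sg1 w w' ^ j) := by ring
        _ ≤ (1 - δ) * sg1 w w' * (esy j w w' * (Nat.factorial j : ℝ)) := by gcongr
        _ = ((1 - δ) * sg1 w w' * esy j w w') * (Nat.factorial j : ℝ) := by ring
        _ ≤ (((j : ℝ) + 1) * esy (j + 1) w w') * (Nat.factorial j : ℝ) := by gcongr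
        _ = esy (j + 1) w w' * (((j : ℝ) + 1) * (Nat.factorial j : ℝ)) := by ring
    · rw [le_div_iff₀ (by positivity)]
      rw [le_div_iff₀ hf] at h2
      calc esy (j + 1) w w' * (((j : ℝ) + 1) * (Nat.factorial j : ℝ)) = (((j : ℝ) + 1) * esy (j + 1) w w') * (Nat.factorial j : ℝ) := by ring
        _ ≤ (sg1 w w' * esy j w w') * (Nat.factorial j : ℝ) := by gcongr
        _ = sg1 w w' * (esy j w w' * (Nat.factorial j : ℝ)) := by ring
        _ ≤ sg1 w w' * sg1 w w' ^ j := by gcongr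
        _ = sg1 w w' ^ (j + 1) := by ring

/-- a small `δ` -/
private lemma l7_delta (m : ℕ) (ε : ℝ) (hε : 0 < ε) : ∃ δ : ℝ, 0 < δ ∧ δ ≤ 1 ∧ (1 + δ) ^ m ≤ 1 + ε ∧
    1 - ε ≤ (1 - δ) ^ m * (1 - δ) ^ m := by
  have h1 : Filter.Tendsto (fun δ : ℝ => (1 + δ) ^ m) (nhdsWithin 0 (Set.Ioi 0)) (nhds 1) := by
    have : ContinuousAt (fun δ : ℝ => (1 + δ) ^ m) 0 := by fun_prop
    have h := this.tendsto.mono_left (nhdsWithin_le_nhds (s := Set.Ioi 0))
    simpa using h
  have h2 : Filter.Tendsto (fun δ : ℝ => (1 - δ) ^ m * (1 - δ) ^ m) (nhdsWithin 0 (Set.Ioi 0)) (nhds 1) := by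
    have : ContinuousAt (fun δ : ℝ => (1 - δ) ^ m * (1 - δ) ^ m) 0 := by fun_prop
    have h := this.tendsto.mono_left (nhdsWithin_le_nhds (s := Set.Ioi 0))
    simpa using h
  have e1 := h1.eventually (ge_mem_nhds (show (1 : ℝ) < 1 + ε by linarith))
  have e2 := h2.eventually (le_mem_nhds (show 1 - ε < (1 : ℝ) by linarith))
  have e3 : ∀ᶠ δ : ℝ in nhdsWithin 0 (Set.Ioi 0), 0 < δ := self_mem_nhdsWithin
  have e4 : ∀ᶠ δ : ℝ in nhdsWithin 0 (Set.Ioi 0), δ ≤ 1 := by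
    apply mem_nhdsWithin_of_mem_nhds
    exact ge_mem_nhds (by norm_num)
  obtain ⟨δ, a1, a2, a3, a4⟩ := (e1.and (e2.and (e3.and e4))).exists
  exact ⟨δ, a3, a4, a1, a2⟩

/-- the power of two above `q` -/
private lemma l7_di (q : ℕ) (hq : 2 ≤ q) : q ≤ 2 ^ (di q + 1) ∧ 2 ^ (di q + 1) ≤ 2 * q := by
  unfold di
  constructor
  · have := Nat.lt_pow_succ_log_self (b := 2) (by norm_num) (q - 1)
    simp only [Nat.succ_eq_add_one] at this
    omega
  · have := Nat.pow_log_le_self 2 (x := q - 1) (by omega)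
    rw [pow_succ]
    omega

theorem l7 (k M : ℕ) (hk : 2 ≤ k) (hM : 1 ≤ M) (ε : ℝ) (hε : 0 < ε) : ∃ η : ℝ, 0 < η ∧ ∃ y0 : ℝ, ∀ Y N U q : ℕ, y0 ≤ Y → Y < N → N ≤ 2 * Y →
    U ^ M ≤ Y → Y ≤ (U + 1) ^ M → Real.log Y ≤ q → (q : ℝ) ≤ (Y : ℝ) ^ η →
      |esy (k - 2) (2 ^ (di q + 1)) U - (Real.log (Real.log N / Real.log q)) ^ (k - 2) / (Nat.factorial (k - 2) : ℝ)| ≤
        ε * ((Real.log (Real.log N / Real.log q)) ^ (k - 2) / (Nat.factorial (k - 2) : ℝ)) := by
  obtain ⟨m, rfl⟩ : ∃ m, k = m + 2 := ⟨k - 2, by omega⟩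
  rw [show m + 2 - 2 = m by omega]
  obtain ⟨δ, hδ0, hδ1, hδa, hδb⟩ := l7_delta m ε hε
  obtain ⟨z, hz⟩ := Pool.Agent.Lib.G3.mert5 1 one_pos
  have hM1 : (1 : ℝ) ≤ M := by exact_mod_cast hM
  have hM0 : (0 : ℝ) < M := by linarith
  set K : ℝ := Real.log (8 * M) + 1 with hK
  have hK1 : 1 ≤ K := by
    have : 0 ≤ Real.log (8 * (M : ℝ)) := Real.log_nonneg (by linarith)
    rw [hK]; linarith
  have hKδ : K ≤ K / δ := by
    rw [le_div_iff₀ hδ0]
    nlinarith
  refine ⟨Real.exp (-(K / δ + 4 * M)), Real.exp_pos _, ?_⟩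
  set η : ℝ := Real.exp (-(K / δ + 4 * M)) with hη
  have hη0 : 0 < η := Real.exp_pos _
  have hηM : η * (4 * M) ≤ 1 := by
    have h1 : K / δ + 4 * M + 1 ≤ Real.exp (K / δ + 4 * M) := Real.add_one_le_exp _
    have h2 : η * Real.exp (K / δ + 4 * M) = 1 := by
      rw [hη, ← Real.exp_add]; simp
    have h3 : (4 : ℝ) * M ≤ Real.exp (K / δ + 4 * M) := by linarith
    calc η * (4 * M) ≤ η * Real.exp (K / δ + 4 * M) := by gcongr
      _ = 1 := h2
  have e1 : ∀ᶠ y : ℝ in Filter.atTop, (4 : ℝ) * M + z + 3 + m / δ ≤ Real.log y :=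
    Real.tendsto_log_atTop.eventually_ge_atTop _
  obtain ⟨y0, hy0⟩ := Filter.eventually_atTop.mp e1
  refine ⟨max y0 2, fun Y N U q hY hYN hN2 hUM hYU hql hqY => ?_⟩
  have g1 := hy0 Y ((le_max_left _ _).trans hY)
  have hY2 : (2 : ℝ) ≤ Y := (le_max_right _ _).trans hY
  have hY0 : (0 : ℝ) < Y := by linarith
  set l : ℝ := Real.log Y with hl
  have hz0 : (0 : ℝ) ≤ z := Nat.cast_nonneg _
  have hmδ : 0 ≤ (m : ℝ) / δ := by positivity
  have hl3 : 3 ≤ l := by linarith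
  have hl0 : 0 < l := by linarith
  have hlM : 4 * (M : ℝ) ≤ l := by linarith
  have hq3 : (3 : ℝ) ≤ q := by linarith
  have hq2 : 2 ≤ q := by
    have : (2 : ℝ) ≤ q := by linarith
    exact_mod_cast this
  obtain ⟨hd1, hd2⟩ := l7_di q hq2
  set W : ℕ := 2 ^ (di q + 1) with hW
  have hqW : (q : ℝ) ≤ W := by exact_mod_cast hd1
  have hWq : (W : ℝ) ≤ 2 * q := by exact_mod_cast hd2
  have hl2a : Real.log 2 ≤ 1 := by linarith [Real.log_two_lt_d9]
  have hl2b : 0 ≤ Real.log (2 : ℝ) := Real.log_nonneg (by norm_num)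
  -- the logarithm of q
  have hlq0 : Real.log 2 ≤ Real.log (q : ℝ) := Real.log_le_log (by norm_num) (by linarith)
  have hl2c : 0 < Real.log (2 : ℝ) := Real.log_pos (by norm_num)
  have hlqp : 0 < Real.log (q : ℝ) := by linarith
  have hlqη : Real.log (q : ℝ) ≤ η * l := by
    have h1 := Real.log_le_log (by linarith) hqY
    rwa [Real.log_rpow hY0] at h1
  -- the logarithm of W
  have hlW1 : Real.log (q : ℝ) ≤ Real.log (W : ℝ) := Real.log_le_log (by linarith) hqW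
  have hlW2 : Real.log (W : ℝ) ≤ Real.log 2 + Real.log q := by
    calc Real.log (W : ℝ) ≤ Real.log (2 * q) := Real.log_le_log (by linarith) hWq
      _ = Real.log 2 + Real.log q := Real.log_mul (by norm_num) (by linarith)
  have hlWp : 0 < Real.log (W : ℝ) := by linarith
  -- the logarithm of N
  have hNY : (Y : ℝ) ≤ N := by exact_mod_cast hYN.le
  have hlN1 : l ≤ Real.log N := Real.log_le_log hY0 hNY
  have hlN2 : Real.log (N : ℝ) ≤ 2 * l := by
    have h2 : (N : ℝ) ≤ 2 * Y := by exact_mod_cast hN2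
    calc Real.log (N : ℝ) ≤ Real.log (2 * Y) := Real.log_le_log (by linarith) h2
      _ = Real.log 2 + l := Real.log_mul (by norm_num) (by linarith)
      _ ≤ 2 * l := by linarith
  -- the logarithm of U
  have hlU1 : l ≤ M * Real.log ((U : ℝ) + 1) := by
    have h1 : (Y : ℝ) ≤ ((U : ℝ) + 1) ^ M := by exact_mod_cast hYU
    calc l ≤ Real.log (((U : ℝ) + 1) ^ M) := Real.log_le_log hY0 h1
      _ = M * Real.log ((U : ℝ) + 1) := Real.log_pow _ _
  have hU1 : 1 ≤ U := by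
    rcases Nat.eq_zero_or_pos U with h | h
    · rw [h] at hlU1
      simp at hlU1
      linarith
    · exact h
  have hU1r : (1 : ℝ) ≤ U := by exact_mod_cast hU1
  have hlU2 : l / (2 * M) ≤ Real.log (U : ℝ) := by
    have h1 : Real.log ((U : ℝ) + 1) ≤ Real.log (U : ℝ) + 1 := by
      calc Real.log ((U : ℝ) + 1) ≤ Real.log (2 * U) := Real.log_le_log (by linarith) (by linarith)
        _ = Real.log 2 + Real.log U := Real.log_mul (by norm_num) (by linarith)
        _ ≤ Real.log (U : ℝ) + 1 := by linarith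
    rw [div_le_iff₀ (by linarith)]
    have h2 : l ≤ M * (Real.log (U : ℝ) + 1) := hlU1.trans (by gcongr)
    nlinarith
  have hUY : (U : ℝ) ≤ Y := by
    have h1 : U ≤ U ^ M := Nat.le_self_pow (by omega) U
    exact_mod_cast h1.trans hUM
  have hlU3 : Real.log (U : ℝ) ≤ l := Real.log_le_log (by linarith) hUY
  have hlUp : 0 < l / (2 * M) := by positivity
  have hlU0 : 0 < Real.log (U : ℝ) := by linarith
  -- W is at most U
  have hWU : W ≤ U := by
    have h1 : Real.log (W : ℝ) ≤ Real.log (U : ℝ) := by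
      refine le_trans ?_ hlU2
      rw [le_div_iff₀ (by linarith)]
      have h2 : Real.log (W : ℝ) ≤ 1 + η * l := by linarith
      have h3 : Real.log (W : ℝ) * (2 * M) ≤ (1 + η * l) * (2 * M) := by gcongr
      have h4 : (1 + η * l) * (2 * M) = 2 * M + (η * (4 * M)) * l / 2 := by ring
      have h5 : (η * (4 * M)) * l ≤ 1 * l := by gcongr
      linarith
    have h2 : (W : ℝ) ≤ U := (Real.log_le_log_iff (by linarith) (by linarith)).mp h1
    exact_mod_cast h2
  have hzW : z ≤ W := by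
    have : (z : ℝ) ≤ W := by linarith
    exact_mod_cast this
  have hW1 : 1 ≤ W := by
    have : (1 : ℝ) ≤ W := by linarith
    exact_mod_cast this
  -- Mertens
  have hm := abs_le.mp (hz W U hzW hWU)
  have hrfl : sg1 W U = ∑ p ∈ Pool.Agent.Lib.G3.pi5 W U, (1 : ℝ) / p := rfl
  rw [← hrfl] at hm
  obtain ⟨hm1, hm2⟩ := hm
  set lam : ℝ := Real.log (Real.log N / Real.log q) with hlam
  have hlN0 : 0 < Real.log (N : ℝ) := by linarith
  have hlamlow : K / δ + 4 * M ≤ lam := by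
    have h1 : η⁻¹ ≤ Real.log N / Real.log q := by
      rw [le_div_iff₀ hlqp, inv_mul_le_iff₀ hη0]
      calc Real.log (q : ℝ) ≤ η * l := hlqη
        _ ≤ η * Real.log N := by gcongr
    have h2 := Real.log_le_log (by positivity) h1
    rw [hη, ← Real.exp_neg, Real.log_exp, neg_neg] at h2
    exact h2
  have hup : Real.log (Real.log U / Real.log W) ≤ lam := by
    apply Real.log_le_log (by positivity)
    have : Real.log (U : ℝ) ≤ Real.log N := by linarith
    gcongr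
  have hlow : lam - Real.log (8 * M) ≤ Real.log (Real.log U / Real.log W) := by
    have h1 : Real.log N / Real.log q / (8 * M) ≤ Real.log U / Real.log W := by
      rw [div_div, div_le_div_iff₀ (by positivity) hlWp]
      have h3 : Real.log (W : ℝ) ≤ 2 * Real.log q := by linarith
      have h4 : l ≤ Real.log (U : ℝ) * (2 * M) := by
        rwa [div_le_iff₀ (by linarith)] at hlU2
      calc Real.log N * Real.log W ≤ (2 * l) * (2 * Real.log q) := by gcongr
        _ = (4 * Real.log q) * l := by ring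
        _ ≤ (4 * Real.log q) * (Real.log (U : ℝ) * (2 * M)) := by gcongr
        _ = Real.log U * (Real.log q * (8 * M)) := by ring
    have h2 : Real.log (Real.log N / Real.log q / (8 * M)) = lam - Real.log (8 * M) := by
      rw [Real.log_div (by positivity) (by positivity)]
    have h3 := Real.log_le_log (by positivity) h1
    linarith
  have hKlam : K ≤ δ * lam := by
    have h1 : K / δ ≤ lam := by linarith
    rw [div_le_iff₀ hδ0] at h1
    linarith
  set σ : ℝ := sg1 W U with hσ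
  have hσ1 : 1 ≤ σ := by rw [hK] at hKδ hlamlow; linarith
  have hσlow : (1 - δ) * lam ≤ σ := by rw [hK] at hKlam; linarith
  have hσup : σ ≤ (1 + δ) * lam := by linarith
  have hlam0 : 0 < lam := by linarith
  have hd : (m : ℝ) / W ≤ δ * σ := by
    have hwm : (m : ℝ) / δ ≤ W := by linarith
    have h1 : (m : ℝ) / W ≤ δ := by
      rw [div_le_iff₀ (by linarith)]
      rw [div_le_iff₀ hδ0] at hwm
      linarith
    exact h1.trans (le_mul_of_one_le_right hδ0.le hσ1)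
  obtain ⟨b1, b2⟩ := l7_esy W U m δ hδ1 hW1 (by linarith) hd m le_rfl
  rw [← hσ] at b1 b2
  have hf : (0 : ℝ) < (Nat.factorial m : ℝ) := by exact_mod_cast Nat.factorial_pos m
  have hδ' : 0 ≤ 1 - δ := by linarith
  have hA1 : esy m W U ≤ (1 + ε) * (lam ^ m / (Nat.factorial m : ℝ)) := by
    calc esy m W U ≤ σ ^ m / (Nat.factorial m : ℝ) := b2
      _ ≤ ((1 + δ) * lam) ^ m / (Nat.factorial m : ℝ) := by gcongr
      _ = (1 + δ) ^ m * (lam ^ m / (Nat.factorial m : ℝ)) := by rw [mul_pow]; ring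
      _ ≤ (1 + ε) * (lam ^ m / (Nat.factorial m : ℝ)) := by gcongr
  have hA2 : (1 - ε) * (lam ^ m / (Nat.factorial m : ℝ)) ≤ esy m W U := by
    calc (1 - ε) * (lam ^ m / (Nat.factorial m : ℝ)) ≤ ((1 - δ) ^ m * (1 - δ) ^ m) * (lam ^ m / (Nat.factorial m : ℝ)) := by gcongr
      _ = (1 - δ) ^ m * ((1 - δ) * lam) ^ m / (Nat.factorial m : ℝ) := by rw [mul_pow]; ring
      _ ≤ (1 - δ) ^ m * σ ^ m / (Nat.factorial m : ℝ) := by gcongr
      _ ≤ esy m W U := b1
  rw [abs_le]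
  constructor <;> linarith

end Pool.Agent.Lib.G8
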