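import Pool.Agent.Lib.G8.LDefs

/-!
# G8, row L8b (compare G6/Rq.lean): the sum of `1/Q` over `QL`

PROOF IN WORDS. `l8b0`: `q s ∣ Q` with two primes gives `Ω(Q) ≥ 2`. `l8b`: `Q = q s Q'`, `Ω(Q') = j`, all primes of `Q'` are in `[q, x]`, `s ∈ [q, 2^(di q + 1)]` or `s ∈ (U, x]` (`s ≥ q` as `s ∣ Q`). For fixed `q` the sum over `Q'` of `1/Q'` is at most
`(∑_{q ≤ t ≤ x} 1/t)^j` by induction on `j` (as in G6/Rq.lean); `sg1 (q - 1) v` is the sum over the primes of `[q, v]`.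
-/

set_option autoImplicit false

open Finset

namespace Pool.Agent.Lib.G8

open Pool.Agent.Lib.G5 (PP sg1)

open Classical in
/-- the numbers of `[1, x]` with exactly `j` prime factors, all of them at least `q` -/
private noncomputable def OQ (j q x : ℕ) : Finset ℕ :=
  (Icc 1 x).filter fun Q => ArithmeticFunction.cardFactors Q = j ∧ ∀ s : ℕ, s.Prime → s ∣ Q → q ≤ s

private theorem l8b_mul (A B C : Finset ℕ) (h : ∀ Q ∈ A, ∃ q ∈ B, ∃ Q' ∈ C, Q = q * Q') :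
    ∑ Q ∈ A, (1 : ℝ) / Q ≤ (∑ q ∈ B, (1 : ℝ) / q) * ∑ Q' ∈ C, (1 : ℝ) / Q' := by
  have h1 : A ⊆ (B ×ˢ C).image fun p => p.1 * p.2 := by
    intro Q hQ
    obtain ⟨q, hq, Q', hQ', e⟩ := h Q hQ
    exact mem_image.2 ⟨(q, Q'), mem_product.2 ⟨hq, hQ'⟩, e.symm⟩
  have h2 : ∑ Q ∈ A, (1 : ℝ) / Q ≤ ∑ Q ∈ (B ×ˢ C).image fun p => p.1 * p.2, (1 : ℝ) / Q :=
    sum_le_sum_of_subset_of_nonneg h1 fun i _ _ => by positivity
  have h3 : ∑ Q ∈ (B ×ˢ C).image fun p => p.1 * p.2, (1 : ℝ) / Q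
      ≤ ∑ p ∈ B ×ˢ C, (1 : ℝ) / ((p.1 * p.2 : ℕ) : ℝ) :=
    sum_image_le_of_nonneg (f := fun Q : ℕ => (1 : ℝ) / Q) fun i _ => by positivity
  refine h2.trans (h3.trans (le_of_eq ?_))
  rw [sum_mul_sum, sum_product]
  refine sum_congr rfl fun q _ => sum_congr rfl fun Q' _ => ?_
  push_cast
  rw [one_div_mul_one_div]

/-- a number with a prime factor `s` is `s` times a number with one prime factor less -/
private theorem l8b_div {j x q Q s : ℕ} (h1 : 1 ≤ Q) (h2 : Q ≤ x) (h3 : ArithmeticFunction.cardFactors Q = j + 1)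
    (h4 : ∀ t : ℕ, t.Prime → t ∣ Q → q ≤ t) (hs : s.Prime) (hd : s ∣ Q) :
    q ≤ s ∧ s ≤ x ∧ ∃ Q' ∈ OQ j q x, Q = s * Q' := by
  classical
  have hqs := h4 s hs hd
  obtain ⟨Q', rfl⟩ := hd
  have h5 : Q' ≠ 0 := by
    rintro rfl
    simp at h1
  have h6 : 1 ≤ Q' := Nat.one_le_iff_ne_zero.2 h5
  refine ⟨hqs, (Nat.le_mul_of_pos_right s h6).trans h2, Q', ?_, rfl⟩
  rw [ArithmeticFunction.cardFactors_mul hs.ne_zero h5, ArithmeticFunction.cardFactors_apply_prime hs] at h3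
  unfold OQ
  rw [mem_filter, mem_Icc]
  exact ⟨⟨h6, (Nat.le_mul_of_pos_left Q' hs.pos).trans h2⟩, by omega, fun t ht htd => h4 t ht (htd.mul_left s)⟩

private theorem l8b_un (S : Finset ℕ) (A : ℕ → Finset ℕ) :
    ∑ Q ∈ S.biUnion A, (1 : ℝ) / Q ≤ ∑ q ∈ S, ∑ Q ∈ A q, (1 : ℝ) / Q := by
  classical
  induction S using Finset.induction_on with
  | empty => simp
  | insert a T ha ih =>
    rw [biUnion_insert, sum_insert ha]
    have h := sum_union_inter (s₁ := A a) (s₂ := T.biUnion A) (f := fun Q : ℕ => (1 : ℝ) / Q)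
    have h2 : 0 ≤ ∑ Q ∈ A a ∩ T.biUnion A, (1 : ℝ) / Q := sum_nonneg fun i _ => by positivity
    linarith

private theorem l8b_pp {q s x : ℕ} (hs : s.Prime) (h1 : q ≤ s) (h2 : s ≤ x) : s ∈ PP (q - 1) x := by
  unfold PP
  rw [mem_filter, mem_Ioc]
  have := hs.pos
  exact ⟨⟨by omega, h2⟩, hs⟩

private theorem l8b_sum (q x : ℕ) : ∀ j : ℕ, ∑ Q ∈ OQ j q x, (1 : ℝ) / Q ≤ (sg1 (q - 1) x) ^ j := by
  classical
  intro j
  induction j with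
  | zero =>
    have h : OQ 0 q x ⊆ {1} := by
      intro Q hQ
      unfold OQ at hQ
      rw [mem_filter, mem_Icc] at hQ
      rcases ArithmeticFunction.cardFactors_eq_zero_iff_eq_zero_or_one.1 hQ.2.1 with h | h
      · have := hQ.1.1
        omega
      · rw [h]
        exact mem_singleton_self 1
    refine (sum_le_sum_of_subset_of_nonneg h fun i _ _ => by positivity).trans ?_
    simp
  | succ j ih =>
    have h : ∑ Q ∈ OQ (j + 1) q x, (1 : ℝ) / Q ≤ (∑ t ∈ PP (q - 1) x, (1 : ℝ) / t) * ∑ Q' ∈ OQ j q x, (1 : ℝ) / Q' := by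
      refine l8b_mul _ _ _ ?_
      intro Q hQ
      unfold OQ at hQ
      rw [mem_filter, mem_Icc] at hQ
      have h1 : Q ≠ 1 := by
        rintro rfl
        have := hQ.2.1
        simp at this
      obtain ⟨t, ht, hd⟩ := Nat.exists_prime_and_dvd h1
      obtain ⟨h0, h2, Q', h3, h4⟩ := l8b_div hQ.1.1 hQ.1.2 hQ.2.1 hQ.2.2 ht hd
      exact ⟨t, l8b_pp ht h0 h2, Q', h3, h4⟩
    rw [pow_succ, mul_comm]
    refine h.trans (mul_le_mul_of_nonneg_left ih ?_)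
    exact sum_nonneg fun i _ => by positivity

theorem l8b0 (U x : ℕ) (S : Finset ℕ) (hS : ∀ q ∈ S, q.Prime) : QL 1 U S x = ∅ := by
  classical
  refine eq_empty_of_forall_notMem fun Q hQ => ?_
  unfold QL at hQ
  rw [mem_filter, mem_Icc] at hQ
  obtain ⟨⟨h1, -⟩, h2, q, hq, -, -, s, hs, ⟨Q', rfl⟩, -⟩ := hQ
  have hqp := hS q hq
  have h3 : Q' ≠ 0 := by
    rintro rfl
    simp at h1
  rw [ArithmeticFunction.cardFactors_mul (mul_ne_zero hqp.ne_zero hs.ne_zero) h3,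
    ArithmeticFunction.cardFactors_mul hqp.ne_zero hs.ne_zero, ArithmeticFunction.cardFactors_apply_prime hqp,
    ArithmeticFunction.cardFactors_apply_prime hs] at h2
  omega

theorem l8b (j U x : ℕ) (S : Finset ℕ) (hS : ∀ q ∈ S, q.Prime) : ∑ Q ∈ QL (j + 2) U S x, (1 : ℝ) / Q ≤
    ∑ q ∈ S, 1 / (q : ℝ) * ((sg1 (q - 1) (2 ^ (di q + 1)) + sg1 U x) * (sg1 (q - 1) x) ^ j) := by
  classical
  -- the part of `q`
  let A : ℕ → Finset ℕ := fun q => (QL (j + 2) U S x).filter fun Q =>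
    q ∣ Q ∧ (∀ s : ℕ, s.Prime → s ∣ Q → q ≤ s) ∧ ∃ s : ℕ, s.Prime ∧ q * s ∣ Q ∧ (s ≤ 2 ^ (di q + 1) ∨ U < s)
  let D : ℕ → Finset ℕ := fun q => (OQ (j + 1) q x).filter fun R => ∃ s : ℕ, s.Prime ∧ s ∣ R ∧ (s ≤ 2 ^ (di q + 1) ∨ U < s)
  have hsub : QL (j + 2) U S x ⊆ S.biUnion A := by
    intro Q hQ
    have hQ' := hQ
    unfold QL at hQ'
    rw [mem_filter, mem_Icc] at hQ'
    obtain ⟨-, -, q, hq, h1, h2, h3⟩ := hQ'
    exact mem_biUnion.2 ⟨q, hq, mem_filter.2 ⟨hQ, h1, h2, h3⟩⟩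
  have h0 : ∀ a b : ℕ, 0 ≤ sg1 a b := fun a b => sum_nonneg fun i _ => by positivity
  have hA : ∀ q ∈ S, ∑ Q ∈ A q, (1 : ℝ) / Q ≤
      1 / (q : ℝ) * ((sg1 (q - 1) (2 ^ (di q + 1)) + sg1 U x) * (sg1 (q - 1) x) ^ j) := by
    intro q hq
    have hqp := hS q hq
    have h1 : ∑ Q ∈ A q, (1 : ℝ) / Q ≤ (∑ t ∈ ({q} : Finset ℕ), (1 : ℝ) / t) * ∑ R ∈ D q, (1 : ℝ) / R := by
      refine l8b_mul _ _ _ ?_
      intro Q hQ
      obtain ⟨hQ1, hQ2, hQ3, s, hs, hd, hsU⟩ := mem_filter.1 hQ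
      unfold QL at hQ1
      rw [mem_filter, mem_Icc] at hQ1
      obtain ⟨-, -, R, hR, rfl⟩ := l8b_div hQ1.1.1 hQ1.1.2 hQ1.2.1 hQ3 hqp hQ2
      exact ⟨q, mem_singleton_self q, R, mem_filter.2 ⟨hR, s, hs, Nat.dvd_of_mul_dvd_mul_left hqp.pos hd, hsU⟩, rfl⟩
    have h2 : ∑ R ∈ D q, (1 : ℝ) / R ≤
        (∑ t ∈ PP (q - 1) (2 ^ (di q + 1)) ∪ PP U x, (1 : ℝ) / t) * ∑ Q' ∈ OQ j q x, (1 : ℝ) / Q' := by
      refine l8b_mul _ _ _ ?_
      intro R hR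
      obtain ⟨hR1, s, hs, hd, hsU⟩ := mem_filter.1 hR
      unfold OQ at hR1
      rw [mem_filter, mem_Icc] at hR1
      obtain ⟨h3, h4, Q', h5, h6⟩ := l8b_div hR1.1.1 hR1.1.2 hR1.2.1 hR1.2.2 hs hd
      refine ⟨s, ?_, Q', h5, h6⟩
      rcases hsU with h | h
      · exact mem_union_left _ (l8b_pp hs h3 h)
      · refine mem_union_right _ ?_
        unfold PP
        rw [mem_filter, mem_Ioc]
        exact ⟨⟨h, h4⟩, hs⟩
    have h7 : ∑ t ∈ PP (q - 1) (2 ^ (di q + 1)) ∪ PP U x, (1 : ℝ) / t ≤ sg1 (q - 1) (2 ^ (di q + 1)) + sg1 U x := by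
      have h8 := sum_union_inter (s₁ := PP (q - 1) (2 ^ (di q + 1))) (s₂ := PP U x) (f := fun q : ℕ => (1 : ℝ) / q)
      have h9 : 0 ≤ ∑ t ∈ PP (q - 1) (2 ^ (di q + 1)) ∩ PP U x, (1 : ℝ) / t := sum_nonneg fun i _ => by positivity
      unfold sg1
      linarith
    rw [sum_singleton] at h1
    refine h1.trans (mul_le_mul_of_nonneg_left (h2.trans ?_) (by positivity))
    exact mul_le_mul h7 (l8b_sum q x j) (sum_nonneg fun i _ => by positivity) (add_nonneg (h0 _ _) (h0 _ _))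
  calc ∑ Q ∈ QL (j + 2) U S x, (1 : ℝ) / Q ≤ ∑ Q ∈ S.biUnion A, (1 : ℝ) / Q :=
        sum_le_sum_of_subset_of_nonneg hsub fun i _ _ => by positivity
    _ ≤ ∑ q ∈ S, ∑ Q ∈ A q, (1 : ℝ) / Q := l8b_un S A
    _ ≤ _ := sum_le_sum hA

end Pool.Agent.Lib.G8
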