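import Pool.Agent.Lib.G8.LDefs
import Pool.Agent.Lib.G3.Mert5

/-!
# G8, row L8c (compare G6/Mt.lean): the non typical `Q` have small mass

PROOF IN WORDS. `λ = log (log N/log q) ≥ log (1/η)`. `mert5` with `ε = 1` (`pi5 = PP`): `sg1 (q-1) v ≤ log (log v/log (q-1)) + 1` for `q - 1 ≥ z0`. `2^(di q + 1) < 2 q`: the first term is `≤ log (log (2q)/log (q-1)) + 1 ≤ 2`; `log U ≥ log Y/(2M)`, `log x ≤ 2 log Y`:
`sg1 U x ≤ log (4M) + 1` (`0` if `x < U`); `sg1 (q-1) x ≤ log (2 · 2 log N/log q) + 1 ≤ λ + 3` (`log (q-1) ≥ (1/2) log q`; `0` if `x < q`). So the left side is at most `(log (4M) + 3) (λ + 3)^j ≤ ε λ^(j+1)` if `λ ≥ L0(j, M, ε)`; take `η ≤ exp (-L0)`.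
-/

set_option autoImplicit false

open Finset

namespace Pool.Agent.Lib.G8

open Pool.Agent.Lib.G5 (PP sg1)

private lemma l8c_nonneg (u v : ℕ) : 0 ≤ sg1 u v := by
  unfold sg1
  exact Finset.sum_nonneg fun p _ => by positivity

private lemma l8c_zero {u v : ℕ} (h : v ≤ u) : sg1 u v = 0 := by
  unfold sg1 PP
  rw [Finset.Ioc_eq_empty (by omega)]
  simp

private lemma l8c_mert : ∃ z : ℕ, 3 ≤ z ∧ ∀ u v : ℕ, z ≤ u → u ≤ v →
    sg1 u v ≤ Real.log (Real.log v / Real.log u) + 1 := by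
  obtain ⟨z0, hz⟩ := Pool.Agent.Lib.G3.mert5 1 one_pos
  refine ⟨max z0 3, le_max_right _ _, fun u v hu huv => ?_⟩
  have h := hz u v ((le_max_left _ _).trans hu) huv
  have h2 := (abs_le.mp h).2
  have h3 : sg1 u v = ∑ p ∈ Pool.Agent.Lib.G3.pi5 u v, (1 : ℝ) / p := rfl
  rw [h3]
  linarith

theorem l8c (j M : ℕ) (hM : 1 ≤ M) (ε : ℝ) (hε : 0 < ε) : ∃ η : ℝ, 0 < η ∧ ∃ y0 : ℝ, ∀ Y N U q x : ℕ, y0 ≤ Y → Y < N → x ≤ 2 * Y →
    U ^ M ≤ Y → Y ≤ (U + 1) ^ M → Real.log Y ≤ q → (q : ℝ) ≤ (Y : ℝ) ^ η →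
      (sg1 (q - 1) (2 ^ (di q + 1)) + sg1 U x) * (sg1 (q - 1) x) ^ j ≤ ε * (Real.log (Real.log N / Real.log q)) ^ (j + 1) := by
  obtain ⟨z, hz3, hA⟩ := l8c_mert
  set D : ℝ := Real.log (4 * M) + 3 with hD
  have hM1 : (1 : ℝ) ≤ M := by exact_mod_cast hM
  have hD0 : 0 < D := by
    have : 0 ≤ Real.log (4 * (M : ℝ)) := Real.log_nonneg (by linarith)
    rw [hD]
    linarith
  set L0 : ℝ := max 3 (D * 2 ^ j / ε) with hL0
  have e1 : ∀ᶠ y : ℝ in Filter.atTop, (2 : ℝ) * M + M * Real.log (z + 1) + z + 2 ≤ Real.log y :=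
    Real.tendsto_log_atTop.eventually_ge_atTop _
  obtain ⟨y0, hy0⟩ := Filter.eventually_atTop.mp e1
  refine ⟨Real.exp (-L0), Real.exp_pos _, max y0 2, fun Y N U q x hY hYN hx hU1 hU2 hq1 hq2 => ?_⟩
  have g1 := hy0 Y ((le_max_left _ _).trans hY)
  have hY2 : (2 : ℝ) ≤ Y := (le_max_right _ _).trans hY
  set l : ℝ := Real.log Y with hl
  have hz3' : (3 : ℝ) ≤ z := by exact_mod_cast hz3
  have hlz : 0 ≤ Real.log ((z : ℝ) + 1) := Real.log_nonneg (by linarith)
  have hMlz : 0 ≤ (M : ℝ) * Real.log ((z : ℝ) + 1) := by positivity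
  have hl0 : 0 < l := by linarith
  -- q
  have hqz : z + 1 ≤ q := by
    have : (z : ℝ) + 1 ≤ q := by linarith
    exact_mod_cast this
  have hq3 : (3 : ℝ) ≤ ((q - 1 : ℕ) : ℝ) := by
    have : 3 ≤ q - 1 := by omega
    exact_mod_cast this
  have hqc : ((q - 1 : ℕ) : ℝ) = (q : ℝ) - 1 := by
    rw [Nat.cast_sub (by omega)]
    simp
  have hlq1 : 0 < Real.log ((q - 1 : ℕ) : ℝ) := Real.log_pos (by linarith)
  have hq4 : (4 : ℝ) ≤ q := by linarith
  have hlq0 : 0 < Real.log (q : ℝ) := Real.log_pos (by linarith)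
  have hlq2 : Real.log (q : ℝ) ≤ 2 * Real.log ((q - 1 : ℕ) : ℝ) := by
    calc Real.log (q : ℝ) ≤ Real.log (((q - 1 : ℕ) : ℝ) ^ 2) := by
          apply Real.log_le_log (by linarith)
          rw [hqc]
          nlinarith
      _ = 2 * Real.log ((q - 1 : ℕ) : ℝ) := by
          rw [Real.log_pow]
          norm_num
  have hlqη : Real.log (q : ℝ) ≤ Real.exp (-L0) * l := by
    have h1 := Real.log_le_log (by linarith) hq2
    rwa [Real.log_rpow (by linarith)] at h1
  -- lambda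
  have hlN : l ≤ Real.log (N : ℝ) := by
    apply Real.log_le_log (by linarith)
    exact_mod_cast hYN.le
  set lam : ℝ := Real.log (Real.log N / Real.log q) with hlam
  have hlamL : L0 ≤ lam := by
    rw [hlam, Real.le_log_iff_exp_le (by
      apply div_pos _ hlq0
      linarith), le_div_iff₀ hlq0]
    calc Real.exp L0 * Real.log (q : ℝ) ≤ Real.exp L0 * (Real.exp (-L0) * l) := by gcongr
      _ = l := by rw [← mul_assoc, ← Real.exp_add, add_neg_cancel, Real.exp_zero, one_mul]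
      _ ≤ Real.log (N : ℝ) := hlN
  have hlam3 : 3 ≤ lam := (le_max_left _ _).trans hlamL
  have hlamD : D * 2 ^ j / ε ≤ lam := (le_max_right _ _).trans hlamL
  have hlx : Real.log (x : ℝ) ≤ 2 * l := by
    rcases Nat.eq_zero_or_pos x with h | h
    · rw [h, Nat.cast_zero, Real.log_zero]
      positivity
    · have h1 : (x : ℝ) ≤ 2 * Y := by exact_mod_cast hx
      calc Real.log (x : ℝ) ≤ Real.log (2 * Y) := Real.log_le_log (by exact_mod_cast h) h1
        _ ≤ Real.log (Y * Y) := Real.log_le_log (by linarith) (by gcongr)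
        _ = 2 * l := by rw [Real.log_mul (by linarith) (by linarith)]; ring
  -- (a) the dyadic interval of q
  have ha : sg1 (q - 1) (2 ^ (di q + 1)) ≤ 2 := by
    have hq10 : q - 1 ≠ 0 := by omega
    have h1 : q - 1 < 2 ^ (di q + 1) := by
      have := Nat.lt_pow_succ_log_self (b := 2) (by norm_num) (q - 1)
      exact this
    have h2 : 2 ^ (di q + 1) ≤ 2 * (q - 1) := by
      have := Nat.pow_log_le_self 2 hq10
      rw [pow_succ]
      unfold di
      omega
    have h3 := hA (q - 1) (2 ^ (di q + 1)) (by omega) h1.le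
    have h4 : Real.log ((2 ^ (di q + 1) : ℕ) : ℝ) ≤ 2 * Real.log ((q - 1 : ℕ) : ℝ) := by
      have h5 : ((2 ^ (di q + 1) : ℕ) : ℝ) ≤ 2 * ((q - 1 : ℕ) : ℝ) := by exact_mod_cast h2
      have h6 : (0 : ℝ) < ((2 ^ (di q + 1) : ℕ) : ℝ) := by positivity
      calc Real.log ((2 ^ (di q + 1) : ℕ) : ℝ) ≤ Real.log (((q - 1 : ℕ) : ℝ) ^ 2) := by
            apply Real.log_le_log h6
            nlinarith
        _ = 2 * Real.log ((q - 1 : ℕ) : ℝ) := by
            rw [Real.log_pow]
            norm_num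
    have h7 : Real.log ((2 ^ (di q + 1) : ℕ) : ℝ) / Real.log ((q - 1 : ℕ) : ℝ) ≤ 2 := by
      rw [div_le_iff₀ hlq1]
      exact h4
    have h8 : 0 < Real.log ((2 ^ (di q + 1) : ℕ) : ℝ) / Real.log ((q - 1 : ℕ) : ℝ) := by
      apply div_pos _ hlq1
      apply Real.log_pos
      have : ((q - 1 : ℕ) : ℝ) < ((2 ^ (di q + 1) : ℕ) : ℝ) := by exact_mod_cast h1
      linarith
    have h9 := Real.log_le_log h8 h7
    have h10 := Real.log_two_lt_d9
    linarith
  -- (b) the primes above U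
  have hlU : l ≤ M * Real.log ((U : ℝ) + 1) := by
    have h1 : (Y : ℝ) ≤ ((U : ℝ) + 1) ^ M := by exact_mod_cast hU2
    calc l ≤ Real.log (((U : ℝ) + 1) ^ M) := Real.log_le_log (by linarith) h1
      _ = M * Real.log ((U : ℝ) + 1) := Real.log_pow _ _
  have hUz : z ≤ U := by
    have h1 : M * Real.log ((z : ℝ) + 1) ≤ M * Real.log ((U : ℝ) + 1) := by linarith
    have h2 : Real.log ((z : ℝ) + 1) ≤ Real.log ((U : ℝ) + 1) := le_of_mul_le_mul_left h1 (by linarith)
    have h3 : (z : ℝ) + 1 ≤ (U : ℝ) + 1 := (Real.log_le_log_iff (by linarith) (by positivity)).mp h2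
    have h4 : (z : ℝ) ≤ U := by linarith
    exact_mod_cast h4
  have hU3 : (3 : ℝ) ≤ U := hz3'.trans (by exact_mod_cast hUz)
  have hlU' : l / (2 * M) ≤ Real.log (U : ℝ) := by
    have h1 : Real.log ((U : ℝ) + 1) ≤ Real.log (U : ℝ) + 1 := by
      calc Real.log ((U : ℝ) + 1) ≤ Real.log (2 * U) := Real.log_le_log (by linarith) (by linarith)
        _ = Real.log 2 + Real.log U := Real.log_mul (by norm_num) (by linarith)
        _ ≤ Real.log (U : ℝ) + 1 := by linarith [Real.log_two_lt_d9]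
    rw [div_le_iff₀ (by linarith)]
    have h2 : l ≤ M * (Real.log (U : ℝ) + 1) := hlU.trans (by gcongr)
    nlinarith
  have hb : sg1 U x ≤ Real.log (4 * M) + 1 := by
    rcases le_total U x with h | h
    · have h1 := hA U x hUz h
      have hlw0 : 0 < l / (2 * M) := by positivity
      have hx3 : (3 : ℝ) ≤ x := hU3.trans (by exact_mod_cast h)
      have h2 : Real.log x / Real.log U ≤ 4 * M := by
        rw [div_le_iff₀ (by linarith)]
        calc Real.log (x : ℝ) ≤ 2 * l := hlx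
          _ = 4 * M * (l / (2 * M)) := by field_simp; ring
          _ ≤ 4 * M * Real.log U := by gcongr
      have h3 : 0 < Real.log x / Real.log U := div_pos (Real.log_pos (by linarith)) (by linarith)
      have h4 := Real.log_le_log h3 h2
      linarith
    · rw [l8c_zero h]
      have : 0 ≤ Real.log (4 * (M : ℝ)) := Real.log_nonneg (by linarith)
      linarith
  -- (c) the whole range
  have hc : sg1 (q - 1) x ≤ lam + 3 := by
    rcases le_total (q - 1) x with h | h
    · have h1 := hA (q - 1) x (by omega) h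
      have hx3 : (3 : ℝ) ≤ x := hq3.trans (by exact_mod_cast h)
      have hlNq : 0 < Real.log (N : ℝ) / Real.log q := div_pos (by linarith) hlq0
      have h2 : Real.log x / Real.log ((q - 1 : ℕ) : ℝ) ≤ 4 * (Real.log N / Real.log q) := by
        rw [div_le_iff₀ hlq1]
        have h5 : 4 * (Real.log (N : ℝ) / Real.log q) * Real.log ((q - 1 : ℕ) : ℝ) =
            2 * Real.log (N : ℝ) * (2 * Real.log ((q - 1 : ℕ) : ℝ) / Real.log q) := by
          field_simp
          ring
        have h6 : 1 ≤ 2 * Real.log ((q - 1 : ℕ) : ℝ) / Real.log q := by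
          rw [le_div_iff₀ hlq0]
          linarith
        rw [h5]
        nlinarith
      have h3 : 0 < Real.log x / Real.log ((q - 1 : ℕ) : ℝ) := div_pos (Real.log_pos (by linarith)) hlq1
      have h4 := Real.log_le_log h3 h2
      rw [Real.log_mul (by norm_num) hlNq.ne'] at h4
      have h7 : Real.log 4 ≤ 2 := by
        rw [show (4 : ℝ) = 2 ^ 2 by norm_num, Real.log_pow]
        have := Real.log_two_lt_d9
        push_cast
        linarith
      linarith
    · rw [l8c_zero h]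
      linarith
  -- end
  have hs0 := l8c_nonneg (q - 1) x
  calc (sg1 (q - 1) (2 ^ (di q + 1)) + sg1 U x) * (sg1 (q - 1) x) ^ j ≤ D * (2 * lam) ^ j := by
        have h1 : sg1 (q - 1) (2 ^ (di q + 1)) + sg1 U x ≤ D := by
          rw [hD]
          linarith
        have h2 : sg1 (q - 1) x ≤ 2 * lam := by linarith
        gcongr
    _ = (D * 2 ^ j) * lam ^ j := by rw [mul_pow]; ring
    _ ≤ (ε * lam) * lam ^ j := by
        have h3 : D * 2 ^ j ≤ ε * lam := by
          rw [div_le_iff₀ hε] at hlamD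
          linarith
        have h4 : 0 ≤ lam := by linarith
        gcongr
    _ = ε * lam ^ (j + 1) := by
        rw [pow_succ]
        ring

end Pool.Agent.Lib.G8
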