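import Pool.Agent.Lib.G8.L8a
import Pool.Agent.Lib.G8.L8b
import Pool.Agent.Lib.G8.L8c
import Pool.Agent.Lib.G6.Sv
import Pool.Agent.Lib.G6.Ph
import Pool.Agent.Lib.G5.Q8

/-!
# G8, row L8 (copy of G6/Bd7.lean): almost all representations are typical

PROOF IN WORDS. `l = log Y`. `l8a` with `w = ⌈l^(B+4)⌉ - 1` (`w < q`), `Z = Nat.sqrt Y`, `z = ⌊Y^(1/(4k))⌋` (`U ≤ z` as `U^M ≤ Y`, `M ≥ 4k`; `z^k ≤ Y^(1/4) ≤ Z`), `2 q ≤ U` (`q ≤ Y^η`, `η < 1/(2M)`, `Y ≤ (U+1)^M`). For `Q ∈ QL`, `x = N/Q ≥ z`, `log x ≥ l/(8k)`: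
`sv`, `ph`, `ph2`: `|RR Q N| ≤ C (N/Q)(64k^2/l^2) 2^(k-1) 4 SS N` as in Bd7. Sum over `Q`: `k = 2`: `QL` is empty (l8b0); `k ≥ 3`: l8b with `j = k - 3` and l8c with `j = k - 3`, `ε' = ε/constant`, for each `q ∈ S` (`log Y ≤ l^(B+4) ≤ q`): at most
`(ε/2) SS N (Y/l^2) mL k S N`. The other terms: `√Y + 4Y/l^(B+4) + log_2 N ≤ (ε/4) Y/l^(B+2) ≤ (ε/2) SS N (Y/l^2)/l^B` by q8.
-/

set_option autoImplicit false
set_option maxHeartbeats 1000000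

open Finset

namespace Pool.Agent.Lib.G8

open Pool.Agent.Lib.G3 (SS)
open Pool.Agent.Lib.G6 (RR sv ph ph2)
open Pool.Agent.Lib.G5 (sg1)

/-- one `Q` -/
private lemma l8_term {C : ℝ} {x0 k n : ℕ} (hC : 0 < C)
    (hsv : ∀ x Q N : ℕ, x0 ≤ x → 1 ≤ Q → 1 ≤ N → Even N → Nat.Coprime Q N →
      (((Icc 1 x).filter fun r => r.Prime ∧ Q * r < N ∧ (N - Q * r).Prime).card : ℝ) ≤
        C * (x / (Real.log x) ^ 2) * (((Q * N : ℕ) : ℝ) / (Nat.totient (Q * N) : ℝ)))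
    {Q N w' : ℕ} {l : ℝ} (hl : 0 < l) (hn : 1 ≤ n) (hx0 : x0 ≤ w') (hw' : l / (2 * n) ≤ Real.log w') (hw1 : 1 ≤ w')
    (hQ1 : 1 ≤ Q) (hQ2 : Q ≤ N / w') (hΩ : ArithmeticFunction.cardFactors Q = k - 1) (hN1 : 1 ≤ N) (hNe : Even N)
    (hco : Nat.Coprime Q N) :
    ((RR Q N).card : ℝ) ≤ (C * 16 * n ^ 2 * 2 ^ (k - 1) * SS N * N / l ^ 2) * (1 / Q) := by
  have hn1 : (1 : ℝ) ≤ n := by exact_mod_cast hn
  have hSS := Pool.Agent.Lib.G5.q8 N hNe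
  have hQr : (1 : ℝ) ≤ Q := by exact_mod_cast hQ1
  have hwx : w' ≤ N / Q := by
    rw [Nat.le_div_iff_mul_le (by omega)] at hQ2 ⊢
    rwa [mul_comm]
  have h1 := hsv (N / Q) Q N (hx0.trans hwx) hQ1 hN1 hNe hco
  have hw1' : (1 : ℝ) ≤ w' := by exact_mod_cast hw1
  have hwx' : (w' : ℝ) ≤ ((N / Q : ℕ) : ℝ) := by exact_mod_cast hwx
  have hln : 0 < l / (2 * n) := by positivity
  have h2 : l / (2 * n) ≤ Real.log ((N / Q : ℕ) : ℝ) := hw'.trans (Real.log_le_log (by linarith) hwx')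
  have h3 : ((N / Q : ℕ) : ℝ) / (Real.log ((N / Q : ℕ) : ℝ)) ^ 2 ≤ ((N : ℝ) / Q) / (l / (2 * n)) ^ 2 := by
    have : ((N / Q : ℕ) : ℝ) ≤ (N : ℝ) / Q := Nat.cast_div_le
    gcongr
  have h4 : (((Q * N : ℕ) : ℝ) / (Nat.totient (Q * N) : ℝ)) ≤ 2 ^ (k - 1) * (4 * SS N) := by
    rw [Nat.totient_mul hco, Nat.cast_mul, Nat.cast_mul, ← div_mul_div_comm]
    have a1 := ph2 hQ1 hΩ
    have a2 := ph hNe hN1
    have a3 : (0 : ℝ) ≤ (N : ℝ) / (Nat.totient N : ℝ) := by positivity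
    gcongr
  have h5 : (0 : ℝ) ≤ (((Q * N : ℕ) : ℝ) / (Nat.totient (Q * N) : ℝ)) := by positivity
  have h6 : (0 : ℝ) ≤ ((N : ℝ) / Q) / (l / (2 * n)) ^ 2 := by positivity
  unfold RR
  calc _ ≤ C * (((N / Q : ℕ) : ℝ) / (Real.log ((N / Q : ℕ) : ℝ)) ^ 2) * (((Q * N : ℕ) : ℝ) / (Nat.totient (Q * N) : ℝ)) := h1
    _ ≤ C * (((N : ℝ) / Q) / (l / (2 * n)) ^ 2) * (2 ^ (k - 1) * (4 * SS N)) := by gcongr
    _ = (C * 16 * n ^ 2 * 2 ^ (k - 1) * SS N * N / l ^ 2) * (1 / Q) := by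
        field_simp
        ring

/-- the small terms -/
private lemma l8_small {ε l : ℝ} {Y w N B : ℕ} (hε : 0 < ε) (hl : 2 ≤ l) (hY : (2 : ℝ) ≤ Y) (hlY : l = Real.log Y)
    (h1 : 16 * l ^ (B + 2) ≤ ε * Real.sqrt Y) (h2 : 4 * l ≤ Real.sqrt Y) (h3 : 32 ≤ ε * l ^ 2) (hw : l ^ (B + 4) ≤ 2 * w)
    (hYN : Y < N) (hN : N ≤ 2 * Y) :
    ((Nat.sqrt Y : ℕ) : ℝ) + (N : ℝ) / w + (Nat.log 2 N : ℕ) ≤ ε / 4 * (Y / l ^ (B + 2)) := by
  have hs0 : 0 < Real.sqrt Y := Real.sqrt_pos.mpr (by linarith)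
  have hl0 : 0 < l := by linarith
  have hY0 : (0 : ℝ) < Y := by linarith
  have hw0 : (0 : ℝ) < w := by
    have : 0 < l ^ (B + 4) := by positivity
    linarith
  have a1 : ((Nat.sqrt Y : ℕ) : ℝ) ≤ Real.sqrt Y := Real.nat_sqrt_le_real_sqrt
  have a2 : (N : ℝ) / w ≤ 4 * Y / l ^ (B + 4) := by
    have : (N : ℝ) ≤ 2 * Y := by exact_mod_cast hN
    rw [div_le_div_iff₀ hw0 (by positivity)]
    calc (N : ℝ) * l ^ (B + 4) ≤ (2 * Y) * (2 * w) := by gcongr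
      _ = 4 * Y * w := by ring
  have a3 : ((Nat.log 2 N : ℕ) : ℝ) ≤ Real.sqrt Y := by
    have b1 : 2 ^ (Nat.log 2 N) ≤ N := Nat.pow_log_le_self 2 (by omega)
    have b2 : ((2 : ℝ)) ^ (Nat.log 2 N) ≤ 2 * Y := by
      calc ((2 : ℝ)) ^ (Nat.log 2 N) ≤ N := by exact_mod_cast b1
        _ ≤ 2 * Y := by exact_mod_cast hN
    have b3 : (Nat.log 2 N : ℕ) * Real.log 2 ≤ 2 * l := by
      rw [← Real.log_pow]
      calc Real.log ((2 : ℝ) ^ (Nat.log 2 N)) ≤ Real.log (Y * Y) := Real.log_le_log (by positivity) (b2.trans (by gcongr))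
        _ = 2 * l := by rw [Real.log_mul (by linarith) (by linarith), hlY]; ring
    have b4 : (0.5 : ℝ) ≤ Real.log 2 := by linarith [Real.log_two_gt_d9]
    have b5 : (0 : ℝ) ≤ (Nat.log 2 N : ℕ) := Nat.cast_nonneg _
    nlinarith
  have a4 : Real.sqrt Y ≤ ε / 16 * (Y / l ^ (B + 2)) := by
    have b1 : Real.sqrt Y * Real.sqrt Y = Y := Real.mul_self_sqrt hY0.le
    rw [← mul_div_assoc, le_div_iff₀ (by positivity)]
    calc Real.sqrt Y * l ^ (B + 2) = 1 / 16 * (Real.sqrt Y * (16 * l ^ (B + 2))) := by ring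
      _ ≤ 1 / 16 * (Real.sqrt Y * (ε * Real.sqrt Y)) := by gcongr
      _ = ε / 16 * (Real.sqrt Y * Real.sqrt Y) := by ring
      _ = ε / 16 * Y := by rw [b1]
  have a5 : 4 * Y / l ^ (B + 4) ≤ ε / 8 * (Y / l ^ (B + 2)) := by
    rw [← mul_div_assoc, div_le_div_iff₀ (by positivity) (by positivity)]
    calc 4 * (Y : ℝ) * l ^ (B + 2) = 1 / 8 * (32 * (Y * l ^ (B + 2))) := by ring
      _ ≤ 1 / 8 * ((ε * l ^ 2) * (Y * l ^ (B + 2))) := by gcongr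
      _ = ε / 8 * Y * l ^ (B + 4) := by rw [show B + 4 = (B + 2) + 2 from rfl, pow_add l (B + 2) 2]; ring
  linarith

/-- the integer root -/
private lemma l8_root (Y n : ℕ) (hn : 1 ≤ n) : ∃ z : ℕ, z ^ n ≤ Y ∧ Y < (z + 1) ^ n := by
  classical
  have hex : ∃ z : ℕ, Y < (z + 1) ^ n := ⟨Y, by
    calc Y < Y + 1 := Nat.lt_succ_self Y
      _ = (Y + 1) ^ 1 := (pow_one _).symm
      _ ≤ (Y + 1) ^ n := Nat.pow_le_pow_right (by omega) hn⟩
  refine ⟨Nat.find hex, ?_, Nat.find_spec hex⟩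
  rcases Nat.eq_zero_or_pos (Nat.find hex) with h0 | h0
  · rw [h0, zero_pow (by omega)]
    exact Nat.zero_le _
  · have h1 := Nat.find_min hex (m := Nat.find hex - 1) (by omega)
    rw [not_lt, show Nat.find hex - 1 + 1 = Nat.find hex by omega] at h1
    exact h1

/-- the terms of `mL` are nonnegative -/
private lemma l8_nonneg {q N : ℕ} (hq : q.Prime) (hqN : q ≤ N) (j : ℕ) :
    0 ≤ 1 / (q : ℝ) * (Real.log (Real.log N / Real.log q)) ^ j := by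
  have h2 : (1 : ℝ) < q := by exact_mod_cast hq.one_lt
  have hlq : 0 < Real.log q := Real.log_pos h2
  have h3 : Real.log q ≤ Real.log N := Real.log_le_log (by linarith) (by exact_mod_cast hqN)
  have h4 : 0 ≤ Real.log (Real.log N / Real.log q) := Real.log_nonneg (by rwa [le_div_iff₀ hlq, one_mul])
  positivity

/-- the sum over `Q` -/
private lemma l8_Q (k M : ℕ) (hk : 2 ≤ k) (hM : 1 ≤ M) (ε : ℝ) (hε : 0 < ε) : ∃ η : ℝ, 0 < η ∧ ∃ y0 : ℝ,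
    ∀ (Y N U x : ℕ) (S : Finset ℕ), y0 ≤ Y → Y < N → x ≤ 2 * Y → U ^ M ≤ Y → Y ≤ (U + 1) ^ M →
      (∀ q ∈ S, q.Prime ∧ Real.log Y ≤ q ∧ (q : ℝ) ≤ (Y : ℝ) ^ η ∧ q ≤ N) →
        ∑ Q ∈ QL (k - 1) U S x, (1 : ℝ) / Q ≤ ε * mL k S N := by
  obtain rfl | ⟨j, rfl⟩ : k = 2 ∨ ∃ j, k = j + 3 := by
    rcases Nat.lt_or_ge k 3 with h | h
    · exact Or.inl (by omega)
    · exact Or.inr ⟨k - 3, by omega⟩
  · refine ⟨1, one_pos, 0, fun Y N U x S _ _ _ _ _ hS => ?_⟩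
    rw [show 2 - 1 = 1 from rfl, l8b0 U x S fun q hq => (hS q hq).1, sum_empty]
    unfold mL
    exact mul_nonneg hε.le (sum_nonneg fun q hq => l8_nonneg (hS q hq).1 (hS q hq).2.2.2 _)
  · obtain ⟨η, hη, y0, h⟩ := l8c j M hM ε hε
    refine ⟨η, hη, y0, fun Y N U x S hY hYN hx h1 h2 hS => ?_⟩
    rw [show j + 3 - 1 = j + 2 from rfl]
    refine (l8b j U x S fun q hq => (hS q hq).1).trans ?_
    unfold mL
    rw [mul_sum]
    refine sum_le_sum fun q hq => ?_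
    have h3 := h Y N U q x hY hYN hx h1 h2 (hS q hq).2.1 (hS q hq).2.2.1
    rw [show j + 3 - 2 = j + 1 by omega]
    calc 1 / (q : ℝ) * ((sg1 (q - 1) (2 ^ (di q + 1)) + sg1 U x) * (sg1 (q - 1) x) ^ j)
        ≤ 1 / (q : ℝ) * (ε * (Real.log (Real.log N / Real.log q)) ^ (j + 1)) :=
          mul_le_mul_of_nonneg_left h3 (by positivity)
      _ = _ := by ring

/-- the numbers of `S` are below `U / 2` -/
private lemma l8_U {M Y U q : ℕ} {η : ℝ} (hM : 1 ≤ M) (hη : η ≤ 1 / (2 * M)) (hY : (3 : ℝ) ^ (2 * M) ≤ Y)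
    (hU : Y ≤ (U + 1) ^ M) (hq : (q : ℝ) ≤ (Y : ℝ) ^ η) : 2 * q ≤ U ∧ q ≤ Y := by
  have hM1 : (1 : ℝ) ≤ M := by exact_mod_cast hM
  have hY1 : (1 : ℝ) ≤ Y := (one_le_pow₀ (by norm_num)).trans hY
  set t : ℝ := (Y : ℝ) ^ (1 / (2 * M) : ℝ) with ht
  have ht0 : 0 ≤ t := by positivity
  have hqt : (q : ℝ) ≤ t := hq.trans (Real.rpow_le_rpow_of_exponent_le hY1 hη)
  have htM : t ^ (2 * M) = Y := by
    rw [ht, ← Real.rpow_natCast, ← Real.rpow_mul (by linarith)]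
    have : (1 / (2 * M) : ℝ) * ((2 * M : ℕ) : ℝ) = 1 := by
      push_cast
      field_simp
    rw [this, Real.rpow_one]
  have ht3 : 3 ≤ t := by
    refine le_of_pow_le_pow_left₀ (n := 2 * M) (by omega) ht0 ?_
    rw [htM]
    exact hY
  have hU1 : t ^ 2 ≤ (U : ℝ) + 1 := by
    refine le_of_pow_le_pow_left₀ (n := M) (by omega) (by positivity) ?_
    rw [← pow_mul, htM]
    exact_mod_cast hU
  constructor
  · have h1 : (2 : ℝ) * q ≤ U := by nlinarith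
    exact_mod_cast h1
  · have h1 : t ≤ t ^ (2 * M) := le_self_pow₀ (by linarith) (by omega)
    have h2 : (q : ℝ) ≤ Y := hqt.trans (h1.trans htM.le)
    exact_mod_cast h2

theorem l8 (k B M : ℕ) (hk : 2 ≤ k) (hM : 4 * k ≤ M) (ε : ℝ) (hε : 0 < ε) : ∃ η : ℝ, 0 < η ∧ ∃ y0 : ℝ, ∀ (Y N U : ℕ) (S : Finset ℕ), y0 ≤ Y →
    Y < N → N ≤ 2 * Y → Even N → U ^ M ≤ Y → Y ≤ (U + 1) ^ M →
    (∀ q ∈ S, q.Prime ∧ (Real.log Y) ^ (B + 4) ≤ q ∧ (q : ℝ) ≤ (Y : ℝ) ^ η) →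
      |(TS k S N : ℝ) - TL k U S N| ≤ ε * (SS N * (Y / (Real.log Y) ^ 2) * (mL k S N + 1 / (Real.log Y) ^ B)) := by
  obtain ⟨C, x0, hC, hsv⟩ := sv
  obtain ⟨n, hn4⟩ : ∃ n : ℕ, n = 4 * k := ⟨_, rfl⟩
  have hn : 1 ≤ n := by omega
  have hn1 : (1 : ℝ) ≤ n := by exact_mod_cast hn
  have hM1 : 1 ≤ M := by omega
  have hM1r : (1 : ℝ) ≤ M := by exact_mod_cast hM1
  set ε' : ℝ := ε / (C * 64 * n ^ 2 * 2 ^ (k - 1)) with hε'def
  have hε' : 0 < ε' := by positivity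
  obtain ⟨η, hη, y1, hmt⟩ := l8_Q k M hk hM1 ε' hε'
  refine ⟨min η (1 / (2 * M)), lt_min hη (by positivity), ?_⟩
  have e1 : ∀ᶠ y : ℝ in Filter.atTop, (2 : ℝ) * n + n * Real.log (x0 + 3) + 32 / ε ≤ Real.log y :=
    Real.tendsto_log_atTop.eventually_ge_atTop _
  have e3 : ∀ᶠ y : ℝ in Filter.atTop, ‖(Real.log y) ^ (2 * (B + 2))‖ ≤ (min (ε ^ 2 / 256) (1 / 16)) * ‖y‖ :=
    (Real.isLittleO_pow_log_id_atTop (n := 2 * (B + 2))).bound (by positivity)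
  obtain ⟨y2, hy2⟩ := Filter.eventually_atTop.mp (e1.and e3)
  refine ⟨max (max y1 y2) (max 2 (3 ^ (2 * M))), fun Y N U S hY hYN hN hNe hUM hMU hS => ?_⟩
  have hY1 : y1 ≤ Y := (le_max_left _ _).trans ((le_max_left _ _).trans hY)
  obtain ⟨g1, g3⟩ := hy2 Y ((le_max_right _ _).trans ((le_max_left _ _).trans hY))
  have hY2 : (2 : ℝ) ≤ Y := (le_max_left _ _).trans ((le_max_right _ _).trans hY)
  have hY3 : (3 : ℝ) ^ (2 * M) ≤ Y := (le_max_right _ _).trans ((le_max_right _ _).trans hY)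
  set l : ℝ := Real.log Y with hldef
  have hx03 : 0 ≤ Real.log ((x0 : ℝ) + 3) := Real.log_nonneg (by have : (0 : ℝ) ≤ x0 := Nat.cast_nonneg _; linarith)
  have h16 : 0 < 32 / ε := by positivity
  have hl2 : 2 ≤ l := by nlinarith
  have hl0 : 0 < l := by linarith
  have hs0 : 0 < Real.sqrt Y := Real.sqrt_pos.mpr (by linarith)
  -- square root
  rw [Real.norm_of_nonneg (by positivity), Real.norm_of_nonneg (by linarith)] at g3
  have s1 : 16 * l ^ (B + 2) ≤ ε * Real.sqrt Y := by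
    have h1 : l ^ (2 * (B + 2)) ≤ ε ^ 2 / 256 * Y := g3.trans (by gcongr; exact min_le_left _ _)
    have h2 : 16 * l ^ (B + 2) / ε ≤ Real.sqrt Y := by
      apply Real.le_sqrt_of_sq_le
      calc (16 * l ^ (B + 2) / ε) ^ 2 = 256 / ε ^ 2 * l ^ (2 * (B + 2)) := by
            rw [div_pow, mul_pow, ← pow_mul, mul_comm (B + 2) 2]
            ring
        _ ≤ 256 / ε ^ 2 * (ε ^ 2 / 256 * Y) := by gcongr
        _ = Y := by field_simp
    rw [div_le_iff₀ hε] at h2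
    linarith
  have s2 : 4 * l ≤ Real.sqrt Y := by
    have h1 : l ^ (2 * (B + 2)) ≤ 1 / 16 * Y := g3.trans (by gcongr; exact min_le_right _ _)
    apply Real.le_sqrt_of_sq_le
    have h2 : l ^ 2 ≤ l ^ (2 * (B + 2)) := pow_le_pow_right₀ (by linarith) (by omega)
    nlinarith
  have s3 : 32 ≤ ε * l ^ 2 := by
    have h1 : 32 / ε ≤ l := by
      have : 0 ≤ (n : ℝ) * Real.log (x0 + 3) := by positivity
      linarith
    rw [div_le_iff₀ hε] at h1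
    nlinarith
  -- the root
  obtain ⟨z, hz1, hz2⟩ := l8_root Y n hn
  have hlw : l ≤ n * Real.log ((z : ℝ) + 1) := by
    have h1 : (Y : ℝ) ≤ ((z : ℝ) + 1) ^ n := by exact_mod_cast hz2.le
    calc l ≤ Real.log (((z : ℝ) + 1) ^ n) := Real.log_le_log (by linarith) h1
      _ = n * Real.log ((z : ℝ) + 1) := Real.log_pow _ _
  have hzx0 : x0 + 2 ≤ z := by
    have h1 : n * Real.log ((x0 : ℝ) + 3) ≤ n * Real.log ((z : ℝ) + 1) := by linarith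
    have h2 : Real.log ((x0 : ℝ) + 3) ≤ Real.log ((z : ℝ) + 1) := le_of_mul_le_mul_left h1 (by linarith)
    have h3 : (x0 : ℝ) + 3 ≤ (z : ℝ) + 1 := (Real.log_le_log_iff (by positivity) (by positivity)).mp h2
    have h4 : (x0 : ℝ) + 2 ≤ z := by linarith
    exact_mod_cast h4
  have hz11 : 1 ≤ z := by omega
  have hz1r : (1 : ℝ) ≤ z := by exact_mod_cast hz11
  have hlz : l / (2 * n) ≤ Real.log (z : ℝ) := by
    have h1 : Real.log ((z : ℝ) + 1) ≤ Real.log (z : ℝ) + 1 := by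
      calc Real.log ((z : ℝ) + 1) ≤ Real.log (2 * z) := Real.log_le_log (by linarith) (by linarith)
        _ = Real.log 2 + Real.log z := Real.log_mul (by norm_num) (by linarith)
        _ ≤ Real.log (z : ℝ) + 1 := by linarith [Real.log_two_lt_d9]
    rw [div_le_iff₀ (by linarith)]
    have h2 : l ≤ n * (Real.log (z : ℝ) + 1) := hlw.trans (by gcongr)
    nlinarith
  have hZ' : z ^ k ≤ Nat.sqrt Y := by
    rw [Nat.le_sqrt]
    calc z ^ k * z ^ k = z ^ (k + k) := (pow_add _ _ _).symm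
      _ ≤ z ^ n := Nat.pow_le_pow_right hz11 (by omega)
      _ ≤ Y := hz1
  have hUz : U ≤ z := by
    by_contra hcon
    rw [not_le] at hcon
    have h1 : (z + 1) ^ n ≤ U ^ M := by
      calc (z + 1) ^ n ≤ (z + 1) ^ M := Nat.pow_le_pow_right (by omega) (by omega)
        _ ≤ U ^ M := Nat.pow_le_pow_left hcon M
    omega
  -- the threshold
  have hlB : (2 : ℝ) ≤ l ^ (B + 4) := by
    calc (2 : ℝ) ≤ l := hl2
      _ ≤ l ^ (B + 4) := le_self_pow₀ (by linarith) (by omega)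
  obtain ⟨w, hwdef⟩ : ∃ w : ℕ, w + 1 = ⌈l ^ (B + 4)⌉₊ := by
    refine ⟨⌈l ^ (B + 4)⌉₊ - 1, ?_⟩
    have : 0 < ⌈l ^ (B + 4)⌉₊ := Nat.ceil_pos.2 (by linarith)
    omega
  have hwr : l ^ (B + 4) ≤ (w : ℝ) + 1 := by
    have := Nat.le_ceil (l ^ (B + 4))
    rw [← hwdef] at this
    exact_mod_cast this
  have hw1 : 1 ≤ w := by
    have h1 : (1 : ℝ) ≤ w := by linarith
    exact_mod_cast h1
  have hw2 : l ^ (B + 4) ≤ 2 * w := by
    have h1 : (1 : ℝ) ≤ w := by exact_mod_cast hw1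
    linarith
  have hSq : ∀ q ∈ S, q.Prime ∧ w < q ∧ 2 * q ≤ U := by
    intro q hq
    obtain ⟨h1, h2, h3⟩ := hS q hq
    refine ⟨h1, ?_, (l8_U hM1 (min_le_right _ _) hY3 hMU h3).1⟩
    have h4 : ⌈l ^ (B + 4)⌉₊ ≤ q := Nat.ceil_le.2 h2
    omega
  obtain ⟨b1, b2⟩ := l8a k U w N (Nat.sqrt Y) z S hk hw1 hSq hUz hZ'
  have hSS := Pool.Agent.Lib.G5.q8 N hNe
  have hN1 : 1 ≤ N := by omega
  have hqN : ∀ q ∈ S, q ≤ N := fun q hq =>
    ((l8_U hM1 (min_le_right _ _) hY3 hMU (hS q hq).2.2).2).trans hYN.le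
  have hmL : 0 ≤ mL k S N := by
    unfold mL
    exact sum_nonneg fun q hq => l8_nonneg (hS q hq).1 (hqN q hq) _
  -- the sum over `Q`
  have hsum : ∑ Q ∈ (QL (k - 1) U S (N / z)).filter (fun Q => Nat.Coprime Q N), ((RR Q N).card : ℝ) ≤
      ε / 2 * (SS N * (Y / l ^ 2) * mL k S N) := by
    have hb : (0 : ℝ) ≤ C * 16 * n ^ 2 * 2 ^ (k - 1) * SS N * N / l ^ 2 := by positivity
    calc ∑ Q ∈ (QL (k - 1) U S (N / z)).filter (fun Q => Nat.Coprime Q N), ((RR Q N).card : ℝ)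
        ≤ ∑ Q ∈ (QL (k - 1) U S (N / z)).filter (fun Q => Nat.Coprime Q N),
            (C * 16 * n ^ 2 * 2 ^ (k - 1) * SS N * N / l ^ 2) * (1 / Q) := by
          apply Finset.sum_le_sum
          classical
          intro Q hQ
          rw [mem_filter] at hQ
          obtain ⟨hQB, hco⟩ := hQ
          unfold QL at hQB
          rw [mem_filter, mem_Icc] at hQB
          exact l8_term hC hsv hl0 hn (by omega) hlz hz11 hQB.1.1 hQB.1.2 hQB.2.1 hN1 hNe hco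
      _ ≤ ∑ Q ∈ QL (k - 1) U S (N / z), (C * 16 * n ^ 2 * 2 ^ (k - 1) * SS N * N / l ^ 2) * (1 / Q) := by
          apply Finset.sum_le_sum_of_subset_of_nonneg (filter_subset _ _)
          intro Q _ _
          positivity
      _ = (C * 16 * n ^ 2 * 2 ^ (k - 1) * SS N * N / l ^ 2) * ∑ Q ∈ QL (k - 1) U S (N / z), (1 : ℝ) / Q := by
          rw [Finset.mul_sum]
      _ ≤ (C * 16 * n ^ 2 * 2 ^ (k - 1) * SS N * N / l ^ 2) * (ε' * mL k S N) := by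
          refine mul_le_mul_of_nonneg_left ?_ hb
          refine hmt Y N U (N / z) S hY1 hYN ((Nat.div_le_self _ _).trans hN) hUM hMU fun q hq => ?_
          obtain ⟨h1, h2, h3⟩ := hS q hq
          refine ⟨h1, ?_, ?_, hqN q hq⟩
          · exact (le_self_pow₀ (by linarith) (by omega : B + 4 ≠ 0)).trans h2
          · exact h3.trans (Real.rpow_le_rpow_of_exponent_le (by linarith) (min_le_left _ _))
      _ ≤ (C * 16 * n ^ 2 * 2 ^ (k - 1) * SS N * (2 * Y) / l ^ 2) * (ε' * mL k S N) := by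
          have h1 : (N : ℝ) ≤ 2 * Y := by exact_mod_cast hN
          gcongr
      _ = ε / 2 * (SS N * (Y / l ^ 2) * mL k S N) := by
          rw [hε'def]
          field_simp
          ring
  have hsm := l8_small (Y := Y) (w := w) (N := N) (B := B) hε hl2 hY2 hldef s1 s2 s3 hw2 hYN hN
  have hlow : ε / 4 * (Y / l ^ (B + 2)) ≤ ε / 2 * (SS N * (Y / l ^ 2) * (1 / l ^ B)) := by
    have h2 : 0 ≤ (Y : ℝ) / l ^ 2 * (1 / l ^ B) := by positivity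
    calc ε / 4 * (Y / l ^ (B + 2)) = ε / 2 * ((1 / 2) * ((Y / l ^ 2) * (1 / l ^ B))) := by
          rw [pow_add]
          field_simp
          ring
      _ ≤ ε / 2 * (SS N * ((Y / l ^ 2) * (1 / l ^ B))) := by gcongr
      _ = _ := by ring
  have b1' : (TL k U S N : ℝ) ≤ TS k S N := by exact_mod_cast b1
  have hpos1 : 0 ≤ SS N * (Y / l ^ 2) * mL k S N := by positivity
  have hpos2 : 0 ≤ SS N * (Y / l ^ 2) * (1 / l ^ B) := by positivity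
  rw [abs_of_nonneg (by linarith)]
  calc (TS k S N : ℝ) - TL k U S N ≤ ((Nat.sqrt Y : ℕ) : ℝ) + (N : ℝ) / w + (Nat.log 2 N : ℕ) +
        ∑ Q ∈ (QL (k - 1) U S (N / z)).filter (fun Q => Nat.Coprime Q N), ((RR Q N).card : ℝ) := by linarith [b2]
    _ ≤ ε / 4 * (Y / l ^ (B + 2)) + ε / 2 * (SS N * (Y / l ^ 2) * mL k S N) := add_le_add hsm hsum
    _ ≤ ε / 2 * (SS N * (Y / l ^ 2) * (1 / l ^ B)) + ε / 2 * (SS N * (Y / l ^ 2) * mL k S N) := by gcongr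
    _ ≤ ε * (SS N * (Y / l ^ 2) * (mL k S N + 1 / l ^ B)) := by nlinarith

end Pool.Agent.Lib.G8
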