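import Pool.Agent.Lib.G8.LDefs

/-!
# G8, row L8a (compare G6/Bd1.lean): the representations not counted by `TL`

PROOF IN WORDS. Copy G6/Bd1.lean. `TL ≤ TS`: if `EL k U S n` then `Ω(n) = k` and the least prime factor of `n` is the `q ∈ S` (all others `> 2^(di q + 1) ≥ q`; `q` prime). A `p` counted by `TS`, not by `TL`, `n = N - p`, `q = minFac n ∈ S`:
(a) `n ≤ Z`: at most `Z`. (b) `p ∣ N`: at most `log_2 N`. (c) `s^2 ∣ n` for a prime `s` (then `s ≥ q > w`): at most `∑_{s > w} N/s^2 ≤ N/w`. (d) otherwise `n > Z`, `p ∤ N`, `n` squarefree, `ω(n) = Ω(n) = k`. `r` the largest prime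
factor: `n ≤ r^k`, `r^k > Z ≥ z^k`, so `r > z ≥ U ≥ 2 q`. `Q = n/r`, `Ω(Q) = k - 1`, `Q ≤ N/z`, `q ∣ Q`, all primes of `Q` are `≥ q`, `gcd(Q, N) = 1` and `r ∈ RR Q N` as in Bd1. Not `EL`: either a prime `s ≠ q`, `s ∣ n`,
`s ≤ 2^(di q + 1)` (`< 2 q ≤ U`, so `s ≠ r`, `q s ∣ Q`), or the number of prime factors `> U` is not `1`; `r` is one, so there is another `s > U ≥ q`, `s ≠ r`, `q s ∣ Q`. So `Q ∈ QL (k-1) U S (N/z)`. `n ↦ (Q, r)` is injective.
(`2^(di q) < q ≤ 2^(di q + 1)` for `q ≥ 2` from `Nat.log`.)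
-/

set_option autoImplicit false

open Finset

namespace Pool.Agent.Lib.G8

open Pool.Agent.Lib.G6 (RR)

/-- the numbers divisible by the square of a number larger than `w` are few -/
private theorem l8a_sq (w N : ℕ) (hw : 1 ≤ w) (s : Finset ℕ)
    (hs : ∀ p ∈ s, p < N ∧ ∃ q : ℕ, w < q ∧ q ^ 2 ∣ N - p) : (s.card : ℝ) ≤ N / w := by
  classical
  have h1 : s.card ≤ ((Ioc w (max w N)).biUnion fun q => (Ioc 0 N).filter fun x => q ^ 2 ∣ x).card := by
    refine card_le_card_of_injOn (fun p => N - p) ?_ ?_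
    · intro p hp
      obtain ⟨h2, q, hq, h3⟩ := hs p (by simpa using hp)
      have h4 : q ≤ N - p := (Nat.le_self_pow (by norm_num) q).trans (Nat.le_of_dvd (by omega) h3)
      have h5 : N - p ∈ (Ioc w (max w N)).biUnion fun q => (Ioc 0 N).filter fun x => q ^ 2 ∣ x := by
        rw [mem_biUnion]
        refine ⟨q, ?_, ?_⟩
        · rw [mem_Ioc]
          exact ⟨hq, (h4.trans (Nat.sub_le _ _)).trans (le_max_right _ _)⟩
        · rw [mem_filter, mem_Ioc]
          exact ⟨⟨by omega, by omega⟩, h3⟩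
      exact mem_coe.2 h5
    · intro p hp p' hp' h
      have h2 := (hs p (by simpa using hp)).1
      have h3 := (hs p' (by simpa using hp')).1
      simp only at h
      omega
  have h2 : (((Ioc w (max w N)).biUnion fun q => (Ioc 0 N).filter fun x => q ^ 2 ∣ x).card : ℝ) ≤
      ∑ q ∈ Ioc w (max w N), (N : ℝ) * ((q : ℝ) ^ 2)⁻¹ := by
    refine (Nat.cast_le.2 (card_biUnion_le (s := Ioc w (max w N)) (t := fun q => (Ioc 0 N).filter fun x => q ^ 2 ∣ x))).trans ?_
    rw [Nat.cast_sum]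
    refine sum_le_sum fun q _ => ?_
    rw [Nat.Ioc_filter_dvd_card_eq_div]
    refine Nat.cast_div_le.trans ?_
    rw [Nat.cast_pow, div_eq_mul_inv]
  have h4 := sum_Ioc_inv_sq_le_sub (α := ℝ) (k := w) (n := max w N) (by omega) (le_max_left _ _)
  have h5 : (0 : ℝ) ≤ ((max w N : ℕ) : ℝ)⁻¹ := by positivity
  rw [← mul_sum] at h2
  calc (s.card : ℝ) ≤ _ := Nat.cast_le.2 h1
    _ ≤ _ := h2
    _ ≤ N * ((w : ℝ)⁻¹) := by
        refine mul_le_mul_of_nonneg_left ?_ (Nat.cast_nonneg _)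
        linarith
    _ = N / w := (div_eq_mul_inv _ _).symm

/-- `n ≤ b^Ω(n)` when all the prime factors of `n` are at most `b` -/
private theorem l8a_pow {n b k : ℕ} (hn : n ≠ 0) (hk : ArithmeticFunction.cardFactors n = k)
    (hb : ∀ q ∈ n.primeFactors, q ≤ b) : n ≤ b ^ k := by
  rw [ArithmeticFunction.cardFactors_apply] at hk
  rw [← hk]
  conv_lhs => rw [← Nat.prod_primeFactorsList hn]
  refine List.prod_le_pow_card _ _ ?_
  intro q hq
  exact hb q (by rw [Nat.mem_primeFactors_iff_mem_primeFactorsList]; exact hq)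

/-- the number of the prime factors -/
private theorem l8a_om {n : ℕ} (hn : n ≠ 0) (hs : Squarefree n) : n.primeFactors.card = ArithmeticFunction.cardFactors n := by
  rw [← (ArithmeticFunction.cardDistinctFactors_eq_cardFactors_iff_squarefree hn).2 hs]
  rfl

/-- the prime factors of `N` are at most `log_2 N` in number -/
private theorem l8a_log {N : ℕ} (hN : N ≠ 0) : N.primeFactors.card ≤ Nat.log 2 N := by
  refine Nat.le_log_of_pow_le (by norm_num) ?_
  refine le_trans ?_ (Nat.le_of_dvd (Nat.pos_of_ne_zero hN) (Nat.prod_primeFactors_dvd N))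
  exact Finset.pow_card_le_prod _ _ _ fun p hp => (Nat.prime_of_mem_primeFactors hp).two_le

private theorem l8a_two {p : ℕ} (hp : 2 ≤ p) : 2 ^ di p < p ∧ p ≤ 2 ^ (di p + 1) := by
  have h1 := Nat.pow_log_le_self 2 (show p - 1 ≠ 0 by omega)
  have h2 := Nat.lt_pow_succ_log_self (show 1 < 2 by norm_num) (p - 1)
  rw [Nat.succ_eq_add_one] at h2
  unfold di
  omega

/-- the representation `n = Q r` of a number of type (d) -/
private theorem l8a_rep (k U w N Z z p : ℕ) (S : Finset ℕ) (hk : 2 ≤ k) (hw : 1 ≤ w) (hS : ∀ q ∈ S, q.Prime ∧ w < q ∧ 2 * q ≤ U)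
    (h1 : U ≤ z) (h2 : z ^ k ≤ Z)
    (hp : p.Prime) (hpN : p < N) (hΩ : ArithmeticFunction.cardFactors (N - p) = k) (hmS : (N - p).minFac ∈ S) (hZ : Z < N - p) (hd : ¬ p ∣ N)
    (hsq : ∀ q : ℕ, w < q → ¬ q ^ 2 ∣ N - p) (hT : ¬ EL k U S (N - p)) :
    ∃ Q r : ℕ, Q ∈ QL (k - 1) U S (N / z) ∧ Nat.Coprime Q N ∧ r ∈ RR Q N ∧ Q * r = N - p := by
  set n := N - p with hn
  have hn0 : n ≠ 0 := by omega
  have hn1 : n ≠ 1 := by
    intro h
    rw [h, ArithmeticFunction.cardFactors_one] at hΩ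
    omega
  obtain ⟨q, hqm⟩ : ∃ q, q = n.minFac := ⟨_, rfl⟩
  rw [← hqm] at hmS
  obtain ⟨hqp, hwq, hqU⟩ := hS q hmS
  have hqn : q ∣ n := by
    rw [hqm]
    exact Nat.minFac_dvd n
  have hmin : ∀ s : ℕ, s.Prime → s ∣ n → q ≤ s := by
    intro s hs hsn
    rw [hqm]
    exact Nat.minFac_le_of_dvd hs.two_le hsn
  obtain ⟨hd1, hd2⟩ := l8a_two hqp.two_le
  have hne : n.primeFactors.Nonempty := Nat.nonempty_primeFactors.2 (by omega)
  obtain ⟨r, hr, hmax⟩ := n.primeFactors.exists_max_image id hne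
  have hrp : r.Prime := Nat.prime_of_mem_primeFactors hr
  have hrd : r ∣ n := Nat.dvd_of_mem_primeFactors hr
  have hnr : n ≤ r ^ k := l8a_pow hn0 hΩ fun q hq => hmax q hq
  have hk0 : k ≠ 0 := by omega
  have hzr : z < r := by
    by_contra h
    have h4 : r ^ k ≤ z ^ k := Nat.pow_le_pow_left (not_lt.1 h) k
    omega
  have hall : ∀ s ∈ n.primeFactors, w < s := by
    intro s hs
    have := hmin s (Nat.prime_of_mem_primeFactors hs) (Nat.dvd_of_mem_primeFactors hs)
    omega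
  have hsf : Squarefree n := by
    rw [Nat.squarefree_iff_prime_squarefree]
    intro q hqp hqd
    have h4 : q ∣ n := (Dvd.intro _ rfl).trans hqd
    exact hsq q (hall q (Nat.mem_primeFactors.2 ⟨hqp, h4, hn0⟩)) (by rw [sq]; exact hqd)
  -- the other prime
  have hs : ∃ s : ℕ, s.Prime ∧ s ∣ n ∧ s ≠ r ∧ s ≠ q ∧ (s ≤ 2 ^ (di q + 1) ∨ U < s) := by
    by_cases hc : ∃ s : ℕ, s.Prime ∧ s ∣ n ∧ s ≠ q ∧ s ≤ 2 ^ (di q + 1)
    · obtain ⟨s, hsp, hsd, hsq', hsw⟩ := hc
      refine ⟨s, hsp, hsd, ?_, hsq', Or.inl hsw⟩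
      have h5 : 2 ^ (di q + 1) = 2 * 2 ^ di q := by rw [pow_succ, mul_comm]
      omega
    · have hcard : (n.primeFactors.filter fun q => U < q).card ≠ 1 := by
        intro h
        refine hT ⟨hsf, (l8a_om hn0 hsf).trans hΩ, ⟨q, hmS, hqn, ?_⟩, h⟩
        intro s hs hsq'
        by_contra h6
        exact hc ⟨s, Nat.prime_of_mem_primeFactors hs, Nat.dvd_of_mem_primeFactors hs, hsq', not_lt.1 h6⟩
      have hcard0 : (n.primeFactors.filter fun q => U < q).card ≠ 0 := by
        intro h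
        rw [card_eq_zero, filter_eq_empty_iff] at h
        exact h hr (by omega)
      have h4 : 1 < (n.primeFactors.filter fun q => U < q).card := by omega
      obtain ⟨a, ha, b, hb, hab⟩ := Finset.one_lt_card.1 h4
      rw [mem_filter] at ha hb
      by_cases har : a = r
      · exact ⟨b, Nat.prime_of_mem_primeFactors hb.1, Nat.dvd_of_mem_primeFactors hb.1, fun h => hab (har.trans h.symm), by omega, Or.inr hb.2⟩
      · exact ⟨a, Nat.prime_of_mem_primeFactors ha.1, Nat.dvd_of_mem_primeFactors ha.1, har, by omega, Or.inr ha.2⟩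
  obtain ⟨s, hsp, hsd, hsr, hsqq, hsw⟩ := hs
  obtain ⟨Q, hQ⟩ := hrd
  have hQ0 : Q ≠ 0 := by
    rintro rfl
    omega
  have hqr : q ≠ r := by omega
  have hqQ : q ∣ Q := by
    rw [hQ] at hqn
    rcases (Nat.Prime.dvd_mul hqp).1 hqn with h | h
    · exact absurd ((Nat.prime_dvd_prime_iff_eq hqp hrp).1 h) hqr
    · exact h
  have hsQ : s ∣ Q := by
    rw [hQ] at hsd
    rcases (Nat.Prime.dvd_mul hsp).1 hsd with h | h
    · exact absurd ((Nat.prime_dvd_prime_iff_eq hsp hrp).1 h) hsr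
    · exact h
  have hqsQ : q * s ∣ Q :=
    Nat.Coprime.mul_dvd_of_dvd_of_dvd ((Nat.coprime_primes hqp hsp).2 (fun h => hsqq h.symm)) hqQ hsQ
  have hΩQ : ArithmeticFunction.cardFactors Q = k - 1 := by
    rw [hQ, ArithmeticFunction.cardFactors_mul hrp.ne_zero hQ0, ArithmeticFunction.cardFactors_apply_prime hrp] at hΩ
    omega
  have hQz : Q * z ≤ N := by
    calc Q * z ≤ Q * r := Nat.mul_le_mul_left _ hzr.le
      _ = n := by rw [hQ, mul_comm]
      _ ≤ N := Nat.sub_le _ _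
  have hz0 : 0 < z := by omega
  have hrQ : r * Q ≤ N := by
    rw [← hQ]
    exact Nat.sub_le _ _
  have hQn : Q * r = n := by rw [hQ, mul_comm]
  have hNQ : N - Q * r = p := by omega
  have hminQ : ∀ t : ℕ, t.Prime → t ∣ Q → q ≤ t := by
    intro t ht htQ
    refine hmin t ht ?_
    rw [hQ]
    exact htQ.mul_left r
  refine ⟨Q, r, ?_, ?_, ?_, hQn⟩
  · classical
    unfold QL
    rw [mem_filter, mem_Icc]
    exact ⟨⟨Nat.one_le_iff_ne_zero.2 hQ0, (Nat.le_div_iff_mul_le hz0).2 hQz⟩, hΩQ, q, hmS, hqQ, hminQ, s, hsp, hqsQ, hsw⟩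
  · have h4 : Nat.gcd Q N ∣ p := by
      rw [← hNQ]
      exact Nat.dvd_sub (Nat.gcd_dvd_right _ _) ((Nat.gcd_dvd_left Q N).mul_right r)
    rcases (Nat.dvd_prime hp).1 h4 with h5 | h5
    · exact h5
    · exact absurd (h5 ▸ Nat.gcd_dvd_right Q N) hd
  · unfold RR
    rw [mem_filter, mem_Icc]
    refine ⟨⟨hrp.one_le, (Nat.le_div_iff_mul_le (Nat.pos_of_ne_zero hQ0)).2 hrQ⟩, hrp, ?_, ?_⟩
    · have := hp.pos
      omega
    · rw [hNQ]
      exact hp

/-- the typical numbers are counted -/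
private theorem l8a_EL {k U w n : ℕ} {S : Finset ℕ} (hk : 2 ≤ k) (hS : ∀ q ∈ S, q.Prime ∧ w < q ∧ 2 * q ≤ U) (hn : n ≠ 0)
    (h : EL k U S n) : ArithmeticFunction.cardFactors n = k ∧ n.minFac ∈ S := by
  obtain ⟨h1, h2, ⟨q, hqS, hqn, hall⟩, -⟩ := h
  have hΩ : ArithmeticFunction.cardFactors n = k := (l8a_om hn h1).symm.trans h2
  refine ⟨hΩ, ?_⟩
  have hn1 : n ≠ 1 := by
    intro h
    rw [h, ArithmeticFunction.cardFactors_one] at hΩ
    omega
  obtain ⟨hqp, -, -⟩ := hS q hqS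
  have h3 : n.minFac.Prime := Nat.minFac_prime hn1
  have h4 : n.minFac ≤ q := Nat.minFac_le_of_dvd hqp.two_le hqn
  obtain ⟨-, h5⟩ := l8a_two hqp.two_le
  by_cases h6 : n.minFac = q
  · rw [h6]
    exact hqS
  · have h7 := hall n.minFac (Nat.mem_primeFactors.2 ⟨h3, Nat.minFac_dvd n, hn⟩) h6
    omega

theorem l8a (k U w N Z z : ℕ) (S : Finset ℕ) (hk : 2 ≤ k) (hw : 1 ≤ w) (hS : ∀ q ∈ S, q.Prime ∧ w < q ∧ 2 * q ≤ U) (h1 : U ≤ z)
    (h2 : z ^ k ≤ Z) :
    TL k U S N ≤ TS k S N ∧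
    (TS k S N : ℝ) ≤ TL k U S N + (Z + (N : ℝ) / w + (Nat.log 2 N : ℕ) +
      ∑ Q ∈ (QL (k - 1) U S (N / z)).filter fun Q => Nat.Coprime Q N, ((RR Q N).card : ℝ)) := by
  classical
  set ST := (range N).filter fun p => p.Prime ∧ EL k U S (N - p) with hST
  set SK := (range N).filter fun p => p.Prime ∧ ArithmeticFunction.cardFactors (N - p) = k ∧ (N - p).minFac ∈ S with hSK
  have hTT : TL k U S N = ST.card := by
    rw [hST]
    unfold TL
    congr 1
  have hTK : TS k S N = SK.card := by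
    rw [hSK]
    unfold TS
    congr 1
  refine ⟨?_, ?_⟩
  · rw [hTT, hTK]
    refine card_le_card ?_
    intro p hp
    rw [hST, mem_filter, mem_range] at hp
    rw [hSK, mem_filter, mem_range]
    have h3 := l8a_EL hk hS (by omega) hp.2.2
    exact ⟨hp.1, hp.2.1, h3.1, h3.2⟩
  · rw [hTT, hTK]
    set SA := (range N).filter fun p => N - p ≤ Z with hSA
    set SB := (range N).filter fun p => p.Prime ∧ p ∣ N with hSB
    set SC := (range N).filter fun p => ∃ q : ℕ, w < q ∧ q ^ 2 ∣ N - p with hSC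
    set SD := SK.filter fun p => Z < N - p ∧ ¬ p ∣ N ∧ (∀ q : ℕ, w < q → ¬ q ^ 2 ∣ N - p) ∧ p ∉ ST with hSD
    have hsub : SK ⊆ ST ∪ (SA ∪ (SB ∪ (SC ∪ SD))) := by
      intro p hp
      have hp' := hp
      rw [hSK, mem_filter, mem_range] at hp'
      have hr : p ∈ range N := mem_range.2 hp'.1
      by_cases a0 : p ∈ ST
      · exact mem_union_left _ a0
      · refine mem_union_right _ ?_
        by_cases a1 : N - p ≤ Z
        · exact mem_union_left _ (mem_filter.2 ⟨hr, a1⟩)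
        · refine mem_union_right _ ?_
          by_cases a2 : p ∣ N
          · exact mem_union_left _ (mem_filter.2 ⟨hr, hp'.2.1, a2⟩)
          · refine mem_union_right _ ?_
            by_cases a3 : ∃ q : ℕ, w < q ∧ q ^ 2 ∣ N - p
            · exact mem_union_left _ (mem_filter.2 ⟨hr, a3⟩)
            · refine mem_union_right _ (mem_filter.2 ⟨hp, not_le.1 a1, a2, ?_, a0⟩)
              intro q hq hd
              exact a3 ⟨q, hq, hd⟩
    have hc : SK.card ≤ ST.card + (SA.card + (SB.card + (SC.card + SD.card))) := by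
      refine (card_le_card hsub).trans ((card_union_le _ _).trans ?_)
      refine Nat.add_le_add_left ((card_union_le _ _).trans ?_) _
      refine Nat.add_le_add_left ((card_union_le _ _).trans ?_) _
      exact Nat.add_le_add_left (card_union_le _ _) _
    have hcA : SA.card ≤ Z := by
      have h4 : SA.card ≤ (Icc 1 Z).card := by
        refine card_le_card_of_injOn (fun p => N - p) ?_ ?_
        · intro p hp
          have hp' : p ∈ SA := by simpa using hp
          rw [hSA, mem_filter, mem_range] at hp'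
          have h5 : N - p ∈ Icc 1 Z := by
            rw [mem_Icc]
            omega
          simpa using h5
        · intro p hp p' hp' h
          have h5 : p ∈ SA := by simpa using hp
          have h6 : p' ∈ SA := by simpa using hp'
          rw [hSA, mem_filter, mem_range] at h5 h6
          simp only at h
          omega
      rwa [Nat.card_Icc, Nat.add_sub_cancel] at h4
    have hcB : SB.card ≤ Nat.log 2 N := by
      rcases Nat.eq_zero_or_pos N with h0 | h0
      · rw [hSB, h0]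
        simp
      · refine le_trans (card_le_card ?_) (l8a_log h0.ne')
        intro p hp
        rw [hSB, mem_filter] at hp
        exact Nat.mem_primeFactors.2 ⟨hp.2.1, hp.2.2, h0.ne'⟩
    have hcC : (SC.card : ℝ) ≤ N / w := by
      refine l8a_sq w N hw SC ?_
      intro p hp
      rw [hSC, mem_filter, mem_range] at hp
      exact hp
    have hcD : SD.card ≤ ∑ Q ∈ (QL (k - 1) U S (N / z)).filter fun Q => Nat.Coprime Q N, (RR Q N).card := by
      rw [← card_sigma]
      refine card_le_card_of_surjOn (fun x => N - x.1 * x.2) ?_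
      intro p hp
      have hp' : p ∈ SD := by simpa using hp
      rw [hSD, mem_filter] at hp'
      obtain ⟨b0, b1, b2, b3, b4⟩ := hp'
      rw [hSK, mem_filter, mem_range] at b0
      obtain ⟨Q, r, c1, c2, c3, c4⟩ := l8a_rep k U w N Z z p S hk hw hS h1 h2 b0.2.1 b0.1 b0.2.2.1 b0.2.2.2 b1 b2 b3 (fun h =>
        b4 (by rw [hST, mem_filter, mem_range]; exact ⟨b0.1, b0.2.1, h⟩))
      refine ⟨⟨Q, r⟩, ?_, ?_⟩
      · have h5 : (⟨Q, r⟩ : (_ : ℕ) × ℕ) ∈ ((QL (k - 1) U S (N / z)).filter fun Q => Nat.Coprime Q N).sigma fun Q => RR Q N := by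
          rw [mem_sigma, mem_filter]
          exact ⟨⟨c1, c2⟩, c3⟩
        simpa using h5
      · have := b0.1
        simp only
        omega
    have hc' : (SK.card : ℝ) ≤ ST.card + ((SA.card : ℝ) + ((SB.card : ℝ) + ((SC.card : ℝ) + (SD.card : ℝ)))) := by
      have := (Nat.cast_le (α := ℝ)).2 hc
      push_cast at this
      exact this
    have hA' : (SA.card : ℝ) ≤ Z := Nat.cast_le.2 hcA
    have hB' : (SB.card : ℝ) ≤ (Nat.log 2 N : ℕ) := Nat.cast_le.2 hcB
    have hD' : (SD.card : ℝ) ≤ ∑ Q ∈ (QL (k - 1) U S (N / z)).filter fun Q => Nat.Coprime Q N, ((RR Q N).card : ℝ) := by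
      have := (Nat.cast_le (α := ℝ)).2 hcD
      rwa [Nat.cast_sum] at this
    linarith

end Pool.Agent.Lib.G8
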