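import Pool.Agent.Lib.G8.L6
import Pool.Agent.Lib.G8.L7
import Pool.Agent.Lib.G8.L8
import Pool.Agent.Lib.G6.Nn
import Pool.Agent.Lib.G3.FinA

/-!
# G8, row L9: the asymptotic formula for the representations with the least prime factor in `S`, windows `H ≥ w' (log X)^C`
-/

set_option autoImplicit false

open Finset

namespace Pool.Agent.Lib.G8

open Pool.Agent.Lib.G3 (SS fin_cover)
open Pool.Agent.Lib.G5 (PP esy q8)
open Pool.Agent.Lib.G6 (nn)

private theorem l9_ev (C c M : ℕ) (hM : 1 ≤ M) : ∃ X0 : ℕ, ∀ X : ℕ, X0 ≤ X → 16 ≤ (X : ℝ) ∧ 2 ^ (C + c + 2) + 4 ≤ Real.log X ∧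
    2 * ((X : ℝ) ^ (1 / (2 * M + 8) : ℝ) * (Real.log X) ^ (C + 1) + 1) ≤ Real.sqrt X ∧
    2 * (X : ℝ) ^ (1 / (2 * M + 8) : ℝ) + 1 ≤ (X : ℝ) ^ (1 / (M : ℝ)) := by
  have hlog : ∀ᶠ x : ℝ in Filter.atTop, (Real.log x) ^ ((C + 1 : ℕ) : ℝ) ≤ (1 / 4) * x ^ (1 / 4 : ℝ) := by
    have h1 := (isLittleO_log_rpow_rpow_atTop (s := 1 / 4) ((C + 1 : ℕ) : ℝ) (by norm_num)).bound
      (c := 1 / 4) (by norm_num)
    filter_upwards [h1, Filter.eventually_ge_atTop (1 : ℝ)] with x hx hx1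
    rwa [Real.norm_of_nonneg (Real.rpow_nonneg (Real.log_nonneg hx1) _), Real.norm_of_nonneg (by positivity)] at hx
  have hl4 : ∀ᶠ x : ℝ in Filter.atTop, (2 : ℝ) ^ (C + c + 2) + 4 ≤ Real.log x :=
    Real.tendsto_log_atTop.eventually (Filter.eventually_ge_atTop _)
  have hM0 : (0 : ℝ) < M := by exact_mod_cast hM
  have hp : ∀ᶠ x : ℝ in Filter.atTop, (3 : ℝ) ≤ x ^ (1 / (2 * M : ℝ)) :=
    (tendsto_rpow_atTop (by positivity)).eventually (Filter.eventually_ge_atTop _)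
  obtain ⟨x1, hx1⟩ := Filter.eventually_atTop.1 (((hlog.and hl4).and hp).and (Filter.eventually_ge_atTop (256 : ℝ)))
  refine ⟨⌈x1⌉₊, fun X hX => ?_⟩
  have hX' : x1 ≤ X := (Nat.le_ceil _).trans (by exact_mod_cast hX)
  obtain ⟨⟨⟨h1, h2⟩, h4⟩, h3⟩ := hx1 X hX'
  rw [Real.rpow_natCast] at h1
  have hX0 : (0 : ℝ) < X := by linarith
  have hX1 : (1 : ℝ) ≤ X := by linarith
  refine ⟨by linarith, h2, ?_, ?_⟩
  · have e1 : Real.sqrt X = (X : ℝ) ^ (1 / 4 : ℝ) * (X : ℝ) ^ (1 / 4 : ℝ) := by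
      rw [Real.sqrt_eq_rpow, ← Real.rpow_add hX0]
      norm_num
    have e2 : (X : ℝ) ^ (1 / (2 * M + 8) : ℝ) ≤ (X : ℝ) ^ (1 / 4 : ℝ) := by
      refine Real.rpow_le_rpow_of_exponent_le hX1 ?_
      rw [div_le_div_iff₀ (by positivity) (by norm_num)]
      linarith
    have e3 : (4 : ℝ) ≤ (X : ℝ) ^ (1 / 4 : ℝ) := by
      calc (4 : ℝ) = (256 : ℝ) ^ (1 / 4 : ℝ) := by
            rw [show (256 : ℝ) = 4 ^ (4 : ℝ) by norm_num, ← Real.rpow_mul (by norm_num)]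
            norm_num
        _ ≤ _ := Real.rpow_le_rpow (by norm_num) h3 (by norm_num)
    rw [e1]
    have e4 : (X : ℝ) ^ (1 / (2 * M + 8) : ℝ) * (Real.log X) ^ (C + 1) ≤ (X : ℝ) ^ (1 / 4 : ℝ) * (1 / 4 * (X : ℝ) ^ (1 / 4 : ℝ)) := by
      refine mul_le_mul e2 h1 ?_ (by positivity)
      exact pow_nonneg (Real.log_nonneg hX1) _
    nlinarith
  · have e1 : (X : ℝ) ^ (1 / (M : ℝ)) = (X : ℝ) ^ (1 / (2 * M : ℝ)) * (X : ℝ) ^ (1 / (2 * M : ℝ)) := by
      rw [← Real.rpow_add hX0]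
      congr 1
      field_simp
      norm_num
    have e2 : (X : ℝ) ^ (1 / (2 * M + 8) : ℝ) ≤ (X : ℝ) ^ (1 / (2 * M : ℝ)) := by
      refine Real.rpow_le_rpow_of_exponent_le hX1 ?_
      rw [div_le_div_iff₀ (by positivity) (by positivity)]
      linarith
    have e3 : (1 : ℝ) ≤ (X : ℝ) ^ (1 / (2 * M + 8) : ℝ) := Real.one_le_rpow hX1 (by positivity)
    rw [e1]
    nlinarith [mul_le_mul e2 h4 (by norm_num) (by positivity)]

/-- the parameter `U` at `Y` -/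
private theorem l9_U (M : ℕ) (hM : 1 ≤ M) (Y : ℕ) (hY : 1 ≤ Y) : ∃ U : ℕ, U ^ M ≤ Y ∧ Y ≤ (U + 1) ^ M ∧ (Y : ℝ) ^ (1 / (M : ℝ)) - 1 ≤ U := by
  have hn0 : (0 : ℝ) < M := by exact_mod_cast hM
  have hY0 : (0 : ℝ) < Y := by exact_mod_cast hY
  have hy : (0 : ℝ) ≤ (Y : ℝ) ^ (1 / (M : ℝ)) := by positivity
  have b1 : ((⌊(Y : ℝ) ^ (1 / (M : ℝ))⌋₊ : ℕ) : ℝ) ≤ (Y : ℝ) ^ (1 / (M : ℝ)) := Nat.floor_le hy
  have b2 : (Y : ℝ) ^ (1 / (M : ℝ)) < (⌊(Y : ℝ) ^ (1 / (M : ℝ))⌋₊ : ℝ) + 1 := Nat.lt_floor_add_one _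
  have e1 : ((Y : ℝ) ^ (1 / (M : ℝ))) ^ M = Y := by
    rw [← Real.rpow_natCast, ← Real.rpow_mul hY0.le]
    rw [one_div, inv_mul_cancel₀ hn0.ne', Real.rpow_one]
  refine ⟨⌊(Y : ℝ) ^ (1 / (M : ℝ))⌋₊, ?_, ?_, by linarith⟩
  · have h : ((⌊(Y : ℝ) ^ (1 / (M : ℝ))⌋₊ : ℕ) : ℝ) ^ M ≤ Y := by
      calc ((⌊(Y : ℝ) ^ (1 / (M : ℝ))⌋₊ : ℕ) : ℝ) ^ M ≤ ((Y : ℝ) ^ (1 / (M : ℝ))) ^ M := pow_le_pow_left₀ (Nat.cast_nonneg _) b1 M
        _ = Y := e1
    exact_mod_cast h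
  · have h : (Y : ℝ) ≤ ((⌊(Y : ℝ) ^ (1 / (M : ℝ))⌋₊ : ℝ) + 1) ^ M := by
      calc (Y : ℝ) = ((Y : ℝ) ^ (1 / (M : ℝ))) ^ M := e1.symm
        _ ≤ _ := pow_le_pow_left₀ hy b2.le M
    exact_mod_cast h

/-- the comparison at one `N` -/
private theorem l9_cmp {S sg P f b a TN TU β ε ε2 : ℝ} (hS : 0 ≤ S) (hb : 0 ≤ b) (ha : 0 ≤ a) (hf : 1 ≤ f) (hβ0 : 0 ≤ β)
    (hβ : β ≤ P) (hε : 0 < ε) (hε1 : ε ≤ 1) (hε2 : ε2 * f = ε / 16) (h6 : |TU - S * sg * b| ≤ ε2 * (S * (sg + β) * b))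
    (h7 : |sg - P / f| ≤ ε2 * (P / f)) (h8 : |TN - TU| ≤ ε2 * (S * b * (P + β))) (hnn : |b - a| ≤ ε2 * a) :
    |TN - S * (a * (P / f))| ≤ ε * (S * (a * (P / f))) := by
  have hf0 : 0 < f := by linarith
  have hP : 0 ≤ P := hβ0.trans hβ
  have h20 : 0 < ε2 := by
    by_contra h
    have h' : ε2 ≤ 0 := not_lt.mp h
    nlinarith
  have h21 : ε2 ≤ 1 / 16 := by nlinarith
  obtain ⟨n1, n2⟩ := abs_le.1 hnn
  have hB : b ≤ 2 * a := by nlinarith
  have hPf : P / f ≤ P := div_le_self hP hf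
  have hPf0 : 0 ≤ P / f := by positivity
  have hsg1 : sg ≤ 2 * P := by
    have := (abs_le.1 h7).2
    nlinarith
  have t1 : ε2 * (S * (sg + β) * b) ≤ ε2 * (6 * (S * P * a)) := by
    refine mul_le_mul_of_nonneg_left ?_ h20.le
    calc S * (sg + β) * b ≤ S * (3 * P) * b := by
          refine mul_le_mul_of_nonneg_right (mul_le_mul_of_nonneg_left ?_ hS) hb
          linarith
      _ ≤ S * (3 * P) * (2 * a) := by gcongr
      _ = 6 * (S * P * a) := by ring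
  have t2 : |S * b * (sg - P / f)| ≤ ε2 * (2 * (S * P * a)) := by
    rw [abs_mul, abs_of_nonneg (mul_nonneg hS hb)]
    calc S * b * |sg - P / f| ≤ S * b * (ε2 * (P / f)) := mul_le_mul_of_nonneg_left h7 (mul_nonneg hS hb)
      _ ≤ S * (2 * a) * (ε2 * P) := by gcongr
      _ = ε2 * (2 * (S * P * a)) := by ring
  have t3 : |S * (P / f) * (b - a)| ≤ ε2 * (S * P * a) := by
    rw [abs_mul, abs_of_nonneg (mul_nonneg hS hPf0)]
    calc S * (P / f) * |b - a| ≤ S * (P / f) * (ε2 * a) := mul_le_mul_of_nonneg_left hnn (mul_nonneg hS hPf0)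
      _ ≤ S * P * (ε2 * a) := by gcongr
      _ = ε2 * (S * P * a) := by ring
  have t4 : ε2 * (S * b * (P + β)) ≤ ε2 * (4 * (S * P * a)) := by
    refine mul_le_mul_of_nonneg_left ?_ h20.le
    calc S * b * (P + β) ≤ S * (2 * a) * (2 * P) := by
          refine mul_le_mul (mul_le_mul_of_nonneg_left hB hS) (by linarith) (by linarith) (by positivity)
      _ = 4 * (S * P * a) := by ring
  have e : TN - S * (a * (P / f)) = (TN - TU) + (TU - S * sg * b) + S * b * (sg - P / f) + S * (P / f) * (b - a) := by ring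
  have hfin : ε2 * (13 * (S * P * a)) = ε * (13 / 16) * (S * (a * (P / f))) := by
    have : ε2 = ε / 16 / f := by
      rw [eq_div_iff hf0.ne']
      exact hε2
    rw [this]
    field_simp
  rw [e]
  refine (abs_add_le _ _).trans ?_
  have u1 := abs_add_le ((TN - TU) + (TU - S * sg * b)) (S * b * (sg - P / f))
  have u2 := abs_add_le (TN - TU) (TU - S * sg * b)
  have hSa : 0 ≤ S * (a * (P / f)) := by positivity
  nlinarith [mul_nonneg hε.le hSa]

theorem g8 (k A B : ℕ) (hk : 2 ≤ k) : ∃ c₀ C : ℕ, ∀ ε : ℝ, 0 < ε → ∃ η : ℝ, 0 < η ∧ ∃ X₀ : ℕ, ∀ X H : ℕ, ∀ (w' : ℝ) (S : Finset ℕ),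
    X₀ ≤ X → (∀ q ∈ S, q.Prime ∧ (Real.log X) ^ c₀ ≤ q ∧ (q : ℝ) ≤ w') → w' ≤ (X : ℝ) ^ η → w' * (Real.log X) ^ C ≤ H → H ≤ X →
    1 / (Real.log X) ^ B ≤ ∑ q ∈ S, 1 / (q : ℝ) →
      (((Ioc X (X + H)).filter fun N => Even N ∧ ε * MS k S N < |(TS k S N : ℝ) - MS k S N|).card : ℝ) ≤ H / (Real.log X) ^ A := by
  classical
  obtain ⟨c10, h6⟩ := l6 k (A + 1) B hk
  obtain ⟨C1, h6⟩ := h6 c10 le_rfl
  refine ⟨c10 + B + 6, C1 + 2, fun ε hε => ?_⟩
  obtain ⟨f, hf⟩ : ∃ f : ℝ, f = (Nat.factorial (k - 2) : ℝ) := ⟨_, rfl⟩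
  have hf1 : 1 ≤ f := by
    rw [hf]
    exact_mod_cast Nat.one_le_iff_ne_zero.mpr (Nat.factorial_ne_zero _)
  obtain ⟨ε', hε'⟩ : ∃ ε' : ℝ, ε' = min ε 1 := ⟨_, rfl⟩
  have hε'0 : 0 < ε' := by rw [hε']; exact lt_min hε one_pos
  have hε'1 : ε' ≤ 1 := by rw [hε']; exact min_le_right _ _
  have hε'ε : ε' ≤ ε := by rw [hε']; exact min_le_left _ _
  obtain ⟨ε2, hε2⟩ : ∃ ε2 : ℝ, ε2 = ε' / (16 * f) := ⟨_, rfl⟩
  have hε20 : 0 < ε2 := by rw [hε2]; positivity
  have hε2f : ε2 * f = ε' / 16 := by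
    rw [hε2]
    field_simp
  obtain ⟨M0, x0, h6⟩ := h6 ε2 hε20
  obtain ⟨M, hMd⟩ : ∃ M : ℕ, M = M0 + 4 * k + 1 := ⟨_, rfl⟩
  have hM1 : 1 ≤ M := by omega
  have hMk : 4 * k ≤ M := by omega
  have hM0M : M0 ≤ M := by omega
  obtain ⟨X1, hX1⟩ := l9_ev C1 (c10 + B + 6) M hM1
  obtain ⟨η7, hη7, y7, h7⟩ := l7 k M hk hM1 ε2 hε20
  obtain ⟨η8, hη8, y8, h8⟩ := l8 k B M hk hMk ε2 hε20
  obtain ⟨y4, hy4⟩ := nn 1 ε2 hε20
  obtain ⟨η, hη⟩ : ∃ η : ℝ, η = min (min η7 η8) (1 / (2 * M + 8)) := ⟨_, rfl⟩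
  have hη0 : 0 < η := by rw [hη]; exact lt_min (lt_min hη7 hη8) (by positivity)
  have hηa : η ≤ η7 := by rw [hη]; exact (min_le_left _ _).trans (min_le_left _ _)
  have hηb : η ≤ η8 := by rw [hη]; exact (min_le_left _ _).trans (min_le_right _ _)
  have hηc : η ≤ 1 / (2 * M + 8) := by rw [hη]; exact min_le_right _ _
  have hM0r : (0 : ℝ) ≤ M := Nat.cast_nonneg _
  have hηd : η ≤ 1 / 8 := by
    refine hηc.trans ?_
    rw [div_le_div_iff₀ (by positivity) (by norm_num)]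
    linarith
  refine ⟨η, hη0, max X1 (max ⌈x0⌉₊ (max ⌈y4⌉₊ (max ⌈y7⌉₊ ⌈y8⌉₊))), ?_⟩
  intro X H w' S hX hS hw2 hH1 hH2 hsum
  have hXa : X1 ≤ X := (le_max_left _ _).trans hX
  have hX' := (le_max_right _ _).trans hX
  have hXb : x0 ≤ X := (Nat.le_ceil _).trans (by exact_mod_cast (le_max_left _ _).trans hX')
  have hX' := (le_max_right _ _).trans hX'
  have hXc : y4 ≤ X := (Nat.le_ceil _).trans (by exact_mod_cast (le_max_left _ _).trans hX')
  have hX' := (le_max_right _ _).trans hX'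
  have hXd : y7 ≤ X := (Nat.le_ceil _).trans (by exact_mod_cast (le_max_left _ _).trans hX')
  have hXe : y8 ≤ X := (Nat.le_ceil _).trans (by exact_mod_cast (le_max_right _ _).trans hX')
  obtain ⟨g1, g2, g3, g4⟩ := hX1 X hXa
  obtain ⟨l, hl⟩ : ∃ l : ℝ, l = Real.log X := ⟨_, rfl⟩
  rw [← hl] at g2 g3 hS hH1 hsum ⊢
  have hX0 : (0 : ℝ) < X := by linarith
  have hXone : (1 : ℝ) ≤ X := by linarith
  have p2 : (0 : ℝ) < 2 ^ (C1 + (c10 + B + 6) + 2) := by positivity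
  have hl4 : 4 ≤ l := by linarith
  have hne : S.Nonempty := by
    by_contra h
    rw [not_nonempty_iff_eq_empty] at h
    rw [h, sum_empty] at hsum
    have : 0 < 1 / l ^ B := by positivity
    linarith
  have hw'1 : 1 ≤ w' := by
    obtain ⟨q, hq⟩ := hne
    obtain ⟨-, a2, a3⟩ := hS q hq
    have : (1 : ℝ) ≤ l ^ (c10 + B + 6) := one_le_pow₀ (by linarith)
    linarith
  obtain ⟨h, hh⟩ : ∃ h : ℕ, h = ⌈w' * l ^ (C1 + 1)⌉₊ := ⟨_, rfl⟩
  have hlC : (1 : ℝ) ≤ l ^ (C1 + 1) := one_le_pow₀ (by linarith)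
  have hlC2 : l ^ (C1 + 2) = l ^ (C1 + 1) * l := pow_succ _ _
  have hh1 : w' * l ^ (C1 + 1) ≤ h := by rw [hh]; exact Nat.le_ceil _
  have hh2 : (h : ℝ) ≤ w' * l ^ (C1 + 1) + 1 := by rw [hh]; exact (Nat.ceil_lt_add_one (by positivity)).le
  have hh0 : 1 ≤ h := by
    have : (1 : ℝ) ≤ h := by nlinarith
    exact_mod_cast this
  have hhH : h ≤ H := by
    rw [hh, Nat.ceil_le]
    refine le_trans ?_ hH1
    refine mul_le_mul_of_nonneg_left ?_ (by linarith)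
    exact pow_le_pow_right₀ (by linarith) (by omega)
  have hcov := fin_cover (fun N : ℕ => Even N ∧ ε * MS k S N < |(TS k S N : ℝ) - MS k S N|)
    (X := X) (H := H) (h := h) (S := (H : ℝ) + h) (ε := 1 / l ^ (A + 1)) hh0 hhH (by positivity) le_rfl ?_
  · refine hcov.trans ?_
    have h7 : l ^ (A + 1) = l ^ A * l := pow_succ _ _
    have h8 : 0 < l ^ A := by positivity
    rw [h7, mul_one_div, div_le_div_iff₀ (by positivity) h8]
    have : (0 : ℝ) ≤ H := Nat.cast_nonneg _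
    nlinarith [mul_nonneg this h8.le]
  · intro Y hY1 hY2
    have hY1' : (X : ℝ) ≤ Y := by exact_mod_cast hY1
    have hY2' : (Y : ℝ) ≤ 2 * X := by
      have : (H : ℝ) ≤ X := by exact_mod_cast hH2
      linarith
    have hY0 : (0 : ℝ) < Y := by linarith
    have hYone : (1 : ℝ) ≤ Y := by linarith
    have hY1n : 1 ≤ Y := by exact_mod_cast hYone
    have hlY1 : l ≤ Real.log Y := by rw [hl]; exact Real.log_le_log hX0 hY1'
    have hlY2 : Real.log Y ≤ 2 * l := by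
      have e1 : Real.log Y ≤ Real.log (2 * X) := Real.log_le_log hY0 hY2'
      rw [Real.log_mul (by norm_num) hX0.ne', ← hl] at e1
      have e2 := Real.log_two_lt_d9
      linarith
    have hlY0 : 1 ≤ Real.log Y := by linarith
    have hpow : ∀ c : ℕ, c + 2 ≤ c10 + B + 6 → (Real.log Y) ^ c ≤ l ^ (c10 + B + 6) := by
      intro c hc
      calc (Real.log Y) ^ c ≤ (2 * l) ^ c := pow_le_pow_left₀ (by linarith) hlY2 _
        _ = 2 ^ c * l ^ c := mul_pow _ _ _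
        _ ≤ l * l ^ c := by
            refine mul_le_mul_of_nonneg_right ?_ (by positivity)
            have : (2 : ℝ) ^ c ≤ 2 ^ (C1 + (c10 + B + 6) + 2) := pow_le_pow_right₀ (by norm_num) (by omega)
            linarith
        _ = l ^ (c + 1) := by ring
        _ ≤ l ^ (c10 + B + 6) := pow_le_pow_right₀ (by linarith) (by omega)
    obtain ⟨U, u1, u2, u3⟩ := l9_U M hM1 Y hY1n
    have hXY : (X : ℝ) ^ (1 / (M : ℝ)) ≤ (Y : ℝ) ^ (1 / (M : ℝ)) := Real.rpow_le_rpow hX0.le hY1' (by positivity)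
    have hw2' : w' ≤ (X : ℝ) ^ (1 / (2 * M + 8) : ℝ) := hw2.trans (Real.rpow_le_rpow_of_exponent_le hXone hηc)
    have hU2 : 2 * ⌊w'⌋₊ ≤ U := by
      have e1 : ((⌊w'⌋₊ : ℕ) : ℝ) ≤ w' := Nat.floor_le (by linarith)
      have e2 : ((2 * ⌊w'⌋₊ : ℕ) : ℝ) ≤ U := by
        push_cast
        linarith
      exact_mod_cast e2
    have hU1 : 1 ≤ U := by
      have e1 : 1 ≤ ⌊w'⌋₊ := Nat.le_floor (by exact_mod_cast hw'1)
      omega
    have hRg : RgL Y U ⌊w'⌋₊ c10 M0 S := by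
      refine ⟨fun q hq => ?_, hU2, (Nat.pow_le_pow_right hU1 hM0M).trans u1⟩
      obtain ⟨a1, a2, a3⟩ := hS q hq
      exact ⟨a1, (hpow (c10 + 1) (by omega)).trans a2, Nat.le_floor a3⟩
    have hhY : ((⌊w'⌋₊ : ℕ) : ℝ) * (Real.log Y) ^ C1 ≤ h := by
      refine le_trans ?_ hh1
      have e1 : ((⌊w'⌋₊ : ℕ) : ℝ) ≤ w' := Nat.floor_le (by linarith)
      have e2 : (Real.log Y) ^ C1 ≤ l ^ (C1 + 1) := by
        calc (Real.log Y) ^ C1 ≤ (2 * l) ^ C1 := pow_le_pow_left₀ (by linarith) hlY2 _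
          _ = 2 ^ C1 * l ^ C1 := mul_pow _ _ _
          _ ≤ l * l ^ C1 := by
              refine mul_le_mul_of_nonneg_right ?_ (by positivity)
              have : (2 : ℝ) ^ C1 ≤ 2 ^ (C1 + (c10 + B + 6) + 2) := pow_le_pow_right₀ (by norm_num) (by omega)
              linarith
          _ = l ^ (C1 + 1) := by ring
      exact mul_le_mul e1 e2 (by positivity) (by linarith)
    have hsq : Real.sqrt X ≤ Real.sqrt Y := Real.sqrt_le_sqrt hY1'
    have hhs : 2 * (h : ℝ) ≤ Real.sqrt Y := by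
      have e1 : w' * l ^ (C1 + 1) ≤ (X : ℝ) ^ (1 / (2 * M + 8) : ℝ) * l ^ (C1 + 1) := mul_le_mul_of_nonneg_right hw2' (by positivity)
      linarith
    have h9 := h6 Y (hXb.trans hY1') U ⌊w'⌋₊ S hRg h hhY hhs
    refine le_trans ?_ (h9.trans ?_)
    · have hsub : ((Ioc Y (Y + h)).filter fun N : ℕ => Even N ∧ ε * MS k S N < |(TS k S N : ℝ) - MS k S N|) ⊆
          ((Ioc Y (Y + h)).filter fun N => Even N ∧ ε2 * (SS N * (sL k U S + 1 / (Real.log Y) ^ B) * (Y / (Real.log Y) ^ 2)) <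
            |(TL k U S N : ℝ) - SS N * sL k U S * (Y / (Real.log Y) ^ 2)|) := by
        intro N hN
        rw [mem_filter, mem_Ioc] at hN ⊢
        obtain ⟨⟨hN1, hN2⟩, hev, hN3⟩ := hN
        refine ⟨⟨hN1, hN2⟩, hev, ?_⟩
        by_contra hcon
        rw [not_lt] at hcon
        have hN2' : (N : ℝ) ≤ Y + h := by exact_mod_cast hN2
        have hNs : (N : ℝ) ≤ Y + Real.sqrt Y := by
          have : (0 : ℝ) ≤ h := Nat.cast_nonneg _
          linarith
        have hN2Y : N ≤ 2 * Y := by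
          have h1 : Real.sqrt Y ≤ Y := by
            rw [Real.sqrt_le_left hY0.le]
            nlinarith
          have h2 : (N : ℝ) ≤ 2 * Y := by linarith
          exact_mod_cast h2
        have hNr : (Y : ℝ) ≤ N := by exact_mod_cast hN1.le
        have hlN : Real.log Y ≤ Real.log N := Real.log_le_log hY0 hNr
        have hnn := hy4 Y N (hXc.trans hY1') hN1 hNs
        simp only [Nat.sub_self, pow_zero, mul_one] at hnn
        have hSS : 0 ≤ SS N := by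
          have := q8 N hev
          linarith
        have hqY : ∀ q ∈ S, ∀ θ : ℝ, η ≤ θ → (q : ℝ) ≤ (Y : ℝ) ^ θ := by
          intro q hq θ hθ
          calc (q : ℝ) ≤ w' := (hS q hq).2.2
            _ ≤ (X : ℝ) ^ η := hw2
            _ ≤ (Y : ℝ) ^ η := Real.rpow_le_rpow hX0.le hY1' hη0.le
            _ ≤ (Y : ℝ) ^ θ := Real.rpow_le_rpow_of_exponent_le hYone hθ
        have hql : ∀ q ∈ S, Real.log Y ≤ q := by
          intro q hq
          have := hpow 1 (by omega)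
          rw [pow_one] at this
          exact this.trans (hS q hq).2.1
        have hbd := h8 Y N U S (hXe.trans hY1') hN1 hN2Y hev u1 u2
          (fun q hq => ⟨(hS q hq).1, (hpow (B + 4) (by omega)).trans (hS q hq).2.1, hqY q hq η8 hηb⟩)
        have hsl : |sL k U S - mL k S N / f| ≤ ε2 * (mL k S N / f) := by
          unfold sL mL
          rw [sum_div, ← sum_sub_distrib, mul_sum]
          refine (abs_sum_le_sum_abs _ _).trans (sum_le_sum fun q hq => ?_)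
          have e1 := h7 Y N U q (hXd.trans hY1') hN1 hN2Y u1 u2 (hql q hq) (hqY q hq η7 hηa)
          rw [← hf] at e1
          have hq0 : (0 : ℝ) ≤ 1 / (q : ℝ) := by positivity
          have e2 : 1 / (q : ℝ) * esy (k - 2) (2 ^ (di q + 1)) U - 1 / (q : ℝ) * (Real.log (Real.log N / Real.log q)) ^ (k - 2) / f =
              1 / (q : ℝ) * (esy (k - 2) (2 ^ (di q + 1)) U - (Real.log (Real.log N / Real.log q)) ^ (k - 2) / f) := by ring
          rw [e2, abs_mul, abs_of_nonneg hq0]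
          refine (mul_le_mul_of_nonneg_left e1 hq0).trans (le_of_eq ?_)
          ring
        have hβP : 1 / (Real.log Y) ^ B ≤ mL k S N := by
          have e1 : 1 / (Real.log Y) ^ B ≤ 1 / l ^ B :=
            one_div_le_one_div_of_le (by positivity) (pow_le_pow_left₀ (by linarith) hlY1 _)
          refine e1.trans (hsum.trans ?_)
          unfold mL
          refine sum_le_sum fun q hq => ?_
          have hq0 : (0 : ℝ) ≤ 1 / (q : ℝ) := by positivity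
          have hq1 : (1 : ℝ) < q := by exact_mod_cast (hS q hq).1.one_lt
          have hlq : 0 < Real.log q := Real.log_pos hq1
          have e2 : Real.log q ≤ 1 / 8 * Real.log Y := by
            have e3 := Real.log_le_log (by linarith) (hqY q hq (1 / 8) hηd)
            rwa [Real.log_rpow hY0] at e3
          have e4 : (1 : ℝ) ≤ Real.log (Real.log N / Real.log q) := by
            rw [Real.le_log_iff_exp_le (div_pos (by linarith) hlq)]
            rw [le_div_iff₀ hlq]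
            have := Real.exp_one_lt_d9
            nlinarith
          exact le_mul_of_one_le_right hq0 (one_le_pow₀ e4)
        have hkey := l9_cmp (S := SS N) (sg := sL k U S) (P := mL k S N) (f := f) (b := Y / (Real.log Y) ^ 2)
          (a := N / (Real.log N) ^ 2) (TN := TS k S N) (TU := TL k U S N) (β := 1 / (Real.log Y) ^ B) (ε := ε') (ε2 := ε2)
          hSS (by positivity) (by positivity) hf1 (by positivity) hβP hε'0 hε'1 hε2f hcon hsl hbd hnn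
        have hM : MS k S N = SS N * (N / (Real.log N) ^ 2 * (mL k S N / f)) := by
          unfold MS
          rw [hf]
        rw [← hM] at hkey
        have hM0 : 0 ≤ MS k S N := by
          rw [hM]
          have : 0 ≤ mL k S N := le_trans (by positivity) hβP
          positivity
        have := mul_le_mul_of_nonneg_right hε'ε hM0
        linarith
      exact_mod_cast card_le_card hsub
    · rw [mul_one_div]
      apply div_le_div_of_nonneg_left (Nat.cast_nonneg _) (by positivity)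
      exact pow_le_pow_left₀ (by linarith) hlY1 _

end Pool.Agent.Lib.G8
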