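import Pool.Agent.Lib.G5.GDefs
import Pool.Agent.Lib.G6.GDefs

/-!
# G8: representations `N = p + n`, `n` with exactly `k` prime factors and its least prime factor in a given set `S` of primes: definitions
-/

set_option autoImplicit false

open Finset

namespace Pool.Agent.Lib.G8

open Pool.Agent.Lib.G3 (SS pr lp)
open Pool.Agent.Lib.G5 (bS DD WS PP sg1 esy)

/-- the dyadic block of `q ≥ 2`: `2 ^ di q < q ≤ 2 ^ (di q + 1)` -/
def di (q : ℕ) : ℕ := Nat.log 2 (q - 1)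

/-- the members of `S` in `(2^i, 2^(i+1)]` -/
def SL (S : Finset ℕ) (i : ℕ) : Finset ℕ := S.filter fun q => 2 ^ i < q ∧ q ≤ 2 ^ (i + 1)

open Classical in
/-- indicator function of the squarefree numbers with exactly `k - 2` prime factors, all of them in `(2^(i+1), U]` -/
noncomputable def aL (k U i m : ℕ) : ℝ :=
  if Squarefree m ∧ m.primeFactors.card = k - 2 ∧ m.primeFactors ⊆ PP (2 ^ (i + 1)) U then 1 else 0

open Classical in
/-- the blocks `(i, j, g)`: `q` in `(2^i, 2^(i+1)]`, `m` in `[2^j, 2^(j+1))`, `r` in `(2^g, 2^(g+1)]` -/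
noncomputable def IL (Y e k U : ℕ) (S : Finset ℕ) : Finset (ℕ × ℕ × ℕ) :=
  ((range (Nat.log 2 Y + 1)) ×ˢ (range (Nat.log 2 Y + 1)) ×ˢ (range (Nat.log 2 Y + 1))).filter fun b =>
    (SL S b.1).Nonempty ∧ 2 ^ b.2.1 ≤ U ^ (k - 2) ∧ (Y : ℝ) / (Real.log Y) ^ e ≤ ((2 ^ b.1 * 2 ^ b.2.1 * 2 ^ b.2.2 : ℕ) : ℝ) ∧
      2 ^ b.1 * 2 ^ b.2.1 * 2 ^ b.2.2 ≤ Y

/-- the block function of the block `b` -/
noncomputable def bL (k U : ℕ) (S : Finset ℕ) (b : ℕ × ℕ × ℕ) (n : ℕ) : ℝ := bS (SL S b.1) (aL k U b.1) (2 ^ b.2.2) (2 ^ b.2.1) n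

/-- the mass of the block `b` below `N` -/
noncomputable def DL (k U : ℕ) (S : Finset ℕ) (b : ℕ × ℕ × ℕ) (N : ℕ) : ℝ := DD (SL S b.1) (aL k U b.1) (2 ^ b.2.2) (2 ^ b.2.1) N

/-- the weighted count of the block `b` -/
noncomputable def WL (k U : ℕ) (S : Finset ℕ) (b : ℕ × ℕ × ℕ) (N : ℕ) : ℝ := WS (SL S b.1) (aL k U b.1) (2 ^ b.2.2) (2 ^ b.2.1) N

/-- `∑_{q ∈ S} 1/q ∑ 1/m` over the squarefree `m` with exactly `k - 2` prime factors in `(2^(i+1), U]`, `i` the block of `q` -/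
noncomputable def sL (k U : ℕ) (S : Finset ℕ) : ℝ := ∑ q ∈ S, 1 / (q : ℝ) * esy (k - 2) (2 ^ (di q + 1)) U

/-- typical `n`: squarefree, exactly `k` prime factors, one of them a `q ∈ S`, all others outside the dyadic interval of `q` and larger,
exactly one larger than `U` -/
def EL (k U : ℕ) (S : Finset ℕ) (n : ℕ) : Prop := Squarefree n ∧ n.primeFactors.card = k ∧
  (∃ q ∈ S, q ∣ n ∧ ∀ s ∈ n.primeFactors, s ≠ q → 2 ^ (di q + 1) < s) ∧ (n.primeFactors.filter fun s => U < s).card = 1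

open Classical in
/-- number of the representations `N = p + n` with typical `n` -/
noncomputable def TL (k U : ℕ) (S : Finset ℕ) (N : ℕ) : ℕ := ((range N).filter fun p => p.Prime ∧ EL k U S (N - p)).card

/-- number of the representations `N = p + n`, `n` with exactly `k` prime factors, the least one in `S` -/
def TS (k : ℕ) (S : Finset ℕ) (N : ℕ) : ℕ :=
  ((range N).filter fun p => p.Prime ∧ ArithmeticFunction.cardFactors (N - p) = k ∧ (N - p).minFac ∈ S).card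

/-- the sum of the main term -/
noncomputable def mL (k : ℕ) (S : Finset ℕ) (N : ℕ) : ℝ :=
  ∑ q ∈ S, 1 / (q : ℝ) * (Real.log (Real.log N / Real.log q)) ^ (k - 2)

/-- the main term -/
noncomputable def MS (k : ℕ) (S : Finset ℕ) (N : ℕ) : ℝ := SS N * (N / (Real.log N) ^ 2 * (mL k S N / (Nat.factorial (k - 2) : ℝ)))

/-- the conditions at the scale `Y` -/
structure RgL (Y U w' c1 M : ℕ) (S : Finset ℕ) : Prop where
  hS : ∀ q ∈ S, q.Prime ∧ (Real.log Y) ^ (c1 + 1) ≤ q ∧ q ≤ w'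
  h2 : 2 * w' ≤ U
  h3 : U ^ M ≤ Y

open Classical in
/-- the numbers `Q ≤ x` with `Ω(Q) = j`, least prime factor `q ∈ S`, and a further prime factor in `[q, 2^(i+1)]`, `i` the block of `q`, or `> U` -/
noncomputable def QL (j U : ℕ) (S : Finset ℕ) (x : ℕ) : Finset ℕ := (Icc 1 x).filter fun Q => ArithmeticFunction.cardFactors Q = j ∧
  ∃ q ∈ S, q ∣ Q ∧ (∀ s : ℕ, s.Prime → s ∣ Q → q ≤ s) ∧ ∃ s : ℕ, s.Prime ∧ q * s ∣ Q ∧ (s ≤ 2 ^ (di q + 1) ∨ U < s)

end Pool.Agent.Lib.G8
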